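import Pool.Agent.Y820.LF.Stm
import Pool.Agent.H373R2.T7.SingLim

/-!
# Project LF, part L: the limit of the singular series of a system of linear forms
-/

set_option autoImplicit false

namespace Pool.Agent.Y820.LF.L
open Finset
open Pool.Agent.H373R2.T7 (pz mem_pz exp_low local_low tail_sq omega_le_log)
open Pool.Agent.Y820.LF

/-- local factor -/
noncomputable def Fp {k : ℕ} (C H : Fin k → ℤ) (p : ℕ) : ℝ :=
  (1 - (nuF C H p : ℝ) / p) / (1 - 1 / (p : ℝ)) ^ k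

lemma singF_Fp {k : ℕ} (C H : Fin k → ℤ) (z : ℕ) : singF C H z = ∏ p ∈ pz z, Fp C H p := rfl

/-- bad primes -/
def badP {k : ℕ} (C H : Fin k → ℤ) : Finset ℕ :=
  (univ.filter (fun q : Fin k × Fin k => q.1 ≠ q.2)).biUnion
    fun q => (C q.1 * H q.2 - C q.2 * H q.1).natAbs.primeFactors

/-- the solution of a linear congruence -/
lemma exists_root {p : ℕ} (hp : p.Prime) (c h : ℤ) (hc : ¬ (p : ℤ) ∣ c) :
    ∃ r : ℕ, r < p ∧ (p : ℤ) ∣ c * (r : ℤ) + h := by
  have hp0 : (0 : ℤ) < p := by exact_mod_cast hp.pos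
  have hco : IsCoprime c (p : ℤ) := by
    rw [isCoprime_comm]
    exact (Prime.coprime_iff_not_dvd (Nat.prime_iff_prime_int.1 hp)).2 hc
  obtain ⟨u, v, huv⟩ := hco
  refine ⟨((-(h * u)) % p).toNat, ?_, ?_⟩
  · have h3 : ((((-(h * u)) % p).toNat : ℕ) : ℤ) = (-(h * u)) % p :=
      Int.toNat_of_nonneg (Int.emod_nonneg _ hp0.ne')
    have h4 := Int.emod_lt_of_pos (-(h * u)) hp0
    rw [← h3] at h4
    exact_mod_cast h4
  · have h3 : ((((-(h * u)) % p).toNat : ℕ) : ℤ) = (-(h * u)) % p :=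
      Int.toNat_of_nonneg (Int.emod_nonneg _ hp0.ne')
    rw [h3]
    have h4 := Int.emod_add_mul_ediv (-(h * u)) p
    refine ⟨c * -(-(h * u) / p) + h * v, ?_⟩
    have e : (-(h * u)) % p = -(h * u) - p * (-(h * u) / p) := by linarith
    rw [e]
    generalize -(h * u) / (p : ℤ) = q
    linear_combination (-h) * huv

lemma root_unique {p : ℕ} (hp : p.Prime) (c h : ℤ) (hc : ¬ (p : ℤ) ∣ c) (r s : ℕ) (hr : r < p) (hs : s < p)
    (h1 : (p : ℤ) ∣ c * (r : ℤ) + h) (h2 : (p : ℤ) ∣ c * (s : ℤ) + h) : r = s := by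
  have h3 := dvd_sub h1 h2
  have e : c * (r : ℤ) + h - (c * (s : ℤ) + h) = c * ((r : ℤ) - s) := by ring
  rw [e] at h3
  have h4 := ((Nat.prime_iff_prime_int.1 hp).dvd_or_dvd h3).resolve_left hc
  obtain ⟨t, ht⟩ := h4
  have hp0 : (0 : ℤ) < p := by exact_mod_cast hp.pos
  have hr' : (r : ℤ) < p := by exact_mod_cast hr
  have hs' : (s : ℤ) < p := by exact_mod_cast hs
  have t0 : t = 0 := by
    rcases lt_trichotomy t 0 with h | h | h
    · exfalso
      have : (p : ℤ) * t ≤ p * (-1) := mul_le_mul_of_nonneg_left (by omega) hp0.le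
      have : (0 : ℤ) ≤ r := Int.natCast_nonneg r
      linarith
    · exact h
    · exfalso
      have : (p : ℤ) * 1 ≤ p * t := mul_le_mul_of_nonneg_left (by omega) hp0.le
      have : (0 : ℤ) ≤ s := Int.natCast_nonneg s
      linarith
  rw [t0, mul_zero] at ht
  have : (r : ℤ) = s := by linarith
  exact_mod_cast this

lemma nuF_le {k : ℕ} (C H : Fin k → ℤ) (hA : AdmF C H) (p : ℕ) (hp : p.Prime) : nuF C H p ≤ k := by
  have hsub : (range p).filter (fun r : ℕ => ∃ i, (p : ℤ) ∣ C i * (r : ℤ) + H i) ⊆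
      (univ : Finset (Fin k)).biUnion fun i => (range p).filter (fun r : ℕ => (p : ℤ) ∣ C i * (r : ℤ) + H i) := by
    intro r hr
    rw [mem_filter] at hr
    obtain ⟨hr1, i, hi⟩ := hr
    rw [mem_biUnion]
    exact ⟨i, mem_univ _, mem_filter.2 ⟨hr1, hi⟩⟩
  have h1 : ∀ i : Fin k, ((range p).filter (fun r : ℕ => (p : ℤ) ∣ C i * (r : ℤ) + H i)).card ≤ 1 := by
    intro i
    by_cases hc : (p : ℤ) ∣ C i
    · have hH : ¬ (p : ℤ) ∣ H i := by
        intro hH
        have h2 := hA p hp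
        have h3 : nuF C H p = p := by
          unfold nuF
          rw [filter_true_of_mem, card_range]
          intro r _
          exact ⟨i, dvd_add (hc.mul_right _) hH⟩
        omega
      rw [card_le_one]
      intro a ha
      exfalso
      rw [mem_filter] at ha
      exact hH ((Int.dvd_add_right (hc.mul_right _)).1 ha.2)
    · rw [card_le_one]
      intro a ha b hb
      rw [mem_filter, mem_range] at ha hb
      exact root_unique hp _ _ hc a b ha.1 hb.1 ha.2 hb.2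
  calc nuF C H p ≤ ((univ : Finset (Fin k)).biUnion fun i => (range p).filter (fun r : ℕ => (p : ℤ) ∣ C i * (r : ℤ) + H i)).card :=
        card_le_card hsub
    _ ≤ ∑ i : Fin k, ((range p).filter (fun r : ℕ => (p : ℤ) ∣ C i * (r : ℤ) + H i)).card := card_biUnion_le
    _ ≤ ∑ _i : Fin k, 1 := sum_le_sum fun i _ => h1 i
    _ = k := by simp

lemma not_dvd_C {k : ℕ} (C : Fin k → ℤ) (Q0 : ℕ) (hC : ∀ i, C i ≠ 0 ∧ |C i| ≤ Q0) (p : ℕ) (hQ : Q0 < p)
    (i : Fin k) : ¬ (p : ℤ) ∣ C i := by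
  intro h
  have h1 := Int.le_of_dvd (abs_pos.2 (hC i).1) ((dvd_abs _ _).2 h)
  have h2 := (hC i).2
  have h3 : (Q0 : ℤ) < p := by exact_mod_cast hQ
  linarith

lemma nuF_good {k : ℕ} (C H : Fin k → ℤ) (Q0 : ℕ) (hC : ∀ i, C i ≠ 0 ∧ |C i| ≤ Q0)
    (hD : ∀ i j, i ≠ j → C i * H j ≠ C j * H i) (p : ℕ) (hp : p.Prime) (hQ : Q0 < p) (h : p ∉ badP C H) :
    k ≤ nuF C H p := by
  have h2 : ∀ i j, i ≠ j → ¬ (p : ℤ) ∣ C i * H j - C j * H i := by
    intro i j hij hd
    apply h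
    unfold badP
    rw [mem_biUnion]
    refine ⟨(i, j), by simpa using hij, Nat.mem_primeFactors.2 ⟨hp, Int.natCast_dvd.1 hd, ?_⟩⟩
    have := hD i j hij
    simpa [sub_eq_zero] using this
  choose g hg1 hg2 using fun i => exists_root hp (C i) (H i) (not_dvd_C C Q0 hC p hQ i)
  have hinj : Function.Injective g := by
    intro i j hij
    by_contra hne
    apply h2 i j hne
    have a1 := hg2 i
    have a2 := hg2 j
    rw [hij] at a1
    have a3 := dvd_sub (a2.mul_left (C i)) (a1.mul_left (C j))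
    have e : C i * (C j * ((g j : ℕ) : ℤ) + H j) - C j * (C i * ((g j : ℕ) : ℤ) + H i) =
      C i * H j - C j * H i := by ring
    rwa [e] at a3
  have hcard : (univ.image g).card = k := by
    rw [card_image_of_injective _ hinj, card_univ, Fintype.card_fin]
  calc k = (univ.image g).card := hcard.symm
    _ ≤ nuF C H p := by
        unfold nuF
        apply card_le_card
        intro r hr
        rw [mem_image] at hr
        obtain ⟨i, _, rfl⟩ := hr
        rw [mem_filter, mem_range]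
        exact ⟨hg1 i, i, hg2 i⟩

/-- bounds for the local factors at large primes -/
lemma Fp_bounds {m : ℕ} (hm : 1 ≤ m) (C H : Fin m → ℤ) (Q0 : ℕ) (hC : ∀ i, C i ≠ 0 ∧ |C i| ≤ Q0)
    (hD : ∀ i j, i ≠ j → C i * H j ≠ C j * H i) (hA : AdmF C H) (p : ℕ) (hp : p.Prime) (h3 : 3 * m ≤ p)
    (hQ : Q0 < p) :
    Real.exp (-((m : ℝ) ^ 2 * (1 / (p : ℝ) ^ 2))) ≤ Fp C H p ∧
    Fp C H p ≤ Real.exp (if p ∈ badP C H then 2 * (m : ℝ) / p else 0) := by
  have hp2 : (2 : ℝ) ≤ p := by exact_mod_cast hp.two_le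
  have hp0 : (0 : ℝ) < p := by linarith
  have hm3 : (3 * m : ℝ) ≤ p := by exact_mod_cast h3
  have hm1 : (1 : ℝ) ≤ m := by exact_mod_cast hm
  have hq : 0 < 1 - 1 / (p : ℝ) := by rw [sub_pos, div_lt_one hp0]; linarith
  have hq1 : 1 - 1 / (p : ℝ) ≤ 1 := by
    have : 0 ≤ 1 / (p : ℝ) := by positivity
    linarith
  have hy : (m : ℝ) / p ≤ 1 / 3 := by rw [div_le_iff₀ hp0]; linarith
  have hy0 : 0 ≤ (m : ℝ) / p := by positivity
  have hbern : 1 - (m : ℝ) / p ≤ (1 - 1 / (p : ℝ)) ^ m := by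
    have h4 := one_add_mul_le_pow (a := -(1 / (p : ℝ))) (by linarith) m
    have e : 1 + (m : ℝ) * -(1 / (p : ℝ)) = 1 - m / p := by ring
    rw [e] at h4
    exact h4
  have hνm : (nuF C H p : ℝ) ≤ m := by exact_mod_cast nuF_le C H hA p hp
  have hν0 : (0 : ℝ) ≤ nuF C H p := Nat.cast_nonneg _
  constructor
  · unfold Fp
    rw [le_div_iff₀ (by positivity)]
    have h4 := exp_low hy0 hy
    have h5 : (1 - 1 / (p : ℝ)) ^ m ≤ Real.exp (-((m : ℝ) / p)) := by
      have h6 : 1 - 1 / (p : ℝ) ≤ Real.exp (-(1 / p)) := by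
        have := Real.add_one_le_exp (-(1 / (p : ℝ)))
        linarith
      calc (1 - 1 / (p : ℝ)) ^ m ≤ (Real.exp (-(1 / p))) ^ m := pow_le_pow_left₀ hq.le h6 m
        _ = Real.exp (-((m : ℝ) / p)) := by rw [← Real.exp_nat_mul]; congr 1; ring
    have h6 : 1 - (m : ℝ) / p ≤ 1 - (nuF C H p : ℝ) / p := by
      have := div_le_div_of_nonneg_right hνm hp0.le
      linarith
    calc Real.exp (-((m : ℝ) ^ 2 * (1 / (p : ℝ) ^ 2))) * (1 - 1 / (p : ℝ)) ^ m
        ≤ Real.exp (-((m : ℝ) ^ 2 * (1 / (p : ℝ) ^ 2))) * Real.exp (-((m : ℝ) / p)) := mul_le_mul_of_nonneg_left h5 (Real.exp_pos _).le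
      _ = Real.exp (-((m : ℝ) / p + ((m : ℝ) / p) ^ 2)) := by rw [← Real.exp_add]; congr 1; ring
      _ ≤ 1 - (m : ℝ) / p := h4
      _ ≤ _ := h6
  · unfold Fp
    split_ifs with hb
    · have h4 : 1 - (nuF C H p : ℝ) / p ≤ 1 := by
        have : 0 ≤ (nuF C H p : ℝ) / p := by positivity
        linarith
      rw [div_le_iff₀ (by positivity)]
      have h5 : 1 + 2 * ((m : ℝ) / p) ≤ Real.exp (2 * (m : ℝ) / p) := by
        have := Real.add_one_le_exp (2 * (m : ℝ) / p)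
        have e : 2 * (m : ℝ) / p = 2 * ((m : ℝ) / p) := by ring
        rw [e] at this ⊢
        linarith
      have h6 : 1 ≤ (1 + 2 * ((m : ℝ) / p)) * (1 - (m : ℝ) / p) := by nlinarith
      calc 1 - (nuF C H p : ℝ) / p ≤ 1 := h4
        _ ≤ (1 + 2 * ((m : ℝ) / p)) * (1 - (m : ℝ) / p) := h6
        _ ≤ Real.exp (2 * (m : ℝ) / p) * (1 - 1 / (p : ℝ)) ^ m := by
            apply mul_le_mul h5 hbern (by linarith) (Real.exp_pos _).le
    · rw [Real.exp_zero, div_le_one (by positivity)]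
      have h4 := nuF_good C H Q0 hC hD p hp hQ hb
      have h5 : (m : ℝ) ≤ nuF C H p := by exact_mod_cast h4
      have := div_le_div_of_nonneg_right h5 hp0.le
      linarith

lemma singF_nonneg {k : ℕ} (C H : Fin k → ℤ) (z : ℕ) : 0 ≤ singF C H z := by
  rw [singF_Fp]
  apply prod_nonneg
  intro p hp
  have hpp := (mem_pz.1 hp).2
  have hp2 : (2 : ℝ) ≤ p := by exact_mod_cast hpp.two_le
  have hp0 : (0 : ℝ) < p := by linarith
  have hq : 0 < 1 - 1 / (p : ℝ) := by rw [sub_pos, div_lt_one hp0]; linarith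
  unfold Fp
  apply div_nonneg _ (by positivity)
  rw [sub_nonneg, div_le_one hp0]
  have h1 : nuF C H p ≤ p := by
    unfold nuF
    exact (card_filter_le _ _).trans (by rw [card_range])
  exact_mod_cast h1

/-- the tail -/
lemma tail_bound {m : ℕ} (hm : 1 ≤ m) (C H : Fin m → ℤ) (Q0 : ℕ) (hC : ∀ i, C i ≠ 0 ∧ |C i| ≤ Q0)
    (hD : ∀ i j, i ≠ j → C i * H j ≠ C j * H i) (hA : AdmF C H) (z z' : ℕ) (hz : 3 * m ≤ z)
    (hQ : Q0 ≤ z) (hzz : z ≤ z') : ∃ R : ℝ, singF C H z' = singF C H z * R ∧ Real.exp (-((m : ℝ) ^ 2 / z)) ≤ R ∧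
      R ≤ Real.exp (2 * (m : ℝ) * (badP C H).card / z) := by
  have hz0 : (0 : ℝ) < z := by exact_mod_cast (by omega : 0 < z)
  refine ⟨∏ p ∈ (pz z').filter (fun p => ¬ p ≤ z), Fp C H p, ?_, ?_, ?_⟩
  · rw [singF_Fp, singF_Fp, ← prod_filter_mul_prod_filter_not (pz z') (fun p => p ≤ z)]
    congr 1
    apply prod_congr _ (fun _ _ => rfl)
    ext p
    rw [mem_filter, mem_pz, mem_pz]
    constructor
    · rintro ⟨⟨_, h1⟩, h2⟩; exact ⟨h2, h1⟩
    · rintro ⟨h1, h2⟩; exact ⟨⟨h1.trans hzz, h2⟩, h1⟩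
  · have h1 : ∀ p ∈ (pz z').filter (fun p => ¬ p ≤ z), Real.exp (-((m : ℝ) ^ 2 * (1 / (p : ℝ) ^ 2))) ≤ Fp C H p := by
      intro p hp
      rw [mem_filter, mem_pz] at hp
      exact (Fp_bounds hm C H Q0 hC hD hA p hp.1.2 (by omega) (by omega)).1
    refine le_trans ?_ (prod_le_prod (fun p _ => (Real.exp_pos _).le) h1)
    rw [← Real.exp_sum]
    apply Real.exp_le_exp.2
    rw [sum_neg_distrib, ← mul_sum]
    have h2 : ∑ p ∈ (pz z').filter (fun p => ¬ p ≤ z), 1 / (p : ℝ) ^ 2 ≤ ∑ n ∈ Ioc z z', 1 / (n : ℝ) ^ 2 := by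
      apply sum_le_sum_of_subset_of_nonneg
      · intro p hp
        rw [mem_filter, mem_pz] at hp
        rw [mem_Ioc]
        omega
      · intro _ _ _; positivity
    have h3 := tail_sq z z' (by omega) hzz
    have h4 : (0 : ℝ) ≤ 1 / (z' : ℝ) := by positivity
    have h5 : (m : ℝ) ^ 2 * ∑ p ∈ (pz z').filter (fun p => ¬ p ≤ z), 1 / (p : ℝ) ^ 2 ≤ (m : ℝ) ^ 2 * (1 / z) :=
      mul_le_mul_of_nonneg_left (by linarith) (by positivity)
    rw [mul_one_div] at h5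
    linarith
  · have h1 : ∀ p ∈ (pz z').filter (fun p => ¬ p ≤ z), Fp C H p ≤ Real.exp (if p ∈ badP C H then 2 * (m : ℝ) / p else 0) := by
      intro p hp
      rw [mem_filter, mem_pz] at hp
      exact (Fp_bounds hm C H Q0 hC hD hA p hp.1.2 (by omega) (by omega)).2
    have h0 : ∀ p ∈ (pz z').filter (fun p => ¬ p ≤ z), 0 ≤ Fp C H p := by
      intro p hp
      rw [mem_filter, mem_pz] at hp
      exact (Real.exp_pos _).le.trans (Fp_bounds hm C H Q0 hC hD hA p hp.1.2 (by omega) (by omega)).1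
    refine (prod_le_prod h0 h1).trans ?_
    rw [← Real.exp_sum]
    apply Real.exp_le_exp.2
    rw [← sum_filter]
    calc ∑ p ∈ ((pz z').filter (fun p => ¬ p ≤ z)).filter (fun p => p ∈ badP C H), 2 * (m : ℝ) / p
        ≤ ∑ _p ∈ ((pz z').filter (fun p => ¬ p ≤ z)).filter (fun p => p ∈ badP C H), 2 * (m : ℝ) / z := by
          apply sum_le_sum
          intro p hp
          rw [mem_filter, mem_filter] at hp
          apply div_le_div_of_nonneg_left (by positivity) hz0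
          exact_mod_cast (by omega : z ≤ p)
      _ = ((((pz z').filter (fun p => ¬ p ≤ z)).filter (fun p => p ∈ badP C H)).card : ℝ) * (2 * (m : ℝ) / z) := by
          rw [sum_const, nsmul_eq_mul]
      _ ≤ ((badP C H).card : ℝ) * (2 * (m : ℝ) / z) := by
          apply mul_le_mul_of_nonneg_right _ (by positivity)
          exact_mod_cast card_le_card (fun p hp => (mem_filter.1 hp).2)
      _ = _ := by ring

/-- the constant in the tail bound -/
noncomputable def Kc {k : ℕ} (C H : Fin k → ℤ) : ℝ := (k : ℝ) ^ 2 + 4 * (k : ℝ) * (badP C H).card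

lemma step_bound {m : ℕ} (hm : 1 ≤ m) (C H : Fin m → ℤ) (Q0 : ℕ) (hC : ∀ i, C i ≠ 0 ∧ |C i| ≤ Q0)
    (hD : ∀ i j, i ≠ j → C i * H j ≠ C j * H i) (hA : AdmF C H) (z z' : ℕ) (hz : 3 * m ≤ z)
    (hQ : Q0 ≤ z) (hK : Kc C H ≤ z) (hzz : z ≤ z') :
    |singF C H z' - singF C H z| ≤ singF C H z * (Kc C H / z) := by
  obtain ⟨R, hR, h1, h2⟩ := tail_bound hm C H Q0 hC hD hA z z' hz hQ hzz
  have hz0 : (0 : ℝ) < z := by exact_mod_cast (by omega : 0 < z)
  have hs := singF_nonneg C H z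
  have hA' : 0 ≤ (m : ℝ) ^ 2 := by positivity
  have hB : 0 ≤ 4 * (m : ℝ) * (badP C H).card := by positivity
  have hKd : Kc C H = (m : ℝ) ^ 2 + 4 * (m : ℝ) * (badP C H).card := rfl
  have e1 : 1 - Kc C H / z ≤ R := by
    refine le_trans ?_ h1
    have h3 := Real.add_one_le_exp (-((m : ℝ) ^ 2 / z))
    have h4 : (m : ℝ) ^ 2 / z ≤ Kc C H / z := div_le_div_of_nonneg_right (by linarith) hz0.le
    linarith
  have e2 : R ≤ 1 + Kc C H / z := by
    refine h2.trans ?_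
    set t := 2 * (m : ℝ) * (badP C H).card / z with ht
    have ht0 : 0 ≤ t := by positivity
    have ht1 : 2 * t ≤ Kc C H / z := by
      rw [ht, mul_div_assoc']
      apply div_le_div_of_nonneg_right _ hz0.le
      linarith
    have ht2 : Kc C H / z ≤ 1 := by rw [div_le_one hz0]; exact hK
    have h3 := Real.abs_exp_sub_one_sub_id_le (x := t) (by rw [abs_of_nonneg ht0]; linarith)
    have h4 := (abs_le.1 h3).2
    nlinarith
  have e : singF C H z' - singF C H z = singF C H z * (R - 1) := by rw [hR]; ring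
  rw [e, abs_mul, abs_of_nonneg hs]
  apply mul_le_mul_of_nonneg_left _ hs
  rw [abs_le]
  constructor <;> linarith

theorem sing_limit {m : ℕ} (hm : 1 ≤ m) (C H : Fin m → ℤ) (Q0 : ℕ) (hC : ∀ i, C i ≠ 0 ∧ |C i| ≤ Q0)
    (hD : ∀ i j, i ≠ j → C i * H j ≠ C j * H i) (hA : AdmF C H) :
    ∃ S : ℝ, Filter.Tendsto (singF C H) Filter.atTop (nhds S) ∧
      ∀ z : ℕ, 3 * m ≤ z → Q0 ≤ z → Kc C H ≤ z → |S - singF C H z| ≤ singF C H z * (Kc C H / z) := by
  have hK0 : 0 ≤ Kc C H := by unfold Kc; positivity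
  have hcau : CauchySeq (singF C H) := by
    rw [Metric.cauchySeq_iff']
    intro ε hε
    set z0 : ℕ := max (max (3 * m) Q0) ⌈Kc C H⌉₊ with hz0
    have hz0K : Kc C H ≤ z0 := (Nat.le_ceil _).trans (by exact_mod_cast le_max_right _ _)
    have hz03 : 3 * m ≤ z0 := (le_max_left _ _).trans (le_max_left _ _)
    have hz0Q : Q0 ≤ z0 := (le_max_right _ _).trans (le_max_left _ _)
    have hs0 := singF_nonneg C H z0
    obtain ⟨M, hM⟩ := exists_nat_gt (2 * singF C H z0 * Kc C H / ε)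
    refine ⟨max z0 (M + 1), fun n hn => ?_⟩
    set Z := max z0 (M + 1) with hZ
    have hZ0 : z0 ≤ Z := le_max_left _ _
    have hZM : M + 1 ≤ Z := le_max_right _ _
    have hZr : (0 : ℝ) < Z := by exact_mod_cast (by omega : 0 < Z)
    have h1 := step_bound hm C H Q0 hC hD hA Z n (hz03.trans hZ0) (hz0Q.trans hZ0) (hz0K.trans (by exact_mod_cast hZ0)) hn
    have h2 := step_bound hm C H Q0 hC hD hA z0 Z hz03 hz0Q hz0K hZ0
    have hz0r : (0 : ℝ) < z0 := by exact_mod_cast (by omega : 0 < z0)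
    have h3 : singF C H Z ≤ 2 * singF C H z0 := by
      have h4 := (abs_le.1 h2).2
      have h5 : Kc C H / z0 ≤ 1 := by rw [div_le_one hz0r]; exact hz0K
      nlinarith
    rw [Real.dist_eq]
    refine lt_of_le_of_lt h1 ?_
    have h4 : singF C H Z * (Kc C H / Z) ≤ 2 * singF C H z0 * (Kc C H / Z) := mul_le_mul_of_nonneg_right h3 (by positivity)
    refine lt_of_le_of_lt h4 ?_
    rw [mul_div_assoc', div_lt_iff₀ hZr]
    rw [div_lt_iff₀ hε] at hM
    have h5 : (M : ℝ) ≤ Z := by exact_mod_cast (by omega : M ≤ Z)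
    nlinarith
  obtain ⟨S, hS⟩ := cauchySeq_tendsto_of_complete hcau
  refine ⟨S, hS, fun z hz hQ hK => ?_⟩
  have h1 : Filter.Tendsto (fun z' => |singF C H z' - singF C H z|) Filter.atTop (nhds |S - singF C H z|) :=
    (hS.sub_const _).abs
  apply le_of_tendsto h1
  filter_upwards [Filter.eventually_ge_atTop z] with z' hz'
  exact step_bound hm C H Q0 hC hD hA z z' hz hQ hK hz'

lemma card_badP {k : ℕ} (C H : Fin k → ℤ) (Y : ℕ) (h2 : ∀ i j, (C i * H j - C j * H i).natAbs ≤ Y) :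
    (badP C H).card ≤ (k * k) * Nat.log 2 Y := by
  have h3 : ∀ b : ℤ, b.natAbs ≤ Y → b.natAbs.primeFactors.card ≤ Nat.log 2 Y := by
    intro b hb
    rcases Nat.eq_zero_or_pos b.natAbs with h | h
    · rw [h]; simp
    · exact (omega_le_log _ (by omega)).trans (Nat.log_mono_right hb)
  unfold badP
  refine card_biUnion_le.trans ((sum_le_sum fun q _ => h3 _ (h2 q.1 q.2)).trans ?_)
  rw [sum_const, smul_eq_mul]
  apply Nat.mul_le_mul_right
  refine (card_filter_le _ _).trans ?_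
  rw [card_univ, Fintype.card_prod, Fintype.card_fin]

lemma log_le (Y : ℕ) (hY : 1 ≤ Y) : (Nat.log 2 Y : ℝ) ≤ 2 * Real.log Y := by
  have h1 : 2 ^ Nat.log 2 Y ≤ Y := Nat.pow_log_le_self 2 (by omega)
  have h2 : ((2 : ℝ)) ^ Nat.log 2 Y ≤ Y := by exact_mod_cast h1
  have h3 := Real.log_le_log (by positivity) h2
  rw [Real.log_pow] at h3
  have h4 : (0 : ℝ) ≤ Nat.log 2 Y := Nat.cast_nonneg _
  have h5 := Real.log_two_gt_d9
  nlinarith

lemma disc_le (Q0 B N : ℕ) (c1 c2 h1 h2 : ℤ) (hc1 : |c1| ≤ Q0) (hc2 : |c2| ≤ Q0) (hh1 : |h1| ≤ (B : ℤ) * N)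
    (hh2 : |h2| ≤ (B : ℤ) * N) : (c1 * h2 - c2 * h1).natAbs ≤ (2 * Q0 * B + 1) * N := by
  have e1 : |c1 * h2 - c2 * h1| ≤ (Q0 : ℤ) * (B * N) + Q0 * (B * N) := by
    calc |c1 * h2 - c2 * h1| ≤ |c1 * h2| + |c2 * h1| := abs_sub _ _
      _ = |c1| * |h2| + |c2| * |h1| := by rw [abs_mul, abs_mul]
      _ ≤ _ := add_le_add (mul_le_mul hc1 hh2 (abs_nonneg _) (Int.natCast_nonneg _))
          (mul_le_mul hc2 hh1 (abs_nonneg _) (Int.natCast_nonneg _))
  have e2 : ((c1 * h2 - c2 * h1).natAbs : ℤ) ≤ (((2 * Q0 * B + 1) * N : ℕ) : ℤ) := by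
    rw [Int.natCast_natAbs]
    push_cast
    have : (0 : ℤ) ≤ N := Int.natCast_nonneg _
    linarith
  exact_mod_cast e2

end Pool.Agent.Y820.LF.L

namespace Pool.Agent.Y820.LF
open Finset L
open Pool.Agent.H373R2.T7 (pz mem_pz local_low)

theorem t_lim : S_lim := by
  intro k Q0 hk
  refine ⟨(1 / (3 * (k : ℝ))) ^ (3 * k) * Real.exp (-(2 * (k : ℝ) ^ 2)), by positivity, fun B δ hδ => ?_⟩
  set η : ℝ := min (1 / 2) (δ / 2) with hη
  have hη0 : 0 < η := lt_min (by norm_num) (by linarith)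
  have hη1 : η ≤ 1 / 2 := min_le_left _ _
  have hη2 : η ≤ δ / 2 := min_le_right _ _
  set L0 : ℝ := Real.log (2 * Q0 * B + 1) with hL0
  have hL0' : 0 ≤ L0 := Real.log_nonneg (by
    have : (0 : ℝ) ≤ 2 * Q0 * B := by positivity
    linarith)
  set T1 : ℝ := (k : ℝ) ^ 2 + 8 * (k : ℝ) ^ 3 * (L0 + 1) with hT1
  have hT10 : 0 ≤ T1 := by positivity
  set T : ℝ := max (max 1 (T1 / η)) (3 * k + Q0) with hT
  refine ⟨⌈Real.exp T⌉₊ + 1, fun N hN C H hC hH hD hA => ?_⟩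
  have hN1 : 1 ≤ N := by omega
  have hNr : Real.exp T ≤ N := (Nat.le_ceil _).trans (by exact_mod_cast (by omega : ⌈Real.exp T⌉₊ ≤ N))
  have hN0 : (0 : ℝ) < N := (Real.exp_pos _).trans_le hNr
  have hlog : T ≤ Real.log N := by
    rw [← Real.log_exp T]
    exact Real.log_le_log (Real.exp_pos _) hNr
  have hl1 : 1 ≤ Real.log N := ((le_max_left _ _).trans (le_max_left _ _)).trans hlog
  have hl2 : T1 / η ≤ Real.log N := ((le_max_right _ _).trans (le_max_left _ _)).trans hlog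
  have hl3 : 3 * (k : ℝ) + Q0 ≤ Real.log N := (le_max_right _ _).trans hlog
  obtain ⟨S, hS, hS2⟩ := sing_limit hk C H Q0 hC hD hA
  have hlow : ∀ z, (1 / (3 * (k : ℝ))) ^ (3 * k) * Real.exp (-(2 * (k : ℝ) ^ 2)) ≤ singF C H z := fun z =>
    local_low k hk (nuF C H) z (fun p hp => nuF_le C H hA p (mem_pz.1 hp).2)
      (fun p hp => hA p (mem_pz.1 hp).2)
  refine ⟨S, ge_of_tendsto' hS hlow, hS, fun z hz => ?_⟩
  -- the constant
  have hcard : ((badP C H).card : ℝ) ≤ (k : ℝ) ^ 2 * (2 * (L0 + Real.log N)) := by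
    have h1 := card_badP C H ((2 * Q0 * B + 1) * N) (fun i j =>
      disc_le Q0 B N (C i) (C j) (H i) (H j) (hC i).2 (hC j).2 (hH i) (hH j))
    have h2 := log_le ((2 * Q0 * B + 1) * N) (Nat.mul_pos (by omega) hN1)
    have h3 : Real.log (((2 * Q0 * B + 1) * N : ℕ) : ℝ) = L0 + Real.log N := by
      push_cast
      rw [Real.log_mul (by positivity) hN0.ne']
    rw [h3] at h2
    have h4 : ((badP C H).card : ℝ) ≤ (k : ℝ) * k * (Nat.log 2 ((2 * Q0 * B + 1) * N) : ℝ) := by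
      exact_mod_cast h1
    calc ((badP C H).card : ℝ) ≤ (k : ℝ) * k * (Nat.log 2 ((2 * Q0 * B + 1) * N) : ℝ) := h4
      _ ≤ (k : ℝ) * k * (2 * (L0 + Real.log N)) := mul_le_mul_of_nonneg_left h2 (by positivity)
      _ = _ := by ring
  have hKc : Kc C H ≤ T1 * Real.log N := by
    unfold Kc
    have h1 : 4 * (k : ℝ) * (badP C H).card ≤ 4 * (k : ℝ) * ((k : ℝ) ^ 2 * (2 * (L0 + Real.log N))) :=
      mul_le_mul_of_nonneg_left hcard (by positivity)
    have h2 : (k : ℝ) ^ 2 ≤ (k : ℝ) ^ 2 * Real.log N := le_mul_of_one_le_right (by positivity) hl1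
    have h3 : 8 * (k : ℝ) ^ 3 * L0 ≤ 8 * (k : ℝ) ^ 3 * L0 * Real.log N :=
      le_mul_of_one_le_right (by positivity) hl1
    calc (k : ℝ) ^ 2 + 4 * (k : ℝ) * (badP C H).card
        ≤ (k : ℝ) ^ 2 + 4 * (k : ℝ) * ((k : ℝ) ^ 2 * (2 * (L0 + Real.log N))) := by linarith
      _ = (k : ℝ) ^ 2 + 8 * (k : ℝ) ^ 3 * L0 + 8 * (k : ℝ) ^ 3 * Real.log N := by ring
      _ ≤ (k : ℝ) ^ 2 * Real.log N + 8 * (k : ℝ) ^ 3 * L0 * Real.log N + 8 * (k : ℝ) ^ 3 * Real.log N := by
          linarith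
      _ = T1 * Real.log N := by rw [hT1]; ring
  have hT1' : T1 ≤ η * Real.log N := by
    rw [div_le_iff₀ hη0] at hl2
    linarith
  have hl0 : 0 < Real.log N := by linarith
  have hKη : Kc C H ≤ η * z := by
    calc Kc C H ≤ T1 * Real.log N := hKc
      _ ≤ η * Real.log N * Real.log N := mul_le_mul_of_nonneg_right hT1' hl0.le
      _ = η * Real.log N ^ 2 := by ring
      _ ≤ η * z := mul_le_mul_of_nonneg_left hz hη0.le
  have hzl : Real.log N ≤ z := by
    refine le_trans ?_ hz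
    nlinarith
  have hz0 : (0 : ℝ) < z := by linarith
  have hz3 : 3 * k ≤ z := by
    have : (3 * k : ℝ) ≤ z := by
      have : (0 : ℝ) ≤ Q0 := Nat.cast_nonneg _
      linarith
    exact_mod_cast this
  have hzQ : Q0 ≤ z := by
    have : (Q0 : ℝ) ≤ z := by
      have : (0 : ℝ) ≤ k := Nat.cast_nonneg _
      linarith
    exact_mod_cast this
  have hKz : Kc C H ≤ z := by nlinarith
  have h1 := hS2 z hz3 hzQ hKz
  have hs := singF_nonneg C H z
  set κ := Kc C H / z with hκ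
  have hκη : κ ≤ η := by rw [hκ, div_le_iff₀ hz0]; exact hKη
  have h2 : |S - singF C H z| ≤ singF C H z * η := h1.trans (mul_le_mul_of_nonneg_left hκη hs)
  have h3 := abs_le.1 h2
  have h4 : singF C H z ≤ 2 * S := by nlinarith [h3.1]
  rw [abs_sub_comm]
  calc |S - singF C H z| ≤ singF C H z * η := h2
    _ ≤ 2 * S * η := mul_le_mul_of_nonneg_right h4 hη0.le
    _ ≤ 2 * S * (δ / 2) := mul_le_mul_of_nonneg_left hη2 (by linarith)
    _ = δ * S := by ring

end Pool.Agent.Y820.LF
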