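import Pool.Agent.Y820.LF.Stm
import Pool.Agent.H560R3.GB.Tup3

set_option autoImplicit false

/-!
# LF-T (helper514 for helper820): from the weighted sum to the number of the prime values
-/

namespace Pool.Agent.Y820.LF.TR
open Finset
open Pool.Agent.H373R2.T7
open Pool.Agent.H560R3.GB

lemma val_pos {C H : ℤ} {N : ℕ} (h1 : 1 ≤ C + H) (h2 : 1 ≤ C * (N : ℤ) + H) {n : ℕ}
    (hn : n ∈ Icc 1 N) : 1 ≤ C * (n : ℤ) + H := by
  rw [mem_Icc] at hn
  have a1 : (1 : ℤ) ≤ n := by exact_mod_cast hn.1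
  have a2 : (n : ℤ) ≤ N := by exact_mod_cast hn.2
  rcases le_total 0 C with h | h
  · nlinarith
  · nlinarith

lemma val_le {C H : ℤ} {N Q0 B : ℕ} (hC : |C| ≤ Q0) (hH : |H| ≤ (B : ℤ) * N) {n : ℕ}
    (hn : n ∈ Icc 1 N) : C * (n : ℤ) + H ≤ (((Q0 + B + 1) * N : ℕ) : ℤ) := by
  rw [mem_Icc] at hn
  have a1 : (1 : ℤ) ≤ n := by exact_mod_cast hn.1
  have a2 : (n : ℤ) ≤ N := by exact_mod_cast hn.2
  have h1 : C * n ≤ |C| * N := by
    calc C * n ≤ |C| * n := mul_le_mul_of_nonneg_right (le_abs_self _) (by omega)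
      _ ≤ |C| * N := mul_le_mul_of_nonneg_left a2 (abs_nonneg _)
  have h2 : |C| * N ≤ Q0 * N := mul_le_mul_of_nonneg_right hC (by omega)
  have h3 := (le_abs_self H).trans hH
  push_cast
  nlinarith

lemma val_inj {c a : ℤ} (hc : c ≠ 0) {n m : ℕ} (hn : 1 ≤ c * (n : ℤ) + a) (hm : 1 ≤ c * (m : ℤ) + a)
    (h : (c * (n : ℤ) + a).toNat = (c * (m : ℤ) + a).toNat) : n = m := by
  have h1 : c * (n : ℤ) = c * (m : ℤ) := by omega
  have h2 := mul_left_cancel₀ hc h1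
  exact_mod_cast h2

/-- the contribution of proper prime powers -/
lemma pp_sumF (N X : ℕ) (c a : ℤ) (hc : c ≠ 0) (hX : 1 ≤ X) (h : ∀ n ∈ Icc 1 N, c * (n : ℤ) + a ≤ X) :
    ∑ n ∈ Icc 1 N, (lamI (c * (n : ℤ) + a) - lamP (c * (n : ℤ) + a)) ≤ 2 * √(X : ℝ) * Real.log X := by
  have h0 := Chebyshev.psi_sub_theta_le (x := (X : ℝ)) (by exact_mod_cast hX)
  rw [Chebyshev.psi_sub_theta_eq_sum_not_prime, Nat.floor_natCast] at h0
  refine le_trans ?_ h0
  have h1 : ∀ n ∈ Icc 1 N, lamI (c * (n : ℤ) + a) - lamP (c * (n : ℤ) + a) =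
      if 1 ≤ c * (n : ℤ) + a ∧ ¬ (c * (n : ℤ) + a).toNat.Prime then
        ArithmeticFunction.vonMangoldt (c * (n : ℤ) + a).toNat else 0 := by
    intro n _
    unfold lamI lamP
    by_cases h2 : 1 ≤ c * (n : ℤ) + a
    · by_cases h3 : ((c * (n : ℤ) + a).toNat).Prime
      · rw [if_pos h2, if_pos h3, if_neg (fun h => h.2 h3), ArithmeticFunction.vonMangoldt_apply_prime h3, sub_self]
      · rw [if_pos h2, if_neg h3, if_pos ⟨h2, h3⟩, sub_zero]
    · have h3 : ¬ ((c * (n : ℤ) + a).toNat).Prime := by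
        have : (c * (n : ℤ) + a).toNat = 0 := by omega
        rw [this]; exact Nat.not_prime_zero
      rw [if_neg h2, if_neg h3, if_neg (fun h => h2 h.1), sub_self]
  rw [sum_congr rfl h1, ← sum_filter]
  have h2 : ∑ n ∈ (Icc 1 N).filter (fun n : ℕ => 1 ≤ c * (n : ℤ) + a ∧ ¬ (c * (n : ℤ) + a).toNat.Prime),
      ArithmeticFunction.vonMangoldt (c * (n : ℤ) + a).toNat =
      ∑ j ∈ ((Icc 1 N).filter (fun n : ℕ => 1 ≤ c * (n : ℤ) + a ∧ ¬ (c * (n : ℤ) + a).toNat.Prime)).image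
        (fun n : ℕ => (c * (n : ℤ) + a).toNat),
      ArithmeticFunction.vonMangoldt j := by
    rw [sum_image]
    intro n hn m hm hnm
    simp only [coe_filter, mem_Icc, Set.mem_ofPred_eq] at hn hm
    exact val_inj hc hn.2.1 hm.2.1 hnm
  rw [h2]
  apply sum_le_sum_of_subset_of_nonneg
  · intro j hj
    rw [mem_image] at hj
    obtain ⟨n, hn, rfl⟩ := hj
    rw [mem_filter] at hn
    have h3 := h n hn.1
    rw [mem_filter, mem_Ioc]
    exact ⟨⟨by omega, by omega⟩, hn.2.2⟩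
  · intro _ _ _
    exact ArithmeticFunction.vonMangoldt_nonneg

lemma cnt_eq {k : ℕ} (C H : Fin k → ℤ) (N : ℕ) : (cntF C H N : ℝ) =
    ∑ n ∈ Icc 1 N, if (∀ i, (C i * (n : ℤ) + H i).toNat.Prime) then (1 : ℝ) else 0 := by
  unfold cntF
  rw [← sum_filter, sum_const, nsmul_eq_mul, mul_one]

lemma lamP_le_log {v : ℤ} {W : ℕ} (hW : 1 ≤ W) (h : v ≤ W) : lamP v ≤ Real.log W := by
  refine (lamP_le v).trans (lamI_le v W (by exact_mod_cast hW) (by exact_mod_cast h))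

lemma upF {k : ℕ} (C H : Fin k → ℤ) (N W : ℕ) (hW : 1 ≤ W)
    (h : ∀ i, ∀ n ∈ Icc 1 N, C i * (n : ℤ) + H i ≤ W) :
    ∑ n ∈ Icc 1 N, ∏ i, lamP (C i * (n : ℤ) + H i) ≤ Real.log W ^ k * cntF C H N := by
  rw [cnt_eq, mul_sum]
  apply sum_le_sum
  intro n hn
  by_cases h1 : ∀ i, (C i * (n : ℤ) + H i).toNat.Prime
  · rw [if_pos h1, mul_one]
    calc ∏ i, lamP (C i * (n : ℤ) + H i) ≤ ∏ _i : Fin k, Real.log W :=
          prod_le_prod (fun i _ => lamP_nonneg _) (fun i _ => lamP_le_log hW (h i n hn))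
      _ = Real.log W ^ k := by rw [prod_const, card_univ, Fintype.card_fin]
  · rw [if_neg h1, mul_zero]
    push Not at h1
    obtain ⟨i, hi⟩ := h1
    rw [prod_eq_zero (mem_univ i)]
    unfold lamP
    rw [if_neg hi]

lemma lowF {k : ℕ} (C H : Fin k → ℤ) (hC : ∀ i, C i ≠ 0) (N : ℕ) (hP : PosF C H N) (Y y : ℝ)
    (hY : 1 ≤ Y) (hy : 0 ≤ y) (hyY : y ≤ Real.log Y) :
    y ^ k * cntF C H N ≤ ∑ n ∈ Icc 1 N, ∏ i, lamP (C i * (n : ℤ) + H i) + y ^ k * (k * Y) := by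
  have hcount : ∀ i, ∑ n ∈ Icc 1 N, (if ((C i * (n : ℤ) + H i).toNat : ℝ) < Y then (1 : ℝ) else 0) ≤ Y := by
    intro i
    rw [← sum_filter, sum_const, nsmul_eq_mul, mul_one]
    have h1 : ((Icc 1 N).filter (fun n : ℕ => ((C i * (n : ℤ) + H i).toNat : ℝ) < Y)).card ≤
        (Icc 1 ⌊Y⌋₊).card := by
      apply card_le_card_of_injOn (fun n : ℕ => (C i * (n : ℤ) + H i).toNat)
      · intro n hn
        rw [coe_filter, Set.mem_ofPred_eq] at hn
        have h2 := val_pos (hP i).1 (hP i).2 hn.1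
        have h3 : (C i * (n : ℤ) + H i).toNat ≤ ⌊Y⌋₊ := Nat.le_floor hn.2.le
        rw [coe_Icc, Set.mem_Icc]
        refine ⟨?_, h3⟩
        show 1 ≤ (C i * (n : ℤ) + H i).toNat
        omega
      · intro n hn m hm hnm
        rw [coe_filter, Set.mem_ofPred_eq] at hn hm
        exact val_inj (hC i) (val_pos (hP i).1 (hP i).2 hn.1) (val_pos (hP i).1 (hP i).2 hm.1) hnm
    rw [Nat.card_Icc, Nat.add_sub_cancel] at h1
    calc _ ≤ ((⌊Y⌋₊ : ℕ) : ℝ) := by exact_mod_cast h1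
      _ ≤ Y := Nat.floor_le (by linarith)
  have h5 : ∑ n ∈ Icc 1 N, ∑ i, (if ((C i * (n : ℤ) + H i).toNat : ℝ) < Y then (1 : ℝ) else 0) ≤ k * Y := by
    rw [sum_comm]
    calc _ ≤ ∑ _i : Fin k, Y := sum_le_sum (fun i _ => hcount i)
      _ = k * Y := by rw [sum_const, card_univ, Fintype.card_fin, nsmul_eq_mul]
  have hyk : 0 ≤ y ^ k := pow_nonneg hy k
  refine le_trans ?_ (add_le_add le_rfl (mul_le_mul_of_nonneg_left h5 hyk))
  rw [cnt_eq, mul_sum, mul_sum, ← sum_add_distrib]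
  apply sum_le_sum
  intro n hn
  have hPr : 0 ≤ ∏ i, lamP (C i * (n : ℤ) + H i) := prod_nonneg fun i _ => lamP_nonneg _
  have hS0 : ∀ i ∈ (univ : Finset (Fin k)),
      0 ≤ (if ((C i * (n : ℤ) + H i).toNat : ℝ) < Y then (1 : ℝ) else 0) := by
    intro i _
    split_ifs <;> norm_num
  by_cases h1 : ∀ i, (C i * (n : ℤ) + H i).toNat.Prime
  · rw [if_pos h1, mul_one]
    by_cases h2 : ∃ i, ((C i * (n : ℤ) + H i).toNat : ℝ) < Y
    · obtain ⟨i, hi⟩ := h2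
      have h3 := single_le_sum hS0 (mem_univ i)
      rw [if_pos hi] at h3
      have h4 : y ^ k * 1 ≤ y ^ k * ∑ i, (if ((C i * (n : ℤ) + H i).toNat : ℝ) < Y then (1 : ℝ) else 0) :=
        mul_le_mul_of_nonneg_left h3 hyk
      linarith
    · push Not at h2
      have h3 : y ^ k ≤ ∏ i, lamP (C i * (n : ℤ) + H i) := by
        calc y ^ k = ∏ _i : Fin k, y := by rw [prod_const, card_univ, Fintype.card_fin]
          _ ≤ _ := by
            apply prod_le_prod (fun i _ => hy)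
            intro i _
            unfold lamP
            rw [if_pos (h1 i)]
            exact hyY.trans (Real.log_le_log (by linarith) (h2 i))
      have h4 : 0 ≤ y ^ k * ∑ i, (if ((C i * (n : ℤ) + H i).toNat : ℝ) < Y then (1 : ℝ) else 0) :=
        mul_nonneg hyk (sum_nonneg hS0)
      linarith
  · rw [if_neg h1, mul_zero]
    have h4 : 0 ≤ y ^ k * ∑ i, (if ((C i * (n : ℤ) + H i).toNat : ℝ) < Y then (1 : ℝ) else 0) :=
      mul_nonneg hyk (sum_nonneg hS0)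
    linarith

/-- from `lamI` to `lamP` -/
lemma diffF {k : ℕ} (C H : Fin k → ℤ) (hC : ∀ i, C i ≠ 0) (N W : ℕ) (hW : 1 ≤ Real.log W)
    (h : ∀ i, ∀ n ∈ Icc 1 N, C i * (n : ℤ) + H i ≤ W) :
    |∑ n ∈ Icc 1 N, ∏ i, lamI (C i * (n : ℤ) + H i) - ∑ n ∈ Icc 1 N, ∏ i, lamP (C i * (n : ℤ) + H i)| ≤
      Real.log W ^ k * (k * (2 * √(W : ℝ) * Real.log W)) := by
  have hW1 : 1 ≤ W := by
    by_contra h1
    have : W = 0 := by omega
    rw [this, Nat.cast_zero, Real.log_zero] at hW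
    linarith
  have hW1r : (1 : ℝ) ≤ W := by exact_mod_cast hW1
  have key : ∀ n ∈ Icc 1 N, 0 ≤ ∏ i, lamI (C i * (n : ℤ) + H i) - ∏ i, lamP (C i * (n : ℤ) + H i) ∧
      ∏ i, lamI (C i * (n : ℤ) + H i) - ∏ i, lamP (C i * (n : ℤ) + H i) ≤
      Real.log W ^ k * ∑ i, (lamI (C i * (n : ℤ) + H i) - lamP (C i * (n : ℤ) + H i)) := by
    intro n hn
    have := prod_sub_le (univ : Finset (Fin k)) (fun i => lamI (C i * (n : ℤ) + H i))
      (fun i => lamP (C i * (n : ℤ) + H i)) (Real.log W) hW (fun i _ => lamP_nonneg _)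
      (fun i _ => lamP_le _) (fun i _ => lamI_le _ W hW1r (by exact_mod_cast h i n hn))
    rwa [card_univ, Fintype.card_fin] at this
  rw [← sum_sub_distrib, abs_of_nonneg (sum_nonneg fun n hn => (key n hn).1)]
  calc _ ≤ ∑ n ∈ Icc 1 N, Real.log W ^ k * ∑ i, (lamI (C i * (n : ℤ) + H i) - lamP (C i * (n : ℤ) + H i)) :=
        sum_le_sum fun n hn => (key n hn).2
    _ = Real.log W ^ k * ∑ i, ∑ n ∈ Icc 1 N, (lamI (C i * (n : ℤ) + H i) - lamP (C i * (n : ℤ) + H i)) := by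
        rw [← mul_sum, sum_comm]
    _ ≤ Real.log W ^ k * ∑ _i : Fin k, (2 * √(W : ℝ) * Real.log W) := by
        apply mul_le_mul_of_nonneg_left _ (by positivity)
        exact sum_le_sum fun i _ => pp_sumF N W (C i) (H i) (hC i) hW1 (h i)
    _ = _ := by rw [sum_const, card_univ, Fintype.card_fin, nsmul_eq_mul]

end Pool.Agent.Y820.LF.TR

namespace Pool.Agent.Y820.LF
open Finset TR
open Pool.Agent.H373R2.T7
open Pool.Agent.H560R3.GB

theorem t_tr : S_tr := by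
  intro k Q0 B hk c ε hc hε
  obtain ⟨k', rfl⟩ : ∃ k', k = k' + 1 := ⟨k - 1, by omega⟩
  obtain ⟨δ, hδ0, hδ1, hδa, hδb⟩ := choose_delta k' ε hε
  have hlim : Filter.Tendsto (fun n : ℕ => (n : ℝ)) Filter.atTop Filter.atTop := tendsto_natCast_atTop_atTop
  have hk0 : (0 : ℝ) < ((k' + 1 : ℕ) : ℝ) := by positivity
  have h1 : ∀ᶠ n : ℕ in Filter.atTop, ((k' + 1 : ℕ) : ℝ) * Real.log n ^ (k' + 1) ≤ (δ * c) * (n : ℝ) ^ δ := by
    have h := (isLittleO_log_rpow_rpow_atTop ((k' + 1 : ℕ) : ℝ) (show (0 : ℝ) < δ by positivity)).bound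
      (show 0 < δ * c / ((k' + 1 : ℕ) : ℝ) by positivity)
    filter_upwards [hlim.eventually h, hlim.eventually_ge_atTop 1] with n hn hn1
    have h0 : 0 ≤ Real.log (n : ℝ) := Real.log_nonneg hn1
    rw [Real.norm_of_nonneg (by positivity), Real.norm_of_nonneg (by positivity), Real.rpow_natCast] at hn
    calc ((k' + 1 : ℕ) : ℝ) * Real.log n ^ (k' + 1) ≤
        ((k' + 1 : ℕ) : ℝ) * (δ * c / ((k' + 1 : ℕ) : ℝ) * (n : ℝ) ^ δ) :=
          mul_le_mul_of_nonneg_left hn hk0.le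
      _ = (δ * c) * (n : ℝ) ^ δ := by field_simp
  set A : ℝ := (Q0 : ℝ) + B + 1 with hA
  have hA1 : 1 ≤ A := by
    have : (0 : ℝ) ≤ Q0 := Nat.cast_nonneg _
    have : (0 : ℝ) ≤ B := Nat.cast_nonneg _
    linarith
  set K : ℝ := 2 ^ (k' + 1) * (((k' + 1 : ℕ) : ℝ) * (2 * √A * 2)) with hK
  have hK0 : 0 < K := by
    have : 0 < √A := Real.sqrt_pos.2 (by linarith)
    positivity
  have h2 : ∀ᶠ n : ℕ in Filter.atTop, K * Real.log n ^ (k' + 2) ≤ (δ / 2 * c) * √(n : ℝ) := by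
    have h := (isLittleO_log_rpow_rpow_atTop ((k' + 2 : ℕ) : ℝ) (show (0 : ℝ) < 1 / 2 by norm_num)).bound
      (show 0 < δ / 2 * c / K by positivity)
    filter_upwards [hlim.eventually h, hlim.eventually_ge_atTop 1] with n hn hn1
    have h0 : 0 ≤ Real.log (n : ℝ) := Real.log_nonneg hn1
    rw [Real.norm_of_nonneg (by positivity), Real.norm_of_nonneg (by positivity), Real.rpow_natCast,
      ← Real.sqrt_eq_rpow] at hn
    calc K * Real.log n ^ (k' + 2) ≤ K * (δ / 2 * c / K * √(n : ℝ)) :=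
          mul_le_mul_of_nonneg_left hn hK0.le
      _ = (δ / 2 * c) * √(n : ℝ) := by field_simp
  obtain ⟨n1, hn1⟩ := Filter.eventually_atTop.1 (h1.and h2)
  obtain ⟨n2, hn2⟩ := ev_L' (Real.log A / δ + 1)
  refine ⟨δ / 2, by positivity, max n1 (max n2 3), fun N hN C H hC hH hP S hS hT => ?_⟩
  obtain ⟨b1, b1'⟩ := hn1 N ((le_max_left _ _).trans hN)
  have b2 := hn2 N (((le_max_left _ _).trans (le_max_right _ _)).trans hN)
  have hN3 : 3 ≤ N := ((le_max_right _ _).trans (le_max_right _ _)).trans hN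
  have hNr : (3 : ℝ) ≤ N := by exact_mod_cast hN3
  have hN0 : (0 : ℝ) < N := by linarith
  have hlA : 0 ≤ Real.log A := Real.log_nonneg hA1
  set L := Real.log (N : ℝ) with hLd
  have q1 : 0 ≤ Real.log A / δ := by positivity
  have hL1 : 1 ≤ L := by linarith
  have hL0 : 0 < L := by linarith
  have hLB : Real.log A ≤ δ * L := by
    have h : Real.log A / δ ≤ L := by linarith
    rw [div_le_iff₀ hδ0] at h
    linarith
  obtain ⟨W, hW⟩ : ∃ W : ℕ, W = (Q0 + B + 1) * N := ⟨_, rfl⟩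
  have hWr : (W : ℝ) = A * N := by rw [hW, hA]; push_cast; ring
  have hlW : Real.log W = Real.log A + L := by rw [hWr, Real.log_mul (by linarith) hN0.ne']
  have hlW1 : 1 ≤ Real.log W := by rw [hlW]; linarith
  have hlW2 : Real.log W ≤ (1 + δ) * L := by rw [hlW]; linarith
  have hlW3 : Real.log W ≤ 2 * L := hlW2.trans (by nlinarith)
  have hW1 : 1 ≤ W := by
    rw [hW]
    exact Nat.mul_pos (by omega) (by omega)
  have hval : ∀ i, ∀ n ∈ Icc 1 N, C i * (n : ℤ) + H i ≤ W := by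
    intro i n hn
    rw [hW]
    exact val_le (hC i).2 (hH i) hn
  have hup := upF C H N W hW1 hval
  have hlo := lowF C H (fun i => (hC i).1) N hP ((N : ℝ) ^ (1 - δ)) ((1 - δ) * L)
    (Real.one_le_rpow (by linarith) (by linarith)) (mul_nonneg (by linarith) hL0.le)
    (by rw [Real.log_rpow hN0])
  have hdf := diffF C H (fun i => (hC i).1) N W hlW1 hval
  set T := ∑ n ∈ Icc 1 N, ∏ i, lamI (C i * (n : ℤ) + H i) with hTd
  set T' := ∑ n ∈ Icc 1 N, ∏ i, lamP (C i * (n : ℤ) + H i) with hTd'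
  set P : ℝ := (cntF C H N : ℝ) with hP'
  have hP0 : 0 ≤ P := Nat.cast_nonneg _
  set M : ℝ := S * N with hM
  have hMc : c * N ≤ M := mul_le_mul_of_nonneg_right hS hN0.le
  have hM0 : 0 < M := lt_of_lt_of_le (by positivity) hMc
  have hdf2 : |T - T'| ≤ δ / 2 * M := by
    refine hdf.trans ?_
    have e1 : √(W : ℝ) = √A * √(N : ℝ) := by rw [hWr, Real.sqrt_mul (by linarith)]
    have e2 : √(N : ℝ) * √(N : ℝ) = N := Real.mul_self_sqrt hN0.le
    have h5 : Real.log W ^ (k' + 1) ≤ (2 * L) ^ (k' + 1) := pow_le_pow_left₀ (by linarith) hlW3 _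
    calc Real.log W ^ (k' + 1) * (((k' + 1 : ℕ) : ℝ) * (2 * √(W : ℝ) * Real.log W))
        ≤ (2 * L) ^ (k' + 1) * (((k' + 1 : ℕ) : ℝ) * (2 * √(W : ℝ) * (2 * L))) := by
          gcongr
      _ = (K * L ^ (k' + 2)) * √(N : ℝ) := by
          rw [e1, hK, mul_pow]
          ring
      _ ≤ ((δ / 2 * c) * √(N : ℝ)) * √(N : ℝ) :=
          mul_le_mul_of_nonneg_right b1' (Real.sqrt_nonneg _)
      _ = δ / 2 * (c * N) := by
          rw [mul_assoc, e2]
          ring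
      _ ≤ δ / 2 * M := mul_le_mul_of_nonneg_left hMc (by positivity)
  obtain ⟨t1, t2⟩ := abs_le.1 hT
  obtain ⟨t3, t4⟩ := abs_le.1 hdf2
  -- upper
  have u1 : T' ≤ (1 + δ) ^ (k' + 1) * (L ^ (k' + 1) * P) := by
    refine hup.trans ?_
    rw [← mul_assoc, ← mul_pow]
    exact mul_le_mul_of_nonneg_right (pow_le_pow_left₀ (by linarith) hlW2 _) hP0
  -- lower
  have u2 : (1 - δ) ^ (k' + 1) * (L ^ (k' + 1) * P) ≤ T' + δ * M := by
    rw [← mul_assoc, ← mul_pow]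
    refine hlo.trans ?_
    apply add_le_add le_rfl
    have h5 : ((1 - δ) * L) ^ (k' + 1) ≤ L ^ (k' + 1) := by
      apply pow_le_pow_left₀ (mul_nonneg (by linarith) hL0.le)
      nlinarith
    have e : (N : ℝ) ^ (1 - δ) * (N : ℝ) ^ δ = N := by
      rw [← Real.rpow_add hN0]; norm_num
    calc ((1 - δ) * L) ^ (k' + 1) * (((k' + 1 : ℕ) : ℝ) * (N : ℝ) ^ (1 - δ)) ≤
          L ^ (k' + 1) * (((k' + 1 : ℕ) : ℝ) * (N : ℝ) ^ (1 - δ)) :=
          mul_le_mul_of_nonneg_right h5 (by positivity)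
      _ = (((k' + 1 : ℕ) : ℝ) * L ^ (k' + 1)) * (N : ℝ) ^ (1 - δ) := by ring
      _ ≤ ((δ * c) * (N : ℝ) ^ δ) * (N : ℝ) ^ (1 - δ) :=
          mul_le_mul_of_nonneg_right b1 (by positivity)
      _ = δ * (c * ((N : ℝ) ^ (1 - δ) * (N : ℝ) ^ δ)) := by ring
      _ = δ * (c * N) := by rw [e]
      _ ≤ δ * M := mul_le_mul_of_nonneg_left hMc hδ0.le
  set X : ℝ := L ^ (k' + 1) * P with hX
  have g1 : (1 - ε) * M ≤ X := by
    have p1 : 0 < (1 + δ) ^ (k' + 1) := by positivity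
    have h6 : (1 - ε) * (1 + δ) ^ (k' + 1) * M ≤ (1 - δ) * M := mul_le_mul_of_nonneg_right hδa hM0.le
    have h7 : (1 + δ) ^ (k' + 1) * ((1 - ε) * M) ≤ (1 + δ) ^ (k' + 1) * X := by
      have : (1 + δ) ^ (k' + 1) * ((1 - ε) * M) = (1 - ε) * (1 + δ) ^ (k' + 1) * M := by ring
      linarith
    exact le_of_mul_le_mul_left h7 p1
  have g2 : X ≤ (1 + ε) * M := by
    have p1 : 0 < (1 - δ) ^ (k' + 1) := by
      have : 0 < 1 - δ := by linarith
      positivity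
    have h6 : (1 + 2 * δ) * M ≤ (1 + ε) * (1 - δ) ^ (k' + 1) * M := mul_le_mul_of_nonneg_right hδb hM0.le
    have h7 : (1 - δ) ^ (k' + 1) * X ≤ (1 - δ) ^ (k' + 1) * ((1 + ε) * M) := by
      have : (1 - δ) ^ (k' + 1) * ((1 + ε) * M) = (1 + ε) * (1 - δ) ^ (k' + 1) * M := by ring
      linarith
    exact le_of_mul_le_mul_left h7 p1
  have hLk : 0 < L ^ (k' + 1) := by positivity
  have e1 : S * (N / L ^ (k' + 1)) = M / L ^ (k' + 1) := by rw [hM]; ring
  have e2 : P = X / L ^ (k' + 1) := by rw [hX]; field_simp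
  rw [e1, e2, ← sub_div, abs_div, abs_of_pos hLk, ← mul_div_assoc]
  apply div_le_div_of_nonneg_right _ hLk.le
  rw [abs_le]
  constructor <;> linarith

end Pool.Agent.Y820.LF
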