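import Pool.Agent.Y820.LF.DG
import Pool.Agent.Y820.LF.L
import Pool.Agent.Y820.LF.M0
import Pool.Agent.Y820.LF.Tr
import Pool.Agent.Y820.LT.R
import Pool.Agent.Y820.LT.P

set_option autoImplicit false

/-! The unconditional theorems. -/

namespace Pool.Agent.Y820.LF
open Finset

lemma nuF_C1 {s : ℕ} (q a : Fin s → ℤ) (p : ℕ) : nuF (C1 q) (H1 a) p =
    ((range p).filter (fun r : ℕ => (p : ℤ) ∣ (r : ℤ) ∨ ∃ i, (p : ℤ) ∣ q i * (r : ℤ) + a i)).card := by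
  unfold nuF
  congr 1
  apply filter_congr
  intro r _
  rw [Fin.exists_fin_succ]
  simp only [C1_zero, H1_zero, C1_succ, H1_succ, one_mul, add_zero]

lemma cntF_C1 {s : ℕ} (q a : Fin s → ℤ) (N : ℕ) : cntF (C1 q) (H1 a) N =
    ((Icc 1 N).filter (fun n : ℕ => n.Prime ∧ ∀ i, (q i * (n : ℤ) + a i).toNat.Prime)).card := by
  unfold cntF
  congr 1
  apply filter_congr
  intro n _
  rw [Fin.forall_fin_succ]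
  simp only [C1_zero, H1_zero, C1_succ, H1_succ, one_mul, add_zero, Int.toNat_natCast]

/-- constant signs, systems with the form `n` -/
theorem con1u (b : ℕ) (hb : 2 ≤ b) (s : ℕ) (hs : 1 ≤ s)
    (Q0 B m : ℕ) (hQ0 : 1 ≤ Q0) (hm : 1 ≤ m) (ε ρ θ : ℝ) (hε : 0 < ε) (hρ : 0 < ρ) (hθ : 0 < θ) (hθ1 : θ ≤ 1) :
    ∃ D X₀ : ℕ, ∀ X : ℕ, X₀ ≤ X → ∀ σ : Fin s → ℤ, (∀ i, σ i = 1 ∨ σ i = -1) →
    ∀ (κ : Type) (T : Finset κ) (q h : κ → Fin s → ℤ), (∀ g ∈ T, ∀ i, q g i ≠ 0 ∧ |q g i| ≤ Q0) →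
    (∀ g ∈ T, ∀ i, |h g i| ≤ (B : ℤ) * X) →
    ∃ S : Fin s → Finset ℕ, (∀ i, (S i).card ≤ D) ∧ (∀ i, ∑ ν ∈ S i, (b : ℝ) ^ ν ≤ θ * X) ∧
      ∃ E ⊆ T, (E.card : ℝ) ≤ ρ * T.card ∧ ∀ g ∈ T, g ∉ E → ∀ a : Fin s → ℤ, (∀ i, a i = h g i + σ i * ∑ ν ∈ S i, (b : ℤ) ^ ν) →
        AdmF (C1 (q g)) (H1 (h g)) → AdmF (C1 (q g)) (H1 a) ∧ ∃ G : ℝ, 0 < G ∧ Filter.Tendsto (singF (C1 (q g)) (H1 a)) Filter.atTop (nhds G) ∧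
          ∀ N : ℕ, N ≤ X → X ≤ m * N → PosF (C1 (q g)) (H1 a) N →
          |(cntF (C1 (q g)) (H1 a) N : ℝ) - G * (N / Real.log N ^ (s + 1))| ≤ ε * (G * (N / Real.log N ^ (s + 1))) :=
  con1 t_lim t_main1 t_tr t_SBF Pool.Agent.Y820.LT.t_R Pool.Agent.Y820.LT.t_P b hb s hs Q0 B m hQ0 hm ε ρ θ hε hρ hθ hθ1

/-- constant signs, systems without a fixed form -/
theorem con0u (b : ℕ) (hb : 2 ≤ b) (s : ℕ) (hs : 1 ≤ s)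
    (Q0 B m : ℕ) (hQ0 : 1 ≤ Q0) (hm : 1 ≤ m) (ε ρ θ : ℝ) (hε : 0 < ε) (hρ : 0 < ρ) (hθ : 0 < θ) (hθ1 : θ ≤ 1) :
    ∃ D X₀ : ℕ, ∀ X : ℕ, X₀ ≤ X → ∀ σ : Fin s → ℤ, (∀ i, σ i = 1 ∨ σ i = -1) →
    ∀ (κ : Type) (T : Finset κ) (q h : κ → Fin s → ℤ), (∀ g ∈ T, ∀ i, q g i ≠ 0 ∧ |q g i| ≤ Q0) →
    (∀ g ∈ T, ∀ i, |h g i| ≤ (B : ℤ) * X) →
    ∃ S : Fin s → Finset ℕ, (∀ i, (S i).card ≤ D) ∧ (∀ i, ∑ ν ∈ S i, (b : ℝ) ^ ν ≤ θ * X) ∧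
      ∃ E ⊆ T, (E.card : ℝ) ≤ ρ * T.card ∧ ∀ g ∈ T, g ∉ E → ∀ a : Fin s → ℤ, (∀ i, a i = h g i + σ i * ∑ ν ∈ S i, (b : ℤ) ^ ν) →
        AdmF (q g) (h g) → AdmF (q g) a ∧ ∃ G : ℝ, 0 < G ∧ Filter.Tendsto (singF (q g) a) Filter.atTop (nhds G) ∧
          ∀ N : ℕ, N ≤ X → X ≤ m * N → PosF (q g) a N →
          |(cntF (q g) a N : ℝ) - G * (N / Real.log N ^ s)| ≤ ε * (G * (N / Real.log N ^ s)) :=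
  con0 t_lim t_main0 t_tr t_SBF Pool.Agent.Y820.LT.t_R Pool.Agent.Y820.LT.t_P b hb s hs Q0 B m hQ0 hm ε ρ θ hε hρ hθ hθ1

/-- changes of digits, systems with the form `n` -/
theorem dig1u (b : ℕ) (hb : 2 ≤ b) (s : ℕ) (hs : 1 ≤ s)
    (Q0 B m : ℕ) (hQ0 : 1 ≤ Q0) (hm : 1 ≤ m) (ε ρ θ : ℝ) (hε : 0 < ε) (hρ : 0 < ρ) (hθ : 0 < θ) (hθ1 : θ ≤ 1) :
    ∃ D X₀ : ℕ, ∀ X : ℕ, X₀ ≤ X → ∀ (κ : Type) (T : Finset κ) (q : κ → Fin s → ℤ) (h : κ → Fin s → ℕ),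
    (∀ g ∈ T, ∀ i, q g i ≠ 0 ∧ |q g i| ≤ Q0) → (∀ g ∈ T, ∀ i, h g i ≤ B * X) →
    ∃ V : Fin s → Finset ℕ, (∀ i, (V i).card ≤ D) ∧
      ∃ E ⊆ T, (E.card : ℝ) ≤ ρ * T.card ∧ ∀ g ∈ T, g ∉ E → AdmF (C1 (q g)) (H1 (fun i => (h g i : ℤ))) →
        ∃ a : Fin s → ℕ, (∀ i, ∀ ν, ν ∉ V i → a i / b ^ ν % b = h g i / b ^ ν % b) ∧ (∀ i, |(a i : ℝ) - h g i| ≤ θ * X) ∧
        AdmF (C1 (q g)) (H1 (fun i => (a i : ℤ))) ∧ ∃ G : ℝ, 0 < G ∧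
          Filter.Tendsto (singF (C1 (q g)) (H1 (fun i => (a i : ℤ)))) Filter.atTop (nhds G) ∧
          ∀ N : ℕ, N ≤ X → X ≤ m * N → PosF (C1 (q g)) (H1 (fun i => (a i : ℤ))) N →
          |(cntF (C1 (q g)) (H1 (fun i => (a i : ℤ))) N : ℝ) - G * (N / Real.log N ^ (s + 1))| ≤ ε * (G * (N / Real.log N ^ (s + 1))) :=
  dig1 t_lim t_main1 t_tr t_SBF Pool.Agent.Y820.LT.t_R Pool.Agent.Y820.LT.t_P b hb s hs Q0 B m hQ0 hm ε ρ θ hε hρ hθ hθ1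

end Pool.Agent.Y820.LF
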