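import Pool.Agent.Y820.LF.Stm

set_option autoImplicit false

/-! From the points of a grid to all lengths, and from weighted sums to the number of the prime values. -/

namespace Pool.Agent.Y820.LF
open Finset
open Pool.Agent.H373R2.T7 (lamI lamzI lamz Vz Vz_pos Vz_inv_small lamI_nonneg lamzI_nonneg)

lemma posF_mono {k : ℕ} (C H : Fin k → ℤ) (N N' : ℕ) (h : PosF C H N) (h1 : 1 ≤ N') (h2 : N' ≤ N) : PosF C H N' := by
  intro i
  obtain ⟨a1, a2⟩ := h i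
  refine ⟨a1, ?_⟩
  have h1' : (1 : ℤ) ≤ N' := by exact_mod_cast h1
  have h2' : (N' : ℤ) ≤ N := by exact_mod_cast h2
  rcases le_total 0 (C i) with h3 | h3
  · nlinarith
  · nlinarith

/-- the sum over an interval, when the weight vanishes outside of the range of positivity -/
lemma sum_cut {k : ℕ} (C H : Fin k → ℤ) (W : ℕ → ℝ) (hW0 : ∀ n : ℕ, 1 ≤ n → (∃ i, C i * (n : ℤ) + H i < 1) → W n = 0) (N N2 : ℕ) (hN : N ≤ N2)
    (hpos : PosF C H N) : ∃ Ns : ℕ, N ≤ Ns ∧ Ns ≤ N2 ∧ PosF C H Ns ∧ ∑ n ∈ Icc 1 N2, W n = ∑ n ∈ Icc 1 Ns, W n := by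
  classical
  obtain ⟨Ns, hNs⟩ : ∃ Ns, Ns = Nat.findGreatest (fun n => PosF C H n) N2 := ⟨_, rfl⟩
  have h1 : N ≤ Ns := by rw [hNs]; exact Nat.le_findGreatest hN hpos
  have h2 : Ns ≤ N2 := by rw [hNs]; exact Nat.findGreatest_le _
  have h3 : PosF C H Ns := by rw [hNs]; exact Nat.findGreatest_spec (P := fun n => PosF C H n) hN hpos
  refine ⟨Ns, h1, h2, h3, ?_⟩
  symm
  apply sum_subset (Icc_subset_Icc le_rfl h2)
  intro n hn hn'
  rw [mem_Icc] at hn hn'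
  have h4 : ¬ PosF C H n := by
    apply Nat.findGreatest_is_greatest (P := fun n => PosF C H n) (n := N2)
    · rw [← hNs]; omega
    · exact hn.2
  apply hW0 n hn.1
  unfold PosF at h4
  push Not at h4
  obtain ⟨i, hi⟩ := h4
  exact ⟨i, hi (h3 i).1⟩

lemma grid_step (X M' N : ℕ) (hM : 1 ≤ M') (hN : 1 ≤ N) (hNX : N ≤ X) : ∃ g : ℕ, g + 1 ≤ M' ∧ g * X / M' ≤ N ∧ N ≤ (g + 1) * X / M' ∧
    ((g + 1) * X / M' : ℕ) ≤ (g * X / M' : ℕ) + X / M' + 1 := by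
  classical
  have hex : ∃ g, N ≤ g * X / M' := ⟨M', by rw [Nat.mul_div_cancel_left _ hM]; exact hNX⟩
  obtain ⟨g1, hg1⟩ : ∃ g1, g1 = Nat.find hex := ⟨_, rfl⟩
  have h1 : N ≤ g1 * X / M' := by rw [hg1]; exact Nat.find_spec hex
  have h2 : g1 ≤ M' := by
    rw [hg1]
    exact Nat.find_min' hex (by rw [Nat.mul_div_cancel_left _ hM]; exact hNX)
  have h3 : 1 ≤ g1 := by
    by_contra h0
    have : g1 = 0 := by omega
    rw [this, zero_mul, Nat.zero_div] at h1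
    omega
  obtain ⟨g, rfl⟩ : ∃ g, g1 = g + 1 := ⟨g1 - 1, by omega⟩
  refine ⟨g, h2, ?_, h1, ?_⟩
  · have := Nat.find_min hex (m := g) (by omega)
    omega
  · have h4 : (g + 1) * X = g * X + X := by ring
    rw [h4, Nat.add_div hM]
    split_ifs <;> omega

/-- from the grid to all lengths -/
lemma interp {k : ℕ} (C H : Fin k → ℤ) (W T : ℕ → ℝ) (hT : ∀ n, 0 ≤ T n)
    (hW0 : ∀ n : ℕ, 1 ≤ n → (∃ i, C i * (n : ℤ) + H i < 1) → W n = 0) (σ η1 η2 : ℝ) (hσ : 0 ≤ σ) (X M' m : ℕ) (hM : 1 ≤ M') (hm : 1 ≤ m)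
    (hMm : 4 * m ≤ M') (hX : 4 * m ≤ X)
    (hmain : ∀ N' : ℕ, N' ≤ X → X ≤ 2 * m * N' → PosF C H N' → |∑ n ∈ Icc 1 N', W n - σ * N'| ≤ η1)
    (hgrid : ∀ g : ℕ, g ≤ M' → |∑ n ∈ Icc 1 (g * X / M'), T n - ∑ n ∈ Icc 1 (g * X / M'), W n| ≤ η2)
    (N : ℕ) (hNX : N ≤ X) (hXN : X ≤ m * N) (hpos : PosF C H N) :
    |∑ n ∈ Icc 1 N, T n - σ * N| ≤ σ * (X / M' + 1) + η1 + η2 := by
  have hN1 : 1 ≤ N := by
    by_contra h0
    have : N = 0 := by omega
    rw [this, mul_zero] at hXN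
    omega
  obtain ⟨g, hg, g1, g2, g3⟩ := grid_step X M' N hM hN1 hNX
  obtain ⟨N1, hN1d⟩ : ∃ N1, N1 = g * X / M' := ⟨_, rfl⟩
  obtain ⟨N2, hN2d⟩ : ∃ N2, N2 = (g + 1) * X / M' := ⟨_, rfl⟩
  rw [← hN1d] at g1 g3
  rw [← hN2d] at g2 g3
  have hN2X : N2 ≤ X := by
    rw [hN2d]
    calc (g + 1) * X / M' ≤ M' * X / M' := Nat.div_le_div_right (Nat.mul_le_mul_right _ hg)
      _ = X := Nat.mul_div_cancel_left _ hM
  have hXM : (((X / M' : ℕ)) : ℝ) ≤ (X : ℝ) / M' := Nat.cast_div_le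
  have hM0 : (0 : ℝ) < M' := by exact_mod_cast hM
  -- the lower point
  have hXMn : 4 * m * (X / M') ≤ X := by
    calc 4 * m * (X / M') ≤ M' * (X / M') := Nat.mul_le_mul_right _ hMm
      _ ≤ X := Nat.mul_div_le X M'
  have hXN1 : X ≤ 2 * m * N1 := by
    have e1 : N ≤ N1 + X / M' + 1 := by omega
    have e2 : m * N ≤ m * N1 + m * (X / M') + m := by
      calc m * N ≤ m * (N1 + X / M' + 1) := Nat.mul_le_mul_left _ e1
        _ = _ := by ring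
    have e3 : 4 * (m * (X / M')) ≤ X := by
      have : 4 * m * (X / M') = 4 * (m * (X / M')) := by ring
      omega
    have e4 : 2 * m * N1 = 2 * (m * N1) := by ring
    omega
  have hN11 : 1 ≤ N1 := by
    by_contra h0
    have : N1 = 0 := by omega
    rw [this, mul_zero] at hXN1
    omega
  have mono : ∀ a b : ℕ, a ≤ b → ∑ n ∈ Icc 1 a, T n ≤ ∑ n ∈ Icc 1 b, T n := fun a b hab =>
    sum_le_sum_of_subset_of_nonneg (Icc_subset_Icc le_rfl hab) fun n _ _ => hT n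
  have hgl := hgrid g (by omega)
  have hgu := hgrid (g + 1) hg
  rw [← hN1d] at hgl
  rw [← hN2d] at hgu
  have hml := hmain N1 (by omega) hXN1 (posF_mono C H N N1 hpos hN11 g1)
  obtain ⟨Ns, s1, s2, s3, s4⟩ := sum_cut C H W hW0 N N2 g2 hpos
  have hXNs : X ≤ 2 * m * Ns := by
    calc X ≤ m * N := hXN
      _ ≤ m * Ns := Nat.mul_le_mul_left _ s1
      _ ≤ 2 * m * Ns := by nlinarith [Nat.zero_le (m * Ns)]
  have hmu := hmain Ns (by omega) hXNs s3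
  rw [s4] at hgu
  have t1 := mono N1 N g1
  have t2 := mono N N2 g2
  obtain ⟨a1, a2⟩ := abs_le.1 hgl
  obtain ⟨b1, b2⟩ := abs_le.1 hgu
  obtain ⟨c1, c2⟩ := abs_le.1 hml
  obtain ⟨d1, d2⟩ := abs_le.1 hmu
  have r1 : (Ns : ℝ) ≤ N + (X / M' + 1) := by
    have : Ns ≤ N + X / M' + 1 := by omega
    have h5 : (Ns : ℝ) ≤ N + ((X / M' : ℕ) : ℝ) + 1 := by exact_mod_cast this
    linarith
  have r2 : (N : ℝ) - (X / M' + 1) ≤ N1 := by
    have : N ≤ N1 + X / M' + 1 := by omega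
    have h5 : (N : ℝ) ≤ N1 + ((X / M' : ℕ) : ℝ) + 1 := by exact_mod_cast this
    linarith
  have r3 := mul_le_mul_of_nonneg_left r1 hσ
  have r4 := mul_le_mul_of_nonneg_left r2 hσ
  rw [abs_le]
  constructor
  · linarith
  · linarith

/-- the final step -/
theorem finish (hL : S_lim) (hTr : S_tr) (k Q0 B m : ℕ) (hk : 1 ≤ k) (hm : 1 ≤ m) (ε : ℝ) (hε : 0 < ε) :
    ∃ η : ℝ, 0 < η ∧ ∃ M' n0 : ℕ, 1 ≤ M' ∧ ∀ X : ℕ, n0 ≤ X → ∀ C H : Fin k → ℤ, (∀ i, C i ≠ 0 ∧ |C i| ≤ Q0) → (∀ i, |H i| ≤ (B : ℤ) * X) →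
    (∀ i j, i ≠ j → C i * H j ≠ C j * H i) → AdmF C H → ∀ z : ℕ, Real.log X ^ 2 ≤ z → ∀ W : ℕ → ℝ,
    (∀ n : ℕ, 1 ≤ n → (∃ i, C i * (n : ℤ) + H i < 1) → W n = 0) →
    (∀ N' : ℕ, N' ≤ X → X ≤ 2 * m * N' → PosF C H N' → |∑ n ∈ Icc 1 N', W n - singF C H z * N'| ≤ η * X) →
    (∀ g : ℕ, g ≤ M' → |∑ n ∈ Icc 1 (g * X / M'), ∏ i, lamI (C i * (n : ℤ) + H i) - ∑ n ∈ Icc 1 (g * X / M'), W n| ≤ η * X) →
    ∃ G : ℝ, 0 < G ∧ Filter.Tendsto (singF C H) Filter.atTop (nhds G) ∧ ∀ N : ℕ, N ≤ X → X ≤ m * N → PosF C H N →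
      |(cntF C H N : ℝ) - G * (N / Real.log N ^ k)| ≤ ε * (G * (N / Real.log N ^ k)) := by
  obtain ⟨c, hc, hlim⟩ := hL k Q0 hk
  obtain ⟨d0, hd0, n1, htr⟩ := hTr k Q0 (B * m) hk c ε hc hε
  obtain ⟨δ, hδ⟩ : ∃ δ : ℝ, δ = min 1 (d0 / 3) := ⟨_, rfl⟩
  have hδ0 : 0 < δ := by rw [hδ]; exact lt_min one_pos (by positivity)
  have hδ1 : δ ≤ 1 := by rw [hδ]; exact min_le_left _ _
  have hδd : δ ≤ d0 / 3 := by rw [hδ]; exact min_le_right _ _
  obtain ⟨n2, hlim2⟩ := hlim B δ hδ0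
  have hm0 : (0 : ℝ) < m := by exact_mod_cast hm
  obtain ⟨η, hη⟩ : ∃ η : ℝ, η = c * d0 / (6 * m) := ⟨_, rfl⟩
  have hη0 : 0 < η := by rw [hη]; positivity
  obtain ⟨M1, hM1⟩ := exists_nat_ge (12 * m / d0 : ℝ)
  obtain ⟨M', hM'⟩ : ∃ M', M' = M1 + 4 * m + 1 := ⟨_, rfl⟩
  refine ⟨η, hη0, M', m * (n1 + 1) + n2 + M' + 4 * m, by omega, fun X hX C H hC hH hnd hadm z hz W hW0 hmain hgrid => ?_⟩
  obtain ⟨S, hcS, hS, hSz⟩ := hlim2 X (by omega) C H hC hH hnd hadm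
  have hS0 : 0 < S := lt_of_lt_of_le hc hcS
  refine ⟨S, hS0, hS, fun N hNX hXN hpos => ?_⟩
  have hNn1 : n1 + 1 ≤ N := by
    by_contra hcon
    push Not at hcon
    have : m * N < m * (n1 + 1) := Nat.mul_lt_mul_of_pos_left hcon hm
    omega
  have hN0 : (0 : ℝ) < N := by exact_mod_cast (by omega : 0 < N)
  have hM0 : (0 : ℝ) < M' := by exact_mod_cast (by omega : 0 < M')
  apply htr N (by omega) C H hC _ hpos S hcS
  · have h1 := hSz z hz
    have hσ0 : 0 ≤ singF C H z := by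
      obtain ⟨e1, _⟩ := abs_le.1 h1
      nlinarith
    have hσ2 : singF C H z ≤ 2 * S := by
      obtain ⟨_, e1⟩ := abs_le.1 h1
      nlinarith
    have h2 := interp C H W (fun n => ∏ i, lamI (C i * (n : ℤ) + H i)) (fun n => prod_nonneg fun i _ => lamI_nonneg _) hW0 (singF C H z)
      (η * X) (η * X) hσ0 X M' m (by omega) hm (by omega) (by omega) hmain hgrid N hNX hXN hpos
    have hXm : (X : ℝ) ≤ m * N := by exact_mod_cast hXN
    have h3 : (X : ℝ) / M' + 1 ≤ 2 * m * N / M' := by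
      have e1 : (M' : ℝ) ≤ X := by exact_mod_cast (by omega : M' ≤ X)
      have e2 : (1 : ℝ) ≤ X / M' := by rw [le_div_iff₀ hM0]; linarith
      have e3 : (X : ℝ) / M' ≤ m * N / M' := div_le_div_of_nonneg_right hXm hM0.le
      have e4 : 2 * m * (N : ℝ) / M' = m * N / M' + m * N / M' := by ring
      linarith
    have h4 : 2 * (m : ℝ) * N / M' * (2 * S) ≤ d0 / 3 * (S * N) := by
      have e1 : 12 * (m : ℝ) ≤ d0 * M' := by
        rw [div_le_iff₀ hd0] at hM1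
        have : (M1 : ℝ) ≤ M' := by exact_mod_cast (by omega : M1 ≤ M')
        nlinarith
      rw [div_mul_eq_mul_div, div_le_iff₀ hM0]
      have e2 : 0 < S * N := by positivity
      nlinarith
    have h5 : 2 * (η * X) ≤ d0 / 3 * (S * N) := by
      have e1 : 2 * (η * (m * N)) = d0 / 3 * (c * N) := by rw [hη]; field_simp; ring
      calc 2 * (η * X) ≤ 2 * (η * (m * N)) := by
            apply mul_le_mul_of_nonneg_left _ (by norm_num)
            exact mul_le_mul_of_nonneg_left hXm hη0.le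
        _ = d0 / 3 * (c * N) := e1
        _ ≤ d0 / 3 * (S * N) := by
            apply mul_le_mul_of_nonneg_left _ (by positivity)
            exact mul_le_mul_of_nonneg_right hcS hN0.le
    have h6 : |singF C H z * N - S * N| ≤ d0 / 3 * (S * N) := by
      rw [← sub_mul, abs_mul, abs_of_pos hN0]
      calc |singF C H z - S| * N ≤ (δ * S) * N := mul_le_mul_of_nonneg_right h1 hN0.le
        _ ≤ (d0 / 3 * S) * N := by
            apply mul_le_mul_of_nonneg_right _ hN0.le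
            exact mul_le_mul_of_nonneg_right hδd hS0.le
        _ = _ := by ring
    have h7 : singF C H z * (X / M' + 1) ≤ d0 / 3 * (S * N) := by
      refine le_trans ?_ h4
      rw [mul_comm]
      exact mul_le_mul h3 hσ2 hσ0 (by positivity)
    have h8 := abs_add_le (∑ n ∈ Icc 1 N, ∏ i, lamI (C i * (n : ℤ) + H i) - singF C H z * N) (singF C H z * N - S * N)
    have h9 : ∑ n ∈ Icc 1 N, ∏ i, lamI (C i * (n : ℤ) + H i) - singF C H z * N + (singF C H z * N - S * N) =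
      ∑ n ∈ Icc 1 N, ∏ i, lamI (C i * (n : ℤ) + H i) - S * N := by ring
    rw [h9] at h8
    refine h8.trans ?_
    have h10 : d0 * (S * N) = d0 / 3 * (S * N) + d0 / 3 * (S * N) + d0 / 3 * (S * N) := by ring
    linarith
  · intro i
    refine (hH i).trans ?_
    have : (X : ℤ) ≤ m * N := by exact_mod_cast hXN
    push_cast
    calc (B : ℤ) * X ≤ B * (m * N) := mul_le_mul_of_nonneg_left this (by positivity)
      _ = _ := by ring

end Pool.Agent.Y820.LF
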