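import Pool.Agent.Y820.LF.GF
import Pool.Agent.Y820.LF.IF
import Pool.Agent.Y820.LT.F2

set_option autoImplicit false

/-! The general theorem for systems of linear forms. -/

namespace Pool.Agent.Y820.LF
open Finset
open Pool.Agent.H373R2.T7 (lamI lamzI lamz Vz Vz_pos Vz_inv_small lamI_nonneg lamzI_nonneg)
open Pool.Agent.Y820.LT (S_R S_P par_z)

/-- the length of the digits -/
lemma par_K (b : ℕ) (hb : 2 ≤ b) (A k₀ : ℕ) (hA : 1 ≤ A) (X : ℕ) (hX : b ^ k₀ < X) : ∃ K : ℕ, k₀ ≤ K ∧ 1 ≤ K ∧ A * X ≤ b ^ K ∧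
    b ^ (K - 1) < A * X ∧ b ^ K ≤ b * A * X := by
  have hb1 : 1 < b := by omega
  obtain ⟨c, hc⟩ : ∃ c, c = Nat.clog b (A * X) := ⟨_, rfl⟩
  have hXle : X ≤ A * X := Nat.le_mul_of_pos_left _ (by omega)
  have hk1 : 1 ≤ b ^ k₀ := Nat.one_le_pow _ _ (by omega)
  have hc1 : A * X ≤ b ^ c := by rw [hc]; exact Nat.le_pow_clog hb1 _
  have hc0 : 1 ≤ c := by
    by_contra h0
    have : c = 0 := by omega
    rw [this, pow_zero] at hc1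
    omega
  have hc2 : b ^ (c - 1) < A * X := by
    rw [hc]
    exact Nat.pow_pred_clog_lt_self hb1 (by omega)
  have hbc : b ^ c = b * b ^ (c - 1) := by rw [← pow_succ']; congr 1; omega
  have hck : k₀ ≤ c := by
    by_contra hcon
    push Not at hcon
    have : b ^ c ≤ b ^ k₀ := Nat.pow_le_pow_right (by omega) hcon.le
    omega
  refine ⟨c, hck, hc0, hc1, hc2, ?_⟩
  rw [hbc, mul_assoc]
  exact Nat.mul_le_mul_left _ hc2.le

/-- the choice of the positions -/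
theorem stageA (hSB : S_SBF) (hR : S_R) (hP : S_P) (b : ℕ) (hb : 2 ≤ b) (s : ℕ) (hs : 1 ≤ s) (Q0 B n M' P₀ m : ℕ) (hQ0 : 1 ≤ Q0) (hP₀ : 1 ≤ P₀)
    (hm : 1 ≤ m) (η ρ θ : ℝ) (hη : 0 < η) (hρ : 0 < ρ) (hθ : 0 < θ) (hθ1 : θ ≤ 1) :
    ∃ E1 D X₀ : ℕ, 2 ≤ E1 ∧ ∀ X : ℕ, X₀ ≤ X → ∃ z : ℕ, 2 ≤ z ∧ Real.log X ^ E1 ≤ z ∧
      (∀ N : ℕ, N ≤ X → X ≤ m * N → (z : ℝ) ≤ Real.log N ^ (E1 + 1)) ∧ ∀ τ0 : Bool,
    ∀ (κ : Type) (T : Finset κ) (F : κ → Cfg s), (∀ g ∈ T, (F g).H.card ≤ n) → (∀ g ∈ T, ∀ i, (F g).q i ≠ 0 ∧ |(F g).q i| ≤ Q0) →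
    (∀ g ∈ T, ∀ i j, (F g).e i j ≠ 0 ∧ |(F g).e i j| < b) →
    (∀ g ∈ T, ∀ h ∈ (F g).H, ∀ i, |h i| ≤ (B : ℤ) * X) →
    ∃ S : Fin s → Finset ℕ, (∀ i, ∀ ν ∈ S i, P₀ ≤ ν) ∧ (∀ i, b * ∑ ν ∈ S i, (b : ℝ) ^ ν ≤ θ * X) ∧ (∀ i, (S i).card ≤ D) ∧
      ∃ E ⊆ T, (E.card : ℝ) ≤ ρ * T.card ∧ ∀ g ∈ T, g ∉ E → ∀ h ∈ (F g).H, ∀ a : Fin s → ℤ, (∀ i, a i = h i + ∑ ν ∈ S i, (F g).e i ν * (b : ℤ) ^ ν) →
        (∀ i, |((a i - h i : ℤ) : ℝ)| ≤ θ * X) ∧ (∀ i j, i ≠ j → (F g).q i * a j ≠ (F g).q j * a i) ∧ (∀ i, a i ≠ 0) ∧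
        ∀ g' : ℕ, g' ≤ M' →
          |∑ n ∈ Icc 1 (g' * X / M'), g0 τ0 n * (∏ i, lamI ((F g).q i * (n : ℤ) + a i) - ∏ i, lamzI z ((F g).q i * (n : ℤ) + a i))| ≤ η * X := by
  classical
  obtain ⟨BP, hgood⟩ := good_choice hSB hR hP b hb s hs
  obtain ⟨E1, hE1⟩ : ∃ E1, E1 = BP + 2 := ⟨_, rfl⟩
  obtain ⟨A, hA⟩ : ∃ A, A = Q0 + B + 2 := ⟨_, rfl⟩
  have hb0 : (0 : ℝ) < b := by exact_mod_cast (by omega : 0 < b)
  have hb1 : (1 : ℝ) ≤ b := by exact_mod_cast (by omega : 1 ≤ b)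
  have hA0 : (0 : ℝ) < A := by exact_mod_cast (by omega : 0 < A)
  have hs0 : (0 : ℝ) < s := by exact_mod_cast hs
  obtain ⟨P₁, hP₁⟩ : ∃ P₁ : ℕ, b * A / θ ≤ (b : ℝ) ^ P₁ := by
    obtain ⟨P₁, hP₁⟩ := pow_unbounded_of_one_lt (b * A / θ : ℝ) (by exact_mod_cast (by omega : 1 < b) : (1 : ℝ) < b)
    exact ⟨P₁, hP₁.le⟩
  obtain ⟨δ, hδ⟩ : ∃ δ : ℝ, δ = η / (s * (b * A)) := ⟨_, rfl⟩
  have hδ0 : 0 < δ := by rw [hδ]; positivity
  obtain ⟨D, k₀, hch⟩ := hgood (E1 + 1) Q0 n (M' + 1) P₀ P₁ δ ρ hQ0 hP₀ hδ0 hρ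
  obtain ⟨x1, hx1⟩ := par_z E1 BP (by omega) m hm (b * A)
  refine ⟨E1, D, x1 + b ^ (k₀ + P₁ + 2) + 1, by omega, fun X hX => ?_⟩
  obtain ⟨K, hKk, hK1, hAX, hK2, hK3⟩ := par_K b hb A (k₀ + P₁ + 2) (by omega) X (by omega)
  have hXY : X ≤ b ^ K := (Nat.le_mul_of_pos_left _ (by omega)).trans hAX
  obtain ⟨z, hz2, hz3, hz4, hz5⟩ := hx1 X (by omega) (b ^ K) hXY hK3
  refine ⟨z, hz2, (hz5 X le_rfl (Nat.le_mul_of_pos_left _ (by omega))).1, fun N h1 h2 => (hz5 N h1 h2).2, fun τ0 κ T F hH hq he hHb => ?_⟩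
  obtain ⟨S, hSs, hSc, E, hET, hEc, hmain⟩ := hch K (by omega) z hz2 hz3 hz4 τ0 κ T F hH hq he (fun g hg h hh' i => by
    refine (hHb g hg h hh' i).trans ?_
    have : B * X ≤ b ^ K := by
      calc B * X ≤ A * X := Nat.mul_le_mul_right _ (by omega)
        _ ≤ b ^ K := hAX
    exact_mod_cast this) ((range (M' + 1)).image (fun g => g * X / M')) (by
      refine card_image_le.trans ?_
      rw [card_range]) (fun N hN => by
      rw [mem_image] at hN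
      obtain ⟨g, hg, rfl⟩ := hN
      rw [mem_range] at hg
      refine le_trans ?_ hXY
      rcases Nat.eq_zero_or_pos M' with h0 | h0
      · rw [h0, Nat.div_zero]; omega
      · calc g * X / M' ≤ M' * X / M' := Nat.div_le_div_right (Nat.mul_le_mul_right _ (by omega))
          _ = X := Nat.mul_div_cancel_left _ h0)
  have hX0 : (0 : ℝ) < X := by exact_mod_cast (by omega : 0 < X)
  -- the size of the changes
  have hsz : ∀ i, b * ∑ ν ∈ S i, (b : ℝ) ^ ν ≤ θ * X := by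
    intro i
    have h1 : ∑ ν ∈ S i, b ^ ν < b ^ (K - 1 - P₁) := Nat.geomSum_lt hb (fun ν hν => (mem_Ico.1 (hSs i hν)).2)
    have h2 : (∑ ν ∈ S i, (b : ℝ) ^ ν) ≤ (b : ℝ) ^ (K - 1 - P₁) := by exact_mod_cast h1.le
    have h3 : (b : ℝ) ^ (K - 1 - P₁) * (b : ℝ) ^ P₁ ≤ A * X := by
      rw [← pow_add]
      have : K - 1 - P₁ + P₁ = K - 1 := by omega
      rw [this]
      exact_mod_cast hK2.le
    have h4 : (b : ℝ) ^ (K - 1 - P₁) * (b * A / θ) ≤ A * X :=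
      (mul_le_mul_of_nonneg_left hP₁ (by positivity)).trans h3
    have h5 : (b : ℝ) ^ (K - 1 - P₁) * b * A ≤ θ * X * A := by
      rw [mul_div_assoc', div_le_iff₀ hθ] at h4
      linarith
    have h6 : (b : ℝ) ^ (K - 1 - P₁) * b ≤ θ * X := le_of_mul_le_mul_right h5 hA0
    calc b * ∑ ν ∈ S i, (b : ℝ) ^ ν ≤ b * (b : ℝ) ^ (K - 1 - P₁) := mul_le_mul_of_nonneg_left h2 hb0.le
      _ ≤ θ * X := by linarith
  refine ⟨S, fun i ν hν => (mem_Ico.1 (hSs i hν)).1, hsz, hSc, E, hET, hEc, fun g hg hgE h hh' a ha => ?_⟩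
  obtain ⟨hnd, hne, hgrid⟩ := hmain g hg hgE h hh' a ha
  have hdiff : ∀ i, |((a i - h i : ℤ) : ℝ)| ≤ θ * X := by
    intro i
    have h1 : a i - h i = ∑ ν ∈ S i, (F g).e i ν * (b : ℤ) ^ ν := by rw [ha i]; ring
    rw [h1]
    push_cast
    refine (abs_sum_le_sum_abs _ _).trans ?_
    refine le_trans ?_ (hsz i)
    rw [mul_sum]
    apply sum_le_sum
    intro ν _
    rw [abs_mul, abs_of_nonneg (show (0 : ℝ) ≤ (b : ℝ) ^ ν by positivity)]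
    apply mul_le_mul_of_nonneg_right _ (by positivity)
    have h2 := (he g hg i ν).2
    have h3 : ((|(F g).e i ν| : ℤ) : ℝ) ≤ ((b : ℤ) : ℝ) := by exact_mod_cast h2.le
    push_cast at h3
    exact h3
  refine ⟨hdiff, hnd, hne, fun g' hg' => ?_⟩
  have hNX : g' * X / M' ≤ X := by
    rcases Nat.eq_zero_or_pos M' with h0 | h0
    · rw [h0, Nat.div_zero]; omega
    · calc g' * X / M' ≤ M' * X / M' := Nat.div_le_div_right (Nat.mul_le_mul_right _ hg')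
        _ = X := Nat.mul_div_cancel_left _ h0
  have h1 := hgrid (g' * X / M') (mem_image.2 ⟨g', mem_range.2 (by omega), rfl⟩) (fun n hn i => by
    rw [mem_Icc] at hn
    have e1 := (hq g hg i).2
    have e2 := hHb g hg h hh' i
    have e3 : |a i - h i| ≤ (X : ℤ) := by
      have := (hdiff i).trans (mul_le_mul_of_nonneg_right hθ1 hX0.le)
      rw [one_mul] at this
      exact_mod_cast this
    have e4 : (n : ℤ) ≤ X := by exact_mod_cast hn.2.trans hNX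
    have e5 : (F g).q i * (n : ℤ) ≤ Q0 * X := by
      calc (F g).q i * (n : ℤ) ≤ |(F g).q i| * (n : ℤ) := mul_le_mul_of_nonneg_right (le_abs_self _) (by positivity)
        _ ≤ Q0 * X := mul_le_mul e1 e4 (by positivity) (by positivity)
    have e6 := abs_le.1 e3
    have e7 := abs_le.1 e2
    have e8 : ((A * X : ℕ) : ℤ) ≤ ((b ^ K : ℕ) : ℤ) := by exact_mod_cast hAX
    have e9 : ((A * X : ℕ) : ℤ) = Q0 * X + B * X + 2 * X := by rw [hA]; push_cast; ring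
    have e10 : (0 : ℤ) ≤ X := by positivity
    linarith [e6.2, e7.2])
  refine h1.trans ?_
  have h2 : ((b ^ K : ℕ) : ℝ) ≤ b * A * X := by exact_mod_cast hK3
  calc (s : ℝ) * δ * ((b ^ K : ℕ) : ℝ) ≤ s * δ * (b * A * X) := mul_le_mul_of_nonneg_left h2 (by positivity)
    _ = η * X := by rw [hδ]; field_simp

/-- the theorem for systems without a fixed form -/
theorem core0 (hLim : S_lim) (hM0 : S_main0) (hTr : S_tr) (hSB : S_SBF) (hR : S_R) (hP : S_P) (b : ℕ) (hb : 2 ≤ b) (s : ℕ) (hs : 1 ≤ s)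
    (Q0 B n P₀ m : ℕ) (hQ0 : 1 ≤ Q0) (hP₀ : 1 ≤ P₀) (hm : 1 ≤ m) (ε ρ θ : ℝ) (hε : 0 < ε) (hρ : 0 < ρ) (hθ : 0 < θ) (hθ1 : θ ≤ 1) :
    ∃ D X₀ : ℕ, ∀ X : ℕ, X₀ ≤ X →
    ∀ (κ : Type) (T : Finset κ) (F : κ → Cfg s), (∀ g ∈ T, (F g).H.card ≤ n) → (∀ g ∈ T, ∀ i, (F g).q i ≠ 0 ∧ |(F g).q i| ≤ Q0) →
    (∀ g ∈ T, ∀ i j, (F g).e i j ≠ 0 ∧ |(F g).e i j| < b) →
    (∀ g ∈ T, ∀ h ∈ (F g).H, ∀ i, |h i| ≤ (B : ℤ) * X) →
    ∃ S : Fin s → Finset ℕ, (∀ i, ∀ ν ∈ S i, P₀ ≤ ν) ∧ (∀ i, b * ∑ ν ∈ S i, (b : ℝ) ^ ν ≤ θ * X) ∧ (∀ i, (S i).card ≤ D) ∧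
      ∃ E ⊆ T, (E.card : ℝ) ≤ ρ * T.card ∧ ∀ g ∈ T, g ∉ E → ∀ h ∈ (F g).H, ∀ a : Fin s → ℤ, (∀ i, a i = h i + ∑ ν ∈ S i, (F g).e i ν * (b : ℤ) ^ ν) →
        AdmF (F g).q a → ∃ G : ℝ, 0 < G ∧ Filter.Tendsto (singF (F g).q a) Filter.atTop (nhds G) ∧ ∀ N : ℕ, N ≤ X → X ≤ m * N → PosF (F g).q a N →
          |(cntF (F g).q a N : ℝ) - G * (N / Real.log N ^ s)| ≤ ε * (G * (N / Real.log N ^ s)) := by
  obtain ⟨η, hη, M', n0, hM', hfin⟩ := finish hLim hTr s Q0 (B + 1) m hs hm ε hε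
  obtain ⟨E1, D, X₀, hE1, hA⟩ := stageA hSB hR hP b hb s hs Q0 B n M' P₀ (2 * m) hQ0 hP₀ (by omega) η ρ θ hη hρ hθ hθ1
  obtain ⟨n1, hmain⟩ := hM0 s (E1 + 1) 1 hs
  obtain ⟨n2, hn2⟩ : ∃ n2 : ℕ, Real.exp (1 / η + 1) ≤ n2 := ⟨_, Nat.le_ceil _⟩
  refine ⟨D, X₀ + n0 + 2 * m * (n1 + n2 + 1), fun X hX κ T F hH hq he hHb => ?_⟩
  obtain ⟨z, hz2, hz3, hz4, hAX⟩ := hA X (by omega)
  obtain ⟨S, hS1, hS2, hS3, E, hET, hEc, hE⟩ := hAX false κ T F hH hq he hHb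
  refine ⟨S, hS1, hS2, hS3, E, hET, hEc, fun g hg hgE h hh' a ha hadm => ?_⟩
  obtain ⟨hd, hnd, hne, hgrid⟩ := hE g hg hgE h hh' a ha
  have hX0 : (0 : ℝ) < X := by
    have : 0 < 2 * m * (n1 + n2 + 1) := by positivity
    exact_mod_cast (by omega : 0 < X)
  have hlX : 1 ≤ Real.log X := by
    have h1 : Real.exp (1 / η + 1) ≤ X := by
      refine hn2.trans ?_
      have : n2 ≤ 2 * m * (n1 + n2 + 1) := by nlinarith
      exact_mod_cast (by omega : n2 ≤ X)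
    have h2 : 1 / η + 1 ≤ Real.log X := by rwa [Real.le_log_iff_exp_le hX0]
    have : 0 < 1 / η := by positivity
    linarith
  have hlog2 : Real.log X ^ 2 ≤ z := (pow_le_pow_right₀ hlX hE1).trans hz3
  refine hfin X (by omega) (F g).q a (hq g hg) ?_ hnd hadm z hlog2 (fun n => ∏ i, lamzI z ((F g).q i * (n : ℤ) + a i)) ?_ ?_ ?_
  · intro i
    have h1 := hHb g hg h hh' i
    have h2 : |a i - h i| ≤ (X : ℤ) := by
      have := (hd i).trans (mul_le_mul_of_nonneg_right hθ1 hX0.le)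
      rw [one_mul] at this
      exact_mod_cast this
    have h3 := abs_add_le (a i - h i) (h i)
    rw [sub_add_cancel] at h3
    push_cast
    linarith
  · rintro n _ ⟨i, hi⟩
    apply prod_eq_zero (mem_univ i)
    unfold lamzI
    rw [if_neg (by omega)]
  · intro N' h1 h2 hpos
    have hN'n : n1 + n2 + 1 ≤ N' := by
      by_contra hcon
      push Not at hcon
      have : 2 * m * N' < 2 * m * (n1 + n2 + 1) := Nat.mul_lt_mul_of_pos_left hcon (by positivity)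
      omega
    have hN'0 : (0 : ℝ) < N' := by exact_mod_cast (by omega : 0 < N')
    have h3 := hmain N' (by omega) z (by omega) (hz4 N' h1 h2) (F g).q a hpos hadm
    refine h3.trans ?_
    rw [pow_one]
    have h4 : 1 / η + 1 ≤ Real.log N' := by
      rw [Real.le_log_iff_exp_le hN'0]
      refine hn2.trans ?_
      exact_mod_cast (by omega : n2 ≤ N')
    have h5 : 0 < 1 / η := by positivity
    rw [div_le_iff₀ (by linarith)]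
    have h6 : (N' : ℝ) ≤ X := by exact_mod_cast h1
    have h7 : 1 ≤ η * Real.log N' := by
      have : η * (1 / η) ≤ η * Real.log N' := mul_le_mul_of_nonneg_left (by linarith) hη.le
      rwa [mul_one_div_cancel hη.ne'] at this
    nlinarith
  · intro g' hg'
    have h1 := hgrid g' hg'
    rw [← sum_sub_distrib]
    refine le_trans (le_of_eq ?_) h1
    congr 1
    apply sum_congr rfl
    intro n _
    unfold g0
    simp only [Bool.false_eq_true, if_false, one_mul]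

end Pool.Agent.Y820.LF
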