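import Pool.Agent.Y820.LF.Stm
import Pool.Agent.Y820.LT.SB

set_option autoImplicit false

/-! The upper bound of the sieve for linear forms. -/

namespace Pool.Agent.Y820.LF.SBF
open Finset
open Pool.Agent.H373R2.T7
open Pool.Agent.W93.HD
open Pool.Agent.Y820.LT.SB (root cop Ew card_Ew mem_Ew Ew_pos lamI_le lamzI_le prod01 inv_one_sub_le one_le_prodR)

lemma ex_rep (c h : ℤ) (p : ℕ) (hp : p.Prime) (hc : ¬ (p : ℤ) ∣ c) : ∃ a : ℕ, a < p ∧ (p : ℤ) ∣ c * a + h := by
  have hp' : (0 : ℤ) < p := by exact_mod_cast hp.pos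
  obtain ⟨u, v, huv⟩ := (Nat.prime_iff_prime_int.1 hp).coprime_iff_not_dvd.2 hc
  have h1 := Int.emod_nonneg (-h * v) hp'.ne'
  have h2 := Int.emod_lt_of_pos (-h * v) hp'
  have h3 : ((((-h * v) % (p : ℤ)).toNat : ℕ) : ℤ) = (-h * v) % (p : ℤ) := Int.toNat_of_nonneg h1
  refine ⟨((-h * v) % (p : ℤ)).toNat, ?_, ?_⟩
  · have : ((((-h * v) % (p : ℤ)).toNat : ℕ) : ℤ) < p := by rw [h3]; exact h2
    exact_mod_cast this
  · rw [h3]
    have h4 := Int.emod_add_mul_ediv (-h * v) (p : ℤ)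
    refine ⟨h * u - c * ((-h * v) / (p : ℤ)), ?_⟩
    have h5 : (-h * v) % (p : ℤ) = -h * v - p * ((-h * v) / (p : ℤ)) := by linarith
    rw [h5]
    linear_combination (-h) * huv

lemma uniq_rep (c h : ℤ) (p : ℕ) (hp : p.Prime) (hc : ¬ (p : ℤ) ∣ c) (a a' : ℕ) (ha : a < p) (ha' : a' < p)
    (hd : (p : ℤ) ∣ c * a + h) (hd' : (p : ℤ) ∣ c * a' + h) : a = a' := by
  have h1 : (p : ℤ) ∣ c * ((a : ℤ) - a') := by
    have := dvd_sub hd hd'
    have e : c * (a : ℤ) + h - (c * a' + h) = c * ((a : ℤ) - a') := by ring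
    rwa [e] at this
  have h3 : (p : ℤ) ∣ (a : ℤ) - a' := ((Nat.prime_iff_prime_int.1 hp).dvd_or_dvd h1).resolve_left hc
  have h4 : |(a : ℤ) - (a' : ℤ)| < p := by
    rw [abs_lt]
    constructor <;> omega
  have := Int.eq_zero_of_abs_lt_dvd h3 h4
  omega

section
variable {ι : Type} [Fintype ι] [DecidableEq ι]

/-- the forbidden classes -/
def Rf (act : ι → ℕ → Prop) (c h : ι → ℤ) (p a : ℕ) : Prop := ∃ i, act i p ∧ (p : ℤ) ∣ c i * a + h i

lemma Rf_mod (act : ι → ℕ → Prop) (c h : ι → ℤ) (p m : ℕ) : Rf act c h p (m % p) ↔ ∃ i, act i p ∧ (p : ℤ) ∣ c i * m + h i := by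
  unfold Rf
  have h1 : ∀ i, (p : ℤ) ∣ c i * ((m % p : ℕ) : ℤ) + h i ↔ (p : ℤ) ∣ c i * m + h i := by
    intro i
    have h2 : c i * (m : ℤ) + h i = (c i * ((m % p : ℕ) : ℤ) + h i) + p * (c i * ((m / p : ℕ) : ℤ)) := by
      have h3 : (m : ℤ) = ((m % p : ℕ) : ℤ) + p * ((m / p : ℕ) : ℤ) := by exact_mod_cast (Nat.mod_add_div m p).symm
      linear_combination (c i) * h3
    rw [h2]
    exact (dvd_add_left (dvd_mul_right _ _)).symm
  simp only [h1]

open Classical in
/-- the number of the forbidden classes -/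
noncomputable def nuf (act : ι → ℕ → Prop) (c h : ι → ℤ) (p : ℕ) : ℕ := ((range p).filter (fun a => Rf act c h p a)).card

open Classical in
lemma nuf_le (act : ι → ℕ → Prop) (c h : ι → ℤ) (p : ℕ) (hp : p.Prime) (hc : ∀ i, ¬ (p : ℤ) ∣ c i) : nuf act c h p ≤ Fintype.card ι := by
  choose rp h1 h2 using fun i => ex_rep (c i) (h i) p hp (hc i)
  unfold nuf
  calc _ ≤ (univ.image (fun i => rp i)).card := by
        apply card_le_card
        intro a ha
        rw [mem_filter, mem_range] at ha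
        obtain ⟨i, _, hd⟩ := ha.2
        rw [mem_image]
        exact ⟨i, mem_univ _, (uniq_rep (c i) (h i) p hp (hc i) _ _ ha.1 (h1 i) hd (h2 i)).symm⟩
    _ ≤ _ := card_image_le.trans (by rw [card_univ])

open Classical in
lemma nuf_ge (act : ι → ℕ → Prop) (c h : ι → ℤ) (p : ℕ) (hp : p.Prime) (hc : ∀ i, ¬ (p : ℤ) ∣ c i)
    (hd : ∀ i j, i ≠ j → ¬ (p : ℤ) ∣ c i * h j - c j * h i) :
    (univ.filter (fun i => act i p)).card ≤ nuf act c h p := by
  choose rp h1 h2 using fun i => ex_rep (c i) (h i) p hp (hc i)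
  unfold nuf
  apply card_le_card_of_injOn (fun i => rp i)
  · intro i hi
    rw [mem_coe, mem_filter] at hi
    rw [mem_coe, mem_filter, mem_range]
    exact ⟨h1 i, i, hi.2, h2 i⟩
  · intro i _ j _ hij
    simp only at hij
    by_contra hne
    apply hd i j hne
    have h3 := h2 i
    rw [hij] at h3
    have := dvd_sub ((h2 j).mul_left (c i)) (h3.mul_left (c j))
    have e : c i * (c j * (rp j : ℤ) + h j) - c j * (c i * (rp j : ℤ) + h i) = c i * h j - c j * h i := by ring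
    rwa [e] at this

open Classical in
/-- the local factors -/
lemma local_le (act : ι → ℕ → Prop) (c h : ι → ℤ) (p : ℕ) (hp : p.Prime) (hc : ∀ i, ¬ (p : ℤ) ∣ c i) :
    1 - (nuf act c h p : ℝ) / p ≤ (1 - 1 / (p : ℝ)) ^ (univ.filter (fun i => act i p)).card *
      ∏ q ∈ (univ : Finset (ι × ι)).filter (fun q => q.1 ≠ q.2),
        (if (p : ℤ) ∣ c q.1 * h q.2 - c q.2 * h q.1 then (1 + 1 / (p : ℝ)) ^ (2 * Fintype.card ι) else 1) := by
  have hp0 : (0 : ℝ) < p := by exact_mod_cast hp.pos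
  have hp2 : (2 : ℝ) ≤ p := by exact_mod_cast hp.two_le
  have hx0 : 0 ≤ 1 / (p : ℝ) := by positivity
  have hx1 : 1 / (p : ℝ) ≤ 1 / 2 := one_div_le_one_div_of_le (by norm_num) hp2
  have hfac : ∀ q ∈ (univ : Finset (ι × ι)).filter (fun q => q.1 ≠ q.2),
      (1 : ℝ) ≤ (if (p : ℤ) ∣ c q.1 * h q.2 - c q.2 * h q.1 then (1 + 1 / (p : ℝ)) ^ (2 * Fintype.card ι) else 1) := by
    intro q _
    split_ifs
    · exact one_le_pow₀ (by linarith)
    · exact le_rfl
  have hk : (univ.filter (fun i => act i p)).card ≤ Fintype.card ι := by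
    rw [← card_univ]
    exact card_filter_le _ _
  by_cases hd : ∀ i j, i ≠ j → ¬ (p : ℤ) ∣ c i * h j - c j * h i
  · have h1 := nuf_ge act c h p hp hc hd
    have h2 : 1 - (nuf act c h p : ℝ) / p ≤ 1 - ((univ.filter (fun i => act i p)).card : ℝ) / p := by
      have : ((univ.filter (fun i => act i p)).card : ℝ) / p ≤ (nuf act c h p : ℝ) / p := by
        apply div_le_div_of_nonneg_right _ hp0.le
        exact_mod_cast h1
      linarith
    have h3 := one_add_mul_le_pow (show (-2 : ℝ) ≤ -(1 / (p : ℝ)) by linarith) (univ.filter (fun i => act i p)).card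
    have h4 : 1 - ((univ.filter (fun i => act i p)).card : ℝ) / p ≤ (1 - 1 / (p : ℝ)) ^ (univ.filter (fun i => act i p)).card := by
      have e1 : 1 + ((univ.filter (fun i => act i p)).card : ℝ) * -(1 / (p : ℝ)) = 1 - ((univ.filter (fun i => act i p)).card : ℝ) / p := by ring
      have e2 : (1 : ℝ) + -(1 / (p : ℝ)) = 1 - 1 / p := by ring
      rw [e1, e2] at h3
      exact h3
    refine (h2.trans h4).trans ?_
    have h5 : (0 : ℝ) ≤ (1 - 1 / (p : ℝ)) ^ (univ.filter (fun i => act i p)).card := pow_nonneg (by linarith) _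
    exact le_mul_of_one_le_right h5 (one_le_prodR _ _ hfac)
  · push Not at hd
    obtain ⟨i, j, hij, hd⟩ := hd
    have h1 : (1 : ℝ) - (nuf act c h p : ℝ) / p ≤ 1 := by
      have : (0 : ℝ) ≤ (nuf act c h p : ℝ) / p := by positivity
      linarith
    refine h1.trans ?_
    have h2 : (1 + 1 / (p : ℝ)) ^ (2 * Fintype.card ι) ≤
        ∏ q ∈ (univ : Finset (ι × ι)).filter (fun q => q.1 ≠ q.2), (if (p : ℤ) ∣ c q.1 * h q.2 - c q.2 * h q.1 then (1 + 1 / (p : ℝ)) ^ (2 * Fintype.card ι) else 1) := by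
      rw [← mul_prod_erase _ _ (show (i, j) ∈ (univ : Finset (ι × ι)).filter (fun q => q.1 ≠ q.2) by rw [mem_filter]; exact ⟨mem_univ _, hij⟩)]
      rw [if_pos hd]
      apply le_mul_of_one_le_right (by positivity)
      exact one_le_prodR _ _ (fun q hq => hfac q (mem_of_mem_erase hq))
    have h3 : (1 - 1 / (p : ℝ)) ^ Fintype.card ι ≤ (1 - 1 / (p : ℝ)) ^ (univ.filter (fun i => act i p)).card :=
      pow_le_pow_of_le_one (by linarith) (by linarith) hk
    have h4 := inv_one_sub_le (1 / (p : ℝ)) hx0 hx1 (Fintype.card ι)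
    refine h4.trans ?_
    exact mul_le_mul h3 h2 (by positivity) (pow_nonneg (by linarith) _)

/-- the primes of the sieve -/
def PP (Q0 y : ℕ) : Finset ℕ := (pz y).filter (fun p => Q0 < p)

lemma mem_PP {Q0 y p : ℕ} : p ∈ PP Q0 y ↔ (p ≤ y ∧ p.Prime) ∧ Q0 < p := by
  unfold PP
  rw [mem_filter, mem_pz]

lemma not_dvd_c {Q0 y p : ℕ} (hp : p ∈ PP Q0 y) {c : ι → ℤ} (hc : ∀ i, c i ≠ 0 ∧ |c i| ≤ Q0) (i : ι) : ¬ (p : ℤ) ∣ c i := by
  intro h
  have h1 := (mem_PP.1 hp).2
  apply (hc i).1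
  apply Int.eq_zero_of_abs_lt_dvd h
  have h2 := (hc i).2
  have h3 : (Q0 : ℤ) < p := by exact_mod_cast h1
  linarith

/-- the product over the primes of the sieve -/
lemma prod_PP_le (Q0 y l : ℕ) (hl : l ≤ y) : ∏ p ∈ (PP Q0 y).filter (fun p => p ≤ l), (1 - 1 / (p : ℝ)) ≤ 2 ^ Q0 * Vz l := by
  have hpr : ∀ p ∈ pz l, (1 / 2 : ℝ) ≤ 1 - 1 / (p : ℝ) := by
    intro p hp
    have hp2 : (2 : ℝ) ≤ p := by exact_mod_cast (mem_pz.1 hp).2.two_le
    have hx1 : 1 / (p : ℝ) ≤ 1 / 2 := one_div_le_one_div_of_le (by norm_num) hp2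
    linarith
  have h1 : Vz l = (∏ p ∈ (pz l).filter (fun p => Q0 < p), (1 - 1 / (p : ℝ))) * ∏ p ∈ (pz l).filter (fun p => ¬ Q0 < p), (1 - 1 / (p : ℝ)) := by
    unfold Vz
    exact (prod_filter_mul_prod_filter_not _ _ _).symm
  have h2 : (PP Q0 y).filter (fun p => p ≤ l) = (pz l).filter (fun p => Q0 < p) := by
    ext p
    rw [mem_filter, mem_PP, mem_filter, mem_pz]
    constructor
    · rintro ⟨⟨⟨_, a⟩, b⟩, c⟩
      exact ⟨⟨c, a⟩, b⟩
    · rintro ⟨⟨c, a⟩, b⟩
      exact ⟨⟨⟨c.trans hl, a⟩, b⟩, c⟩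
  rw [h2, h1]
  have h3 : (1 / 2 : ℝ) ^ Q0 ≤ ∏ p ∈ (pz l).filter (fun p => ¬ Q0 < p), (1 - 1 / (p : ℝ)) := by
    have h4 : ((pz l).filter (fun p => ¬ Q0 < p)).card ≤ Q0 := by
      calc _ ≤ (Icc 1 Q0).card := by
            apply card_le_card
            intro p hp
            rw [mem_filter, mem_pz] at hp
            rw [mem_Icc]
            exact ⟨hp.1.2.one_le, by omega⟩
        _ = Q0 := by rw [Nat.card_Icc, Nat.add_sub_cancel]
    calc (1 / 2 : ℝ) ^ Q0 ≤ (1 / 2 : ℝ) ^ ((pz l).filter (fun p => ¬ Q0 < p)).card :=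
          pow_le_pow_of_le_one (by norm_num) (by norm_num) h4
      _ = ∏ _p ∈ (pz l).filter (fun p => ¬ Q0 < p), (1 / 2 : ℝ) := by rw [prod_const]
      _ ≤ _ := prod_le_prod (fun _ _ => by norm_num) (fun p hp => hpr p (mem_filter.1 hp).1)
  have h5 : 0 ≤ ∏ p ∈ (pz l).filter (fun p => Q0 < p), (1 - 1 / (p : ℝ)) :=
    prod_nonneg fun p hp => by have := hpr p (mem_filter.1 hp).1; linarith
  have h6 : (2 : ℝ) ^ Q0 * (1 / 2) ^ Q0 = 1 := by rw [← mul_pow]; norm_num
  calc ∏ p ∈ (pz l).filter (fun p => Q0 < p), (1 - 1 / (p : ℝ)) =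
      (∏ p ∈ (pz l).filter (fun p => Q0 < p), (1 - 1 / (p : ℝ))) * ((2 : ℝ) ^ Q0 * (1 / 2) ^ Q0) := by rw [h6, mul_one]
    _ ≤ (∏ p ∈ (pz l).filter (fun p => Q0 < p), (1 - 1 / (p : ℝ))) * ((2 : ℝ) ^ Q0 * ∏ p ∈ (pz l).filter (fun p => ¬ Q0 < p), (1 - 1 / (p : ℝ))) := by
        apply mul_le_mul_of_nonneg_left _ h5
        exact mul_le_mul_of_nonneg_left h3 (by positivity)
    _ = _ := by ring

open Classical in
/-- the product of the local factors -/
lemma prod_local (Q0 : ℕ) (lev : ι → ℕ) (c h : ι → ℤ) (hc : ∀ i, c i ≠ 0 ∧ |c i| ≤ Q0)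
    (hh : ∀ i j, i ≠ j → c i * h j ≠ c j * h i) (y : ℕ) (hzy : ∀ i, lev i ≤ y) :
    ∏ p ∈ PP Q0 y, (1 - (nuf (fun i p => p ≤ lev i) c h p : ℝ) / p) ≤
      ((2 ^ Q0) ^ Fintype.card ι * ∏ i, Vz (lev i)) * ∏ i, ∏ j, (if i = j then 1 else gg (c i * h j - c j * h i).natAbs) ^ (2 * Fintype.card ι) := by
  have hpr : ∀ p ∈ PP Q0 y, p.Prime := fun p hp => (mem_PP.1 hp).1.2
  have h1 : ∏ p ∈ PP Q0 y, (1 - (nuf (fun i p => p ≤ lev i) c h p : ℝ) / p) ≤
      ∏ p ∈ PP Q0 y, ((1 - 1 / (p : ℝ)) ^ (univ.filter (fun i => p ≤ lev i)).card *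
      ∏ q ∈ (univ : Finset (ι × ι)).filter (fun q => q.1 ≠ q.2), (if (p : ℤ) ∣ c q.1 * h q.2 - c q.2 * h q.1 then (1 + 1 / (p : ℝ)) ^ (2 * Fintype.card ι) else 1)) := by
    apply prod_le_prod
    · intro p hp
      have hp0 := (hpr p hp).pos
      rw [sub_nonneg, div_le_one (by exact_mod_cast hp0)]
      have : nuf (fun i p => p ≤ lev i) c h p ≤ p := by
        unfold nuf
        exact (card_filter_le _ _).trans (card_range p).le
      exact_mod_cast this
    · intro p hp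
      refine (local_le (fun i p => p ≤ lev i) c h p (hpr p hp) (not_dvd_c hp hc)).trans (le_of_eq ?_)
      congr!
  refine h1.trans ?_
  rw [prod_mul_distrib]
  have hV : ∏ p ∈ PP Q0 y, (1 - 1 / (p : ℝ)) ^ (univ.filter (fun i => p ≤ lev i)).card ≤ (2 ^ Q0) ^ Fintype.card ι * ∏ i, Vz (lev i) := by
    have h2 : ∀ p ∈ PP Q0 y, (1 - 1 / (p : ℝ)) ^ (univ.filter (fun i => p ≤ lev i)).card =
        ∏ i, (if p ≤ lev i then (1 - 1 / (p : ℝ)) else 1) := by
      intro p _
      rw [← prod_filter, prod_const]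
    rw [prod_congr rfl h2, prod_comm]
    have h3 : ((2 : ℝ) ^ Q0) ^ Fintype.card ι * ∏ i, Vz (lev i) = ∏ i : ι, (2 ^ Q0 * Vz (lev i)) := by
      rw [prod_mul_distrib, prod_const, card_univ]
    rw [h3]
    apply prod_le_prod
    · intro i _
      apply prod_nonneg
      intro p hp
      have hp2 : (2 : ℝ) ≤ p := by exact_mod_cast (hpr p hp).two_le
      have hx1 : 1 / (p : ℝ) ≤ 1 / 2 := one_div_le_one_div_of_le (by norm_num) hp2
      split_ifs
      · linarith
      · norm_num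
    · intro i _
      rw [← prod_filter]
      exact prod_PP_le Q0 y (lev i) (hzy i)
  have hGnn : 0 ≤ ∏ p ∈ PP Q0 y, ∏ q ∈ (univ : Finset (ι × ι)).filter (fun q => q.1 ≠ q.2), (if (p : ℤ) ∣ c q.1 * h q.2 - c q.2 * h q.1 then (1 + 1 / (p : ℝ)) ^ (2 * Fintype.card ι) else (1 : ℝ)) := by
    apply prod_nonneg
    intro p _
    apply prod_nonneg
    intro q _
    split_ifs
    · positivity
    · norm_num
  refine (mul_le_mul_of_nonneg_right hV hGnn).trans ?_
  apply mul_le_mul_of_nonneg_left _ (mul_nonneg (by positivity) (prod_nonneg fun i _ => (Vz_pos _).le))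
  rw [prod_comm]
  have h3 : ∏ i, ∏ j, (if i = j then (1 : ℝ) else gg (c i * h j - c j * h i).natAbs) ^ (2 * Fintype.card ι) =
      ∏ q ∈ (univ : Finset (ι × ι)).filter (fun q => q.1 ≠ q.2), gg (c q.1 * h q.2 - c q.2 * h q.1).natAbs ^ (2 * Fintype.card ι) := by
    rw [prod_filter]
    symm
    refine (Fintype.prod_prod_type _).trans ?_
    apply prod_congr rfl
    intro i _
    apply prod_congr rfl
    intro j _
    by_cases hij : i = j
    · rw [if_neg (by simpa using hij), if_pos hij, one_pow]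
    · rw [if_pos (by simpa using hij), if_neg hij]
  rw [h3]
  apply prod_le_prod
  · intro q _
    apply prod_nonneg
    intro p _
    split_ifs
    · positivity
    · norm_num
  · intro q hq
    rw [mem_filter] at hq
    have hne : c q.1 * h q.2 - c q.2 * h q.1 ≠ 0 := sub_ne_zero.2 (hh _ _ hq.2)
    rw [← prod_filter]
    unfold gg
    rw [← prod_pow]
    apply prod_le_prod_of_subset_of_one_le
    · intro p hp
      rw [mem_filter] at hp
      rw [Nat.mem_primeFactors]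
      exact ⟨hpr p hp.1, Int.natCast_dvd.1 hp.2, by omega⟩
    · intro p _; positivity
    · intro p _ _
      apply one_le_pow₀
      have : (0 : ℝ) ≤ 1 / p := by positivity
      linarith

open Classical in
/-- the count by the fundamental lemma -/
lemma count_le (C0 K0 : ℕ) (hC0 : 1 ≤ C0)
    (hfl : ∀ b : ℕ, C0 ≤ b → ∀ y : ℕ, 2 ≤ y → ∀ (X : ℕ) (P : Finset ℕ) (R : ℕ → ℕ → Prop),
      (∀ p ∈ P, p.Prime ∧ p ≤ y ∧ ((range p).filter (fun a => R p a)).card ≤ Fintype.card ι) →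
      |(((Icc 1 X).filter (fun n => ∀ p ∈ P, ¬ R p (n % p))).card : ℝ) -
        X * ∏ p ∈ P, (1 - (((range p).filter (fun a => R p a)).card : ℝ) / p)| ≤
      (1 / 2 : ℝ) ^ b * (X * ∏ p ∈ P, (1 - (((range p).filter (fun a => R p a)).card : ℝ) / p)) +
        ((Pool.Agent.W41.JJ y : ℝ) + 2) * ((y : ℝ) ^ (2 * (C0 * b)) * (K0 * (y : ℝ) ^ (2 * (C0 * b)))))
    (y : ℕ) (hy : 3 ≤ y) (hyK : 2 * K0 ≤ y) (Q0 : ℕ) (lev : ι → ℕ) (hzy : ∀ i, lev i ≤ y) (X : ℕ) (c h : ι → ℤ)
    (hc : ∀ i, c i ≠ 0 ∧ |c i| ≤ Q0) (hh : ∀ i j, i ≠ j → c i * h j ≠ c j * h i) :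
    (((Icc (1 : ℤ) X).filter (fun n => ∀ i, cop (lev i) (c i * n + h i))).card : ℝ) ≤
      2 * X * (((2 ^ Q0) ^ Fintype.card ι * ∏ i, Vz (lev i)) * ∏ i, ∏ j, (if i = j then 1 else gg (c i * h j - c j * h i).natAbs) ^ (2 * Fintype.card ι)) +
        (y : ℝ) ^ (4 * (C0 * C0) + 2) := by
  have h1 := hfl C0 le_rfl y (by omega) X (PP Q0 y) (fun p a => Rf (fun i p => p ≤ lev i) c h p a) (fun p hp => by
    have hp' := mem_PP.1 hp
    refine ⟨hp'.1.2, hp'.1.1, ?_⟩
    exact nuf_le (fun i p => p ≤ lev i) c h p hp'.1.2 (not_dvd_c hp hc))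
  have h2 := prod_local Q0 lev c h hc hh y hzy
  obtain ⟨V, hV⟩ : ∃ V : ℝ, V = ∏ p ∈ PP Q0 y, (1 - (nuf (fun i p => p ≤ lev i) c h p : ℝ) / p) := ⟨_, rfl⟩
  have h3 : ∏ p ∈ PP Q0 y, (1 - (((range p).filter (fun a => Rf (fun i p => p ≤ lev i) c h p a)).card : ℝ) / p) = V := by
    rw [hV]
    rfl
  rw [h3] at h1
  rw [← hV] at h2
  have hV0 : 0 ≤ V := by
    rw [hV]
    apply prod_nonneg
    intro p hp
    have hp0 := (mem_PP.1 hp).1.2.pos
    rw [sub_nonneg, div_le_one (by exact_mod_cast hp0)]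
    have : nuf (fun i p => p ≤ lev i) c h p ≤ p := by
      unfold nuf
      exact (card_filter_le _ _).trans (card_range p).le
    exact_mod_cast this
  have h4 := (abs_le.1 h1).2
  have h5 : (1 / 2 : ℝ) ^ C0 ≤ 1 := pow_le_one₀ (by norm_num) (by norm_num)
  have h6 : ((Pool.Agent.W41.JJ y : ℝ) + 2) * ((y : ℝ) ^ (2 * (C0 * C0)) * (K0 * (y : ℝ) ^ (2 * (C0 * C0)))) ≤ (y : ℝ) ^ (4 * (C0 * C0) + 2) := by
    have e1 : ((Pool.Agent.W41.JJ y : ℝ) + 2) ≤ 2 * y := by exact_mod_cast Pool.Agent.W41.JJ_small y hy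
    have e2 : (2 * K0 : ℝ) ≤ y := by exact_mod_cast hyK
    have hy0 : (0 : ℝ) ≤ y := Nat.cast_nonneg _
    calc ((Pool.Agent.W41.JJ y : ℝ) + 2) * ((y : ℝ) ^ (2 * (C0 * C0)) * (K0 * (y : ℝ) ^ (2 * (C0 * C0)))) ≤
        (2 * y) * ((y : ℝ) ^ (2 * (C0 * C0)) * (K0 * (y : ℝ) ^ (2 * (C0 * C0)))) := mul_le_mul_of_nonneg_right e1 (by positivity)
      _ = (2 * K0) * ((y : ℝ) ^ (4 * (C0 * C0)) * y) := by
          have : (y : ℝ) ^ (4 * (C0 * C0)) = (y : ℝ) ^ (2 * (C0 * C0)) * (y : ℝ) ^ (2 * (C0 * C0)) := by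
            rw [← pow_add]; congr 1; ring
          rw [this]; ring
      _ ≤ y * ((y : ℝ) ^ (4 * (C0 * C0)) * y) := mul_le_mul_of_nonneg_right e2 (by positivity)
      _ = _ := by rw [pow_add]; ring
  have h7 : (((Icc (1 : ℤ) X).filter (fun n => ∀ i, cop (lev i) (c i * n + h i))).card : ℝ) ≤
      (((Icc 1 X).filter (fun n => ∀ p ∈ PP Q0 y, ¬ Rf (fun i p => p ≤ lev i) c h p (n % p))).card : ℝ) := by
    have : ((Icc (1 : ℤ) X).filter (fun n => ∀ i, cop (lev i) (c i * n + h i))).card ≤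
        ((Icc 1 X).filter (fun n => ∀ p ∈ PP Q0 y, ¬ Rf (fun i p => p ≤ lev i) c h p (n % p))).card := by
      apply card_le_card_of_injOn (fun n => n.toNat)
      · intro n hn
        rw [mem_coe, mem_filter, mem_Icc] at hn
        obtain ⟨⟨hn1, hn2⟩, hn3⟩ := hn
        rw [mem_coe, mem_filter, mem_Icc]
        beta_reduce
        have hnn : ((n.toNat : ℕ) : ℤ) = n := Int.toNat_of_nonneg (by omega)
        refine ⟨⟨by omega, by omega⟩, fun p hp => ?_⟩
        rw [Rf_mod]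
        rintro ⟨i, hact, hd⟩
        rw [hnn] at hd
        exact hn3 i p (mem_pz.2 ⟨hact, (mem_PP.1 hp).1.2⟩) hd
      · intro n hn n' hn' he
        rw [mem_coe, mem_filter, mem_Icc] at hn hn'
        obtain ⟨⟨hn1, hn2⟩, _⟩ := hn
        obtain ⟨⟨hn1', hn2'⟩, _⟩ := hn'
        simp only at he
        omega
    exact_mod_cast this
  have hX0 : (0 : ℝ) ≤ X := Nat.cast_nonneg _
  have h8 : (1 / 2 : ℝ) ^ C0 * (X * V) ≤ X * V := by
    have : 0 ≤ X * V := mul_nonneg hX0 hV0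
    nlinarith
  have h9 : 2 * (X : ℝ) * V ≤ 2 * (X : ℝ) * (((2 ^ Q0) ^ Fintype.card ι * ∏ i, Vz (lev i)) * ∏ i, ∏ j, (if i = j then 1 else gg (c i * h j - c j * h i).natAbs) ^ (2 * Fintype.card ι)) :=
    mul_le_mul_of_nonneg_left h2 (by positivity)
  linarith

lemma card_shift (W y : ℕ) (I : Finset ℤ) (c h : ℤ) (hc : c ≠ 0) : (I.filter (fun n => (c * n + h).toNat ∈ Ew W y)).card ≤ (Ew W y).card := by
  apply card_le_card_of_injOn (fun n => (c * n + h).toNat)
  · intro n hn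
    rw [mem_coe, mem_filter] at hn
    exact hn.2
  · intro n hn n' hn' he
    rw [mem_coe, mem_filter] at hn hn'
    have h1 := Ew_pos W y _ hn.2
    have h2 := Ew_pos W y _ hn'.2
    simp only at he
    have h3 : c * n + h = c * n' + h := by omega
    have h4 : c * n = c * n' := by linarith
    exact mul_left_cancel₀ hc h4

end

/-- the levels -/
def lv (y z : ℕ) : Option Bool → ℕ
  | none => 0
  | some true => y
  | some false => z

end Pool.Agent.Y820.LF.SBF

namespace Pool.Agent.Y820.LF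
open Finset
open Pool.Agent.H373R2.T7
open Pool.Agent.W93.HD
open Pool.Agent.Y820.LT (w)
open Pool.Agent.Y820.LT.SB (root cop Ew card_Ew mem_Ew Ew_pos lamI_le lamzI_le prod01 inv_one_sub_le one_le_prodR)
open SBF

theorem t_SBF : S_SBF := by
  classical
  intro ι _ _ Q0 Ez
  obtain ⟨k, hk⟩ : ∃ k, k = Fintype.card ι := ⟨_, rfl⟩
  obtain ⟨C0, K0, hC0, hK0, hfl⟩ := Pool.Agent.TH892.SW.fl_set (Fintype.card ι)
  obtain ⟨CV, hCV, hV⟩ := Vz_log_le
  obtain ⟨E, hE⟩ : ∃ E, E = 4 * (C0 * C0) + 2 := ⟨_, rfl⟩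
  obtain ⟨m, hm⟩ : ∃ m, m = 2 * E := ⟨_, rfl⟩
  obtain ⟨Y1, hY1⟩ := root m (2 * K0 + 3) (by omega)
  obtain ⟨C', hC'⟩ : ∃ C' : ℝ, C' = 3 * (2 * m * CV) := ⟨_, rfl⟩
  have hm1 : (1 : ℝ) ≤ m := by exact_mod_cast (by omega : 1 ≤ m)
  have hC'1 : 1 ≤ C' := by rw [hC']; nlinarith
  obtain ⟨n1, h1⟩ := ev_log' (k + 1) (3 ^ k * (1 + 2 ^ k * (k * 6)))
  obtain ⟨n2, h2⟩ := ev_log' (m * (Ez + 1)) 1
  obtain ⟨n3, h3⟩ := ev_L' 2
  obtain ⟨n4, h4⟩ := Vz_inv_small Ez
  refine ⟨2 * (2 ^ Q0) ^ k * C' ^ k + 1, 2 * k, Y1 + n1 + n2 + n3 + n4 + Q0 + 3, by positivity, fun Y hY z hz2 hz τ c h hc hh hinj => ?_⟩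
  obtain ⟨y, hy1, hy2, hyY, hlog⟩ := hY1 Y (by omega)
  obtain ⟨L, hL⟩ : ∃ L, L = Real.log (Y : ℝ) := ⟨_, rfl⟩
  have hY0 : (0 : ℝ) < Y := by exact_mod_cast (by omega : 0 < Y)
  have hL2 : 2 ≤ L := by rw [hL]; exact h3 Y (by omega)
  have hL0 : 0 < L := by linarith
  have hVz := h4 Y (by omega) z (by omega) hz
  rw [← hL] at hlog hz hVz
  have e1 := h1 Y (by omega)
  have e2 := h2 Y (by omega)
  rw [← hL] at e1 e2
  have hss : √(Y : ℝ) * √(Y : ℝ) = Y := Real.mul_self_sqrt hY0.le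
  have hs0 : 0 ≤ √(Y : ℝ) := Real.sqrt_nonneg _
  have hy0 : (0 : ℝ) < y := by exact_mod_cast (by omega : 0 < y)
  have hy1' : (1 : ℝ) ≤ y := by exact_mod_cast (by omega : 1 ≤ y)
  -- the level is larger than `z`
  have hzy : z ≤ y := by
    have hly : L ≤ 2 * m * Real.log y := hlog
    have h5 : (z : ℝ) ≤ y := by
      by_contra hcon
      push Not at hcon
      have hz0 : (0 : ℝ) < z := by linarith
      have h6 : Real.log y ≤ Real.log z := Real.log_le_log hy0 hcon.le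
      have h7 : Real.log z ≤ Ez * Real.log L := by
        calc Real.log z ≤ Real.log (L ^ Ez) := Real.log_le_log hz0 hz
          _ = Ez * Real.log L := Real.log_pow _ _
      have h8 : (m * (Ez + 1) : ℕ) * Real.log L ≤ L / 2 := by
        have h9 : Real.log (1 * L ^ (m * (Ez + 1))) ≤ Real.log √(Y : ℝ) := Real.log_le_log (by positivity) e2
        rw [one_mul, Real.log_pow, Real.log_sqrt hY0.le, ← hL] at h9
        exact h9
      have hlL : 0 < Real.log L := Real.log_pos (by linarith)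
      push_cast at h8
      have h10 : 2 * (m : ℝ) * Real.log y ≤ 2 * m * (Ez * Real.log L) :=
        mul_le_mul_of_nonneg_left (h6.trans h7) (by positivity)
      have h11 : 2 * (m : ℝ) * (Ez * Real.log L) + 2 * m * Real.log L ≤ L := by nlinarith
      have h12 : 0 < 2 * (m : ℝ) * Real.log L := by positivity
      linarith
    exact_mod_cast h5
  obtain ⟨lev, hlev⟩ : ∃ lev : ι → ℕ, lev = fun i => lv y z (τ i) := ⟨_, rfl⟩
  have hlevy : ∀ i, lev i ≤ y := by
    intro i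
    rw [hlev]
    simp only
    rcases hτ : τ i with _ | (_ | _)
    · exact Nat.zero_le _
    · exact hzy
    · exact le_rfl
  -- the weights
  obtain ⟨W, hW⟩ : ∃ W, W = Y ^ 3 := ⟨_, rfl⟩
  have hW1 : 1 ≤ W := by rw [hW]; exact Nat.one_le_pow _ _ (by omega)
  have hlogW : Real.log (W : ℝ) = 3 * L := by rw [hW, hL]; push_cast; rw [Real.log_pow]; norm_num
  obtain ⟨U, hU⟩ : ∃ U : ι → ℝ, U = fun i => match τ i with
    | none => 1
    | some true => 3 * L
    | some false => (Vz z)⁻¹ := ⟨_, rfl⟩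
  have hU0 : ∀ i, 0 ≤ U i := by
    intro i
    rw [hU]
    simp only
    rcases hτ : τ i with _ | (_ | _)
    · norm_num
    · exact (inv_pos.2 (Vz_pos z)).le
    · positivity
  have hU3 : ∀ i, U i ≤ 3 * L := by
    intro i
    rw [hU]
    simp only
    rcases hτ : τ i with _ | (_ | _)
    · simp only; linarith
    · simp only; linarith
    · exact le_rfl
  obtain ⟨r, hr⟩ : ∃ r : ℤ → ι → ℝ, r = fun n i => if cop (lev i) (c i * n + h i) then 1 else 0 := ⟨_, rfl⟩
  obtain ⟨ex, hex⟩ : ∃ ex : ℤ → ι → ℝ, ex = fun n i => if (τ i = some true ∧ (c i * n + h i).toNat ∈ Ew W y) then 1 else 0 := ⟨_, rfl⟩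
  have hgen : ∀ (t : Option Bool) (v : ℤ), v ≤ W → ww z t v ≤ (match t with
      | none => 1
      | some true => 3 * L
      | some false => (Vz z)⁻¹) * ((if cop (lv y z t) v then (1 : ℝ) else 0) +
        (if (t = some true ∧ v.toNat ∈ Ew W y) then (1 : ℝ) else 0)) := by
    intro t v hv
    rcases t with _ | (_ | _)
    · have a1 : cop (lv y z none) v := by
        intro p hp
        exfalso
        rw [mem_pz] at hp
        have := hp.2.pos
        have h9 : p ≤ 0 := hp.1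
        omega
      rw [if_pos a1, if_neg (by simp)]
      unfold ww
      simp
    · rw [if_neg (show ¬ ((some false : Option Bool) = some true ∧ v.toNat ∈ Ew W y) by simp), add_zero]
      unfold ww w
      simp only
      rw [if_neg (by simp)]
      exact lamzI_le z _
    · simp only [true_and]
      unfold ww w
      simp only
      rw [if_pos trivial]
      have := lamI_le W y hW1 v hv
      rw [hlogW] at this
      exact this
  have hpt : ∀ n ∈ Icc (1 : ℤ) Y, ∀ i, ww z (τ i) (c i * n + h i) ≤ U i * (r n i + ex n i) := by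
    intro n hn i
    rw [mem_Icc] at hn
    have hnW : c i * n + h i ≤ W := by
      have a1 := (abs_le.1 (hh i)).2
      have a2 : Q0 * Y + Y ^ 2 ≤ W := by
        rw [hW]
        calc Q0 * Y + Y ^ 2 ≤ Y * Y + Y ^ 2 := by
              have : Q0 * Y ≤ Y * Y := Nat.mul_le_mul_right _ (by omega)
              omega
          _ = 2 * Y ^ 2 := by ring
          _ ≤ Y * Y ^ 2 := Nat.mul_le_mul_right _ (by omega)
          _ = _ := by ring
      have a3 : ((Q0 * Y + Y ^ 2 : ℕ) : ℤ) ≤ W := by exact_mod_cast a2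
      push_cast at a3
      have a4 := (abs_le.1 (hc i).2).2
      have a5 : c i * n ≤ Q0 * Y := by
        calc c i * n ≤ Q0 * n := mul_le_mul_of_nonneg_right a4 (by omega)
          _ ≤ Q0 * Y := mul_le_mul_of_nonneg_left hn.2 (Int.natCast_nonneg _)
      linarith
    rw [hr, hex, hU, hlev]
    exact hgen (τ i) _ hnW
  have hww0 : ∀ (τ : Option Bool) (n : ℤ), 0 ≤ ww z τ n := by
    intro τ n
    unfold ww w
    rcases τ with _ | (_ | _)
    · norm_num
    · simp only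
      rw [if_neg (by simp)]
      exact lamzI_nonneg _ _
    · simp only
      rw [if_pos trivial]
      exact lamI_nonneg _
  have hprod : ∀ n ∈ Icc (1 : ℤ) Y, ∏ i, ww z (τ i) (c i * n + h i) ≤ (∏ i, U i) * (∏ i, r n i + 2 ^ k * ∑ i, ex n i) := by
    intro n hn
    have a1 : ∏ i, ww z (τ i) (c i * n + h i) ≤ ∏ i, (U i * (r n i + ex n i)) := by
      apply prod_le_prod
      · intro i _
        exact hww0 _ _
      · intro i _
        exact hpt n hn i
    rw [prod_mul_distrib] at a1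
    refine a1.trans ?_
    apply mul_le_mul_of_nonneg_left _ (prod_nonneg fun i _ => hU0 i)
    rw [hk]
    apply prod01
    · intro i
      rw [hr]
      beta_reduce
      by_cases hc : cop (lev i) (c i * n + h i)
      · right; rw [if_pos hc]
      · left; rw [if_neg hc]
    · intro i
      rw [hex]
      simp only
      split_ifs
      · right; rfl
      · left; rfl
  refine (sum_le_sum hprod).trans ?_
  rw [← mul_sum, sum_add_distrib, ← mul_sum]
  -- the count
  have hcount : ∑ n ∈ Icc (1 : ℤ) Y, ∏ i, r n i =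
      (((Icc (1 : ℤ) Y).filter (fun n => ∀ i, cop (lev i) (c i * n + h i))).card : ℝ) := by
    have a1 : ∀ n, ∏ i, r n i = if (∀ i, cop (lev i) (c i * n + h i)) then 1 else 0 := by
      intro n
      rw [hr]
      simp only
      split_ifs with a2
      · apply prod_eq_one
        intro i _
        rw [if_pos (a2 i)]
      · push Not at a2
        obtain ⟨i, a3⟩ := a2
        apply prod_eq_zero (mem_univ i)
        rw [if_neg a3]
    simp only [a1]
    rw [← sum_filter, sum_const, nsmul_eq_mul, mul_one]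
  obtain ⟨G, hG⟩ : ∃ G : ℝ, G = ∏ i, ∏ j, (if i = j then 1 else gg (c i * h j - c j * h i).natAbs) ^ (2 * k) := ⟨_, rfl⟩
  have hG1 : 1 ≤ G := by
    rw [hG]
    apply one_le_prodR
    intro i _
    apply one_le_prodR
    intro j _
    apply one_le_pow₀
    split_ifs
    · exact le_rfl
    · exact one_le_gg _
  rw [← hG]
  have hcnt := count_le C0 K0 hC0 hfl y (by omega) (by omega) Q0 lev hlevy Y c h hc hinj
  rw [← hk, ← hG, ← hcount, ← hE] at hcnt
  -- the exceptional part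
  have hexs : ∑ n ∈ Icc (1 : ℤ) Y, ∑ i, ex n i ≤ k * (y * (6 * L)) := by
    rw [sum_comm]
    have a1 : ∀ i ∈ (univ : Finset ι), ∑ n ∈ Icc (1 : ℤ) Y, ex n i ≤ y * (6 * L) := by
      intro i _
      rw [hex]
      simp only
      rw [← sum_filter, sum_const, nsmul_eq_mul, mul_one]
      have a2 : ((Icc (1 : ℤ) Y).filter (fun n => τ i = some true ∧ (c i * n + h i).toNat ∈ Ew W y)).card ≤ (Ew W y).card := by
        refine le_trans (card_le_card ?_) (card_shift W y (Icc (1 : ℤ) Y) (c i) (h i) (hc i).1)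
        intro n hn
        rw [mem_filter] at hn ⊢
        exact ⟨hn.1, hn.2.2⟩
      have a3 := a2.trans (card_Ew W y)
      have a4 : (((Icc (1 : ℤ) Y).filter (fun n => τ i = some true ∧ (c i * n + h i).toNat ∈ Ew W y)).card : ℝ) ≤ y * (Nat.log 2 W : ℕ) := by
        exact_mod_cast a3
      refine a4.trans ?_
      apply mul_le_mul_of_nonneg_left _ hy0.le
      have := natlog_le W hW1
      rw [hlogW] at this
      linarith
    refine (sum_le_sum a1).trans (le_of_eq ?_)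
    rw [sum_const, nsmul_eq_mul, card_univ, ← hk]
  -- the products of the weights
  have hUV : (∏ i, U i) * ∏ i, Vz (lev i) ≤ C' ^ k := by
    rw [← prod_mul_distrib]
    calc ∏ i, (U i * Vz (lev i)) ≤ ∏ _i : ι, C' := by
          apply prod_le_prod
          · intro i _
            exact mul_nonneg (hU0 i) (Vz_pos _).le
          · intro i _
            rw [hU, hlev]
            simp only
            rcases hτ : τ i with _ | (_ | _)
            · have a1 : Vz (lv y z none) = 1 := by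
                unfold Vz
                apply prod_eq_one
                intro p hp
                exfalso
                rw [mem_pz] at hp
                have := hp.2.pos
                have h9 : p ≤ 0 := hp.1
                omega
              rw [a1]
              simp only [mul_one]
              exact hC'1
            · simp only
              have a1 : Vz (lv y z (some false)) = Vz z := rfl
              rw [a1, inv_mul_cancel₀ (Vz_pos z).ne']
              exact hC'1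
            · simp only
              have a0 : Vz (lv y z (some true)) = Vz y := rfl
              rw [a0]
              have a1 := hV y (by omega)
              have a2 := (Vz_pos y).le
              calc 3 * L * Vz y ≤ 3 * (2 * m * Real.log y) * Vz y := by
                    apply mul_le_mul_of_nonneg_right _ a2
                    linarith
                _ = 3 * (2 * m * (Vz y * Real.log y)) := by ring
                _ ≤ 3 * (2 * m * CV) := by
                    apply mul_le_mul_of_nonneg_left _ (by norm_num)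
                    exact mul_le_mul_of_nonneg_left a1 (by positivity)
                _ = C' := by rw [hC']
      _ = C' ^ k := by rw [prod_const, card_univ, hk]
  have hUk : ∏ i, U i ≤ (3 * L) ^ k := by
    calc ∏ i, U i ≤ ∏ _i : ι, (3 * L) := prod_le_prod (fun i _ => hU0 i) (fun i _ => hU3 i)
      _ = _ := by rw [prod_const, card_univ, hk]
  have hUnn : 0 ≤ ∏ i, U i := prod_nonneg fun i _ => hU0 i
  -- powers of the level
  have hyE : (y : ℝ) ^ E ≤ √(Y : ℝ) := by
    apply Real.le_sqrt_of_sq_le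
    rw [← pow_mul, mul_comm E 2, ← hm]
    exact_mod_cast hyY
  have hys : (y : ℝ) ≤ √(Y : ℝ) := (le_self_pow₀ hy1' (by omega)).trans hyE
  -- the small terms
  have hsmall : (∏ i, U i) * ((y : ℝ) ^ E + 2 ^ k * (k * (y * (6 * L)))) ≤ Y * G := by
    have a1 : (y : ℝ) ^ E + 2 ^ k * (k * (y * (6 * L))) ≤ √(Y : ℝ) * ((1 + 2 ^ k * (k * 6)) * L) := by
      have a2 : 2 ^ k * ((k : ℝ) * (y * (6 * L))) ≤ 2 ^ k * (k * (√(Y : ℝ) * (6 * L))) := by
        apply mul_le_mul_of_nonneg_left _ (by positivity)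
        apply mul_le_mul_of_nonneg_left _ (by positivity)
        exact mul_le_mul_of_nonneg_right hys (by positivity)
      have a3 : √(Y : ℝ) ≤ √(Y : ℝ) * L := le_mul_of_one_le_right hs0 (by linarith)
      calc _ ≤ √(Y : ℝ) * L + 2 ^ k * (k * (√(Y : ℝ) * (6 * L))) := by linarith
        _ = _ := by ring
    calc (∏ i, U i) * ((y : ℝ) ^ E + 2 ^ k * (k * (y * (6 * L)))) ≤ (3 * L) ^ k * (√(Y : ℝ) * ((1 + 2 ^ k * (k * 6)) * L)) :=
          mul_le_mul hUk a1 (by positivity) (by positivity)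
      _ = √(Y : ℝ) * (3 ^ k * (1 + 2 ^ k * (k * 6)) * L ^ (k + 1)) := by rw [mul_pow, pow_succ]; ring
      _ ≤ √(Y : ℝ) * √(Y : ℝ) := mul_le_mul_of_nonneg_left e1 hs0
      _ = Y := hss
      _ ≤ Y * G := le_mul_of_one_le_right hY0.le hG1
  have hmain : (∏ i, U i) * (2 * Y * (((2 ^ Q0) ^ k * ∏ i, Vz (lev i)) * G)) ≤
      2 * (2 ^ Q0) ^ k * C' ^ k * Y * G := by
    calc (∏ i, U i) * (2 * Y * (((2 ^ Q0) ^ k * ∏ i, Vz (lev i)) * G)) =
        ((∏ i, U i) * ∏ i, Vz (lev i)) * (2 * (2 ^ Q0) ^ k * Y * G) := by ring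
      _ ≤ C' ^ k * (2 * (2 ^ Q0) ^ k * Y * G) := by
          apply mul_le_mul_of_nonneg_right hUV
          have : 0 ≤ G := by linarith
          positivity
      _ = _ := by ring
  have hexk : 2 ^ k * ∑ n ∈ Icc (1 : ℤ) Y, ∑ i, ex n i ≤ 2 ^ k * (k * (y * (6 * L))) :=
    mul_le_mul_of_nonneg_left hexs (by positivity)
  calc (∏ i, U i) * (∑ n ∈ Icc (1 : ℤ) Y, ∏ i, r n i + 2 ^ k * ∑ n ∈ Icc (1 : ℤ) Y, ∑ i, ex n i)
      ≤ (∏ i, U i) * ((2 * Y * (((2 ^ Q0) ^ k * ∏ i, Vz (lev i)) * G) + (y : ℝ) ^ E) + 2 ^ k * (k * (y * (6 * L)))) := by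
        apply mul_le_mul_of_nonneg_left _ hUnn
        linarith
    _ = (∏ i, U i) * (2 * Y * (((2 ^ Q0) ^ k * ∏ i, Vz (lev i)) * G)) +
        (∏ i, U i) * ((y : ℝ) ^ E + 2 ^ k * (k * (y * (6 * L)))) := by ring
    _ ≤ 2 * (2 ^ Q0) ^ k * C' ^ k * Y * G + Y * G := add_le_add hmain hsmall
    _ = _ := by ring

end Pool.Agent.Y820.LF
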