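import Pool.Agent.Y820.LF.CG
import Pool.Agent.Y820.LF.SB

set_option autoImplicit false

/-! Admissibility after the correction of the residues, and the theorems for constant signs and for digits. -/

namespace Pool.Agent.Y820.LF
open Finset
open Pool.Agent.Y820.LT (S_R S_P Qp Qp_pos Qp_cop small_dvd)

lemma nuF_congr {k : ℕ} (C H H' : Fin k → ℤ) (p : ℕ) (h : ∀ i, (p : ℤ) ∣ H' i - H i) : nuF C H' p = nuF C H p := by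
  unfold nuF
  congr 1
  apply filter_congr
  intro r _
  have h1 : ∀ i, (p : ℤ) ∣ C i * (r : ℤ) + H' i ↔ (p : ℤ) ∣ C i * (r : ℤ) + H i := by
    intro i
    have h2 : C i * (r : ℤ) + H' i = (C i * (r : ℤ) + H i) + (H' i - H i) := by ring
    rw [h2]
    exact dvd_add_left (h i)
  simp only [h1]

lemma nuF_le {k : ℕ} (C H : Fin k → ℤ) (p : ℕ) (hp : p.Prime) (hC : ∀ i, ¬ (p : ℤ) ∣ C i) : nuF C H p ≤ k := by
  classical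
  choose rp h1 h2 using fun i => SBF.ex_rep (C i) (H i) p hp (hC i)
  unfold nuF
  calc _ ≤ (univ.image (fun i => rp i)).card := by
        apply card_le_card
        intro a ha
        rw [mem_filter, mem_range] at ha
        obtain ⟨i, hd⟩ := ha.2
        rw [mem_image]
        exact ⟨i, mem_univ _, (SBF.uniq_rep (C i) (H i) p hp (hC i) _ _ ha.1 (h1 i) hd (h2 i)).symm⟩
    _ ≤ _ := card_image_le.trans (by rw [card_univ, Fintype.card_fin])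

lemma adm_transfer {k : ℕ} (C H H' : Fin k → ℤ) (P : ℕ) (hk : k ≤ P) (hC : ∀ i, C i ≠ 0 ∧ |C i| ≤ P)
    (h : ∀ p : ℕ, p.Prime → p ≤ P → ∀ i, (p : ℤ) ∣ H' i - H i) (hadm : AdmF C H) : AdmF C H' := by
  intro p hp
  rcases le_or_gt p P with h1 | h1
  · rw [nuF_congr C H H' p (h p hp h1)]
    exact hadm p hp
  · refine lt_of_le_of_lt (nuF_le C H' p hp (fun i hd => ?_)) (by omega)
    obtain ⟨h2, h3⟩ := hC i
    have h4 : |C i| < (p : ℤ) := lt_of_le_of_lt h3 (by exact_mod_cast h1)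
    exact h2 (Int.eq_zero_of_abs_lt_dvd hd h4)

/-- the modulus -/
def QQ (b s Q0 : ℕ) : ℕ := Qp b (s + Q0)

lemma QQ_pos (b s Q0 : ℕ) : 0 < QQ b s Q0 := Qp_pos _ _

lemma QQ_cop (b s Q0 : ℕ) : Nat.Coprime b (QQ b s Q0) := Qp_cop _ _

/-- the sum of the powers is divisible by `b` -/
lemma dvd_b (b : ℕ) (e : ℕ → ℤ) (V : Finset ℕ) (hV : ∀ ν ∈ V, 1 ≤ ν) : (b : ℤ) ∣ ∑ ν ∈ V, e ν * (b : ℤ) ^ ν := by
  apply dvd_sum
  intro ν hν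
  exact Dvd.dvd.mul_left (dvd_pow_self _ (by have := hV ν hν; omega)) _

/-- the corrected constants are admissible, systems with the form `n` -/
lemma adm_cor1 {s : ℕ} (b Q0 : ℕ) (q h a : Fin s → ℤ) (hq : ∀ i, q i ≠ 0 ∧ |q i| ≤ Q0) (h1 : ∀ i, (QQ b s Q0 : ℤ) ∣ a i - h i)
    (h2 : ∀ i, (b : ℤ) ∣ a i - h i) (hadm : AdmF (C1 q) (H1 h)) : AdmF (C1 q) (H1 a) := by
  refine adm_transfer (C1 q) (H1 h) (H1 a) (s + Q0 + 1) (by omega) ?_ ?_ hadm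
  · intro i
    refine Fin.cases ?_ (fun i => ?_) i
    · rw [C1_zero]
      refine ⟨one_ne_zero, ?_⟩
      rw [abs_one]
      push_cast
      omega
    · rw [C1_succ]
      refine ⟨(hq i).1, (hq i).2.trans ?_⟩
      push_cast
      omega
  · intro p hp hp' i
    refine Fin.cases ?_ (fun i => ?_) i
    · rw [H1_zero, H1_zero, sub_self]
      exact dvd_zero _
    · rw [H1_succ, H1_succ]
      exact small_dvd b (s + Q0) _ (h1 i) (h2 i) p hp hp'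

/-- the corrected constants are admissible, systems without a fixed form -/
lemma adm_cor0 {s : ℕ} (b Q0 : ℕ) (q h a : Fin s → ℤ) (hq : ∀ i, q i ≠ 0 ∧ |q i| ≤ Q0) (h1 : ∀ i, (QQ b s Q0 : ℤ) ∣ a i - h i)
    (h2 : ∀ i, (b : ℤ) ∣ a i - h i) (hadm : AdmF q h) : AdmF q a := by
  refine adm_transfer q h a (s + Q0 + 1) (by omega) ?_ ?_ hadm
  · intro i
    refine ⟨(hq i).1, (hq i).2.trans ?_⟩
    push_cast
    omega
  · intro p hp hp' i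
    exact small_dvd b (s + Q0) _ (h1 i) (h2 i) p hp hp'

/-- the choice of all positions -/
lemma choose_U (b s Q0 : ℕ) (e : Fin s → ℕ → ℤ) (he : ∀ i ν, e i ν = 1 ∨ e i ν = -1) (S : Fin s → Finset ℕ)
    (hS : ∀ i, ∀ ν ∈ S i, (QQ b s Q0).totient * (2 * QQ b s Q0) + 1 ≤ ν) :
    ∃ U : Fin s → Finset ℕ, (∀ i, U i ⊆ Rsv (QQ b s Q0)) ∧ (∀ i, (QQ b s Q0 : ℤ) ∣ ∑ ν ∈ U i ∪ S i, e i ν * (b : ℤ) ^ ν) ∧
      (∀ i, (b : ℤ) ∣ ∑ ν ∈ U i ∪ S i, e i ν * (b : ℤ) ^ ν) := by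
  have h1 := fun i => flip_choice b (QQ b s Q0) (QQ_pos b s Q0) (QQ_cop b s Q0) (e i) (he i) (∑ ν ∈ S i, e i ν * (b : ℤ) ^ ν)
  choose U hU hU2 using h1
  refine ⟨U, hU, fun i => ?_, fun i => ?_⟩
  · rw [sum_union]
    · exact hU2 i
    · rw [disjoint_left]
      intro ν hν hν'
      have h3 := rsv_lt _ ν (hU i hν)
      have h4 := hS i ν hν'
      omega
  · apply dvd_b
    intro ν hν
    rcases mem_union.1 hν with h | h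
    · exact rsv_pos _ (QQ_pos b s Q0) ν (hU i h)
    · have := hS i ν h
      omega

/-- constant signs, systems with the form `n` -/
theorem con1 (hLim : S_lim) (hM1 : S_main1) (hTr : S_tr) (hSB : S_SBF) (hR : S_R) (hP : S_P) (b : ℕ) (hb : 2 ≤ b) (s : ℕ) (hs : 1 ≤ s)
    (Q0 B m : ℕ) (hQ0 : 1 ≤ Q0) (hm : 1 ≤ m) (ε ρ θ : ℝ) (hε : 0 < ε) (hρ : 0 < ρ) (hθ : 0 < θ) (hθ1 : θ ≤ 1) :
    ∃ D X₀ : ℕ, ∀ X : ℕ, X₀ ≤ X → ∀ σ : Fin s → ℤ, (∀ i, σ i = 1 ∨ σ i = -1) →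
    ∀ (κ : Type) (T : Finset κ) (q h : κ → Fin s → ℤ), (∀ g ∈ T, ∀ i, q g i ≠ 0 ∧ |q g i| ≤ Q0) →
    (∀ g ∈ T, ∀ i, |h g i| ≤ (B : ℤ) * X) →
    ∃ S : Fin s → Finset ℕ, (∀ i, (S i).card ≤ D) ∧ (∀ i, ∑ ν ∈ S i, (b : ℝ) ^ ν ≤ θ * X) ∧
      ∃ E ⊆ T, (E.card : ℝ) ≤ ρ * T.card ∧ ∀ g ∈ T, g ∉ E → ∀ a : Fin s → ℤ, (∀ i, a i = h g i + σ i * ∑ ν ∈ S i, (b : ℤ) ^ ν) →
        AdmF (C1 (q g)) (H1 (h g)) → AdmF (C1 (q g)) (H1 a) ∧ ∃ G : ℝ, 0 < G ∧ Filter.Tendsto (singF (C1 (q g)) (H1 a)) Filter.atTop (nhds G) ∧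
          ∀ N : ℕ, N ≤ X → X ≤ m * N → PosF (C1 (q g)) (H1 a) N →
          |(cntF (C1 (q g)) (H1 a) N : ℝ) - G * (N / Real.log N ^ (s + 1))| ≤ ε * (G * (N / Real.log N ^ (s + 1))) := by
  obtain ⟨D, X₀, hgen⟩ := gen1 hLim hM1 hTr hSB hR hP b hb s hs Q0 B (QQ b s Q0) m hQ0 (QQ_pos b s Q0) hm ε ρ θ hε hρ hθ hθ1
  refine ⟨D, X₀, fun X hX σ hσ κ T q h hq hh => ?_⟩
  obtain ⟨S, hS1, hS2, hS3, E, hET, hEc, hE⟩ := hgen X hX κ T q h (fun _ i _ => σ i) hq (fun _ _ i _ => hσ i) hh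
  obtain ⟨U, hU1, hU2, hU3⟩ := choose_U b s Q0 (fun i _ => σ i) (fun i _ => hσ i) S hS1
  have hsub : ∀ i, U i ∪ S i ⊆ Rsv (QQ b s Q0) ∪ S i := fun i => union_subset_union_left (hU1 i)
  refine ⟨fun i => U i ∪ S i, fun i => (card_le_card (hsub i)).trans (hS3 i), fun i => ?_, E, hET, hEc, ?_⟩
  · have h1 : ∑ ν ∈ U i ∪ S i, (b : ℝ) ^ ν ≤ ∑ ν ∈ Rsv (QQ b s Q0) ∪ S i, (b : ℝ) ^ ν :=
      sum_le_sum_of_subset_of_nonneg (hsub i) (fun ν _ _ => by positivity)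
    have h2 := hS2 i
    have h3 : (0 : ℝ) ≤ ∑ ν ∈ Rsv (QQ b s Q0) ∪ S i, (b : ℝ) ^ ν := sum_nonneg (fun ν _ => by positivity)
    have h4 : (1 : ℝ) ≤ b := by exact_mod_cast (by omega : 1 ≤ b)
    have h5 : 1 * ∑ ν ∈ Rsv (QQ b s Q0) ∪ S i, (b : ℝ) ^ ν ≤ b * ∑ ν ∈ Rsv (QQ b s Q0) ∪ S i, (b : ℝ) ^ ν :=
      mul_le_mul_of_nonneg_right h4 h3
    linarith
  · intro g hg hgE a ha hadm
    have ha' : ∀ i, a i = h g i + ∑ ν ∈ U i ∪ S i, σ i * (b : ℤ) ^ ν := by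
      intro i
      rw [ha i, mul_sum]
    have hd : ∀ i, a i - h g i = ∑ ν ∈ U i ∪ S i, σ i * (b : ℤ) ^ ν := by
      intro i
      rw [ha' i]
      ring
    have hadm' : AdmF (C1 (q g)) (H1 a) := by
      refine adm_cor1 b Q0 (q g) (h g) a (hq g hg) (fun i => ?_) (fun i => ?_) hadm
      · rw [hd i]; exact hU2 i
      · rw [hd i]; exact hU3 i
    exact ⟨hadm', hE g hg hgE U hU1 a ha' hadm'⟩

/-- constant signs, systems without a fixed form -/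
theorem con0 (hLim : S_lim) (hM0 : S_main0) (hTr : S_tr) (hSB : S_SBF) (hR : S_R) (hP : S_P) (b : ℕ) (hb : 2 ≤ b) (s : ℕ) (hs : 1 ≤ s)
    (Q0 B m : ℕ) (hQ0 : 1 ≤ Q0) (hm : 1 ≤ m) (ε ρ θ : ℝ) (hε : 0 < ε) (hρ : 0 < ρ) (hθ : 0 < θ) (hθ1 : θ ≤ 1) :
    ∃ D X₀ : ℕ, ∀ X : ℕ, X₀ ≤ X → ∀ σ : Fin s → ℤ, (∀ i, σ i = 1 ∨ σ i = -1) →
    ∀ (κ : Type) (T : Finset κ) (q h : κ → Fin s → ℤ), (∀ g ∈ T, ∀ i, q g i ≠ 0 ∧ |q g i| ≤ Q0) →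
    (∀ g ∈ T, ∀ i, |h g i| ≤ (B : ℤ) * X) →
    ∃ S : Fin s → Finset ℕ, (∀ i, (S i).card ≤ D) ∧ (∀ i, ∑ ν ∈ S i, (b : ℝ) ^ ν ≤ θ * X) ∧
      ∃ E ⊆ T, (E.card : ℝ) ≤ ρ * T.card ∧ ∀ g ∈ T, g ∉ E → ∀ a : Fin s → ℤ, (∀ i, a i = h g i + σ i * ∑ ν ∈ S i, (b : ℤ) ^ ν) →
        AdmF (q g) (h g) → AdmF (q g) a ∧ ∃ G : ℝ, 0 < G ∧ Filter.Tendsto (singF (q g) a) Filter.atTop (nhds G) ∧
          ∀ N : ℕ, N ≤ X → X ≤ m * N → PosF (q g) a N →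
          |(cntF (q g) a N : ℝ) - G * (N / Real.log N ^ s)| ≤ ε * (G * (N / Real.log N ^ s)) := by
  obtain ⟨D, X₀, hgen⟩ := gen0 hLim hM0 hTr hSB hR hP b hb s hs Q0 B (QQ b s Q0) m hQ0 (QQ_pos b s Q0) hm ε ρ θ hε hρ hθ hθ1
  refine ⟨D, X₀, fun X hX σ hσ κ T q h hq hh => ?_⟩
  obtain ⟨S, hS1, hS2, hS3, E, hET, hEc, hE⟩ := hgen X hX κ T q h (fun _ i _ => σ i) hq (fun _ _ i _ => hσ i) hh
  obtain ⟨U, hU1, hU2, hU3⟩ := choose_U b s Q0 (fun i _ => σ i) (fun i _ => hσ i) S hS1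
  have hsub : ∀ i, U i ∪ S i ⊆ Rsv (QQ b s Q0) ∪ S i := fun i => union_subset_union_left (hU1 i)
  refine ⟨fun i => U i ∪ S i, fun i => (card_le_card (hsub i)).trans (hS3 i), fun i => ?_, E, hET, hEc, ?_⟩
  · have h1 : ∑ ν ∈ U i ∪ S i, (b : ℝ) ^ ν ≤ ∑ ν ∈ Rsv (QQ b s Q0) ∪ S i, (b : ℝ) ^ ν :=
      sum_le_sum_of_subset_of_nonneg (hsub i) (fun ν _ _ => by positivity)
    have h2 := hS2 i
    have h3 : (0 : ℝ) ≤ ∑ ν ∈ Rsv (QQ b s Q0) ∪ S i, (b : ℝ) ^ ν := sum_nonneg (fun ν _ => by positivity)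
    have h4 : (1 : ℝ) ≤ b := by exact_mod_cast (by omega : 1 ≤ b)
    have h5 : 1 * ∑ ν ∈ Rsv (QQ b s Q0) ∪ S i, (b : ℝ) ^ ν ≤ b * ∑ ν ∈ Rsv (QQ b s Q0) ∪ S i, (b : ℝ) ^ ν :=
      mul_le_mul_of_nonneg_right h4 h3
    linarith
  · intro g hg hgE a ha hadm
    have ha' : ∀ i, a i = h g i + ∑ ν ∈ U i ∪ S i, σ i * (b : ℤ) ^ ν := by
      intro i
      rw [ha i, mul_sum]
    have hd : ∀ i, a i - h g i = ∑ ν ∈ U i ∪ S i, σ i * (b : ℤ) ^ ν := by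
      intro i
      rw [ha' i]
      ring
    have hadm' : AdmF (q g) a := by
      refine adm_cor0 b Q0 (q g) (h g) a (hq g hg) (fun i => ?_) (fun i => ?_) hadm
      · rw [hd i]; exact hU2 i
      · rw [hd i]; exact hU3 i
    exact ⟨hadm', hE g hg hgE U hU1 a ha' hadm'⟩

end Pool.Agent.Y820.LF
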