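import Pool.Agent.Y820.LF.CF

set_option autoImplicit false

/-! The general theorem for systems of linear forms which contain the form `n`. -/

namespace Pool.Agent.Y820.LF
open Finset
open Pool.Agent.H373R2.T7 (lamI lamzI lamz Vz Vz_pos Vz_inv_small lamI_nonneg lamzI_nonneg)
open Pool.Agent.Y820.LT (S_R S_P par_z)

/-- the coefficients, with the form `n` -/
def C1 {s : ℕ} (q : Fin s → ℤ) : Fin (s + 1) → ℤ := Fin.cons 1 q

/-- the constants, with the form `n` -/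
def H1 {s : ℕ} (a : Fin s → ℤ) : Fin (s + 1) → ℤ := Fin.cons 0 a

lemma C1_zero {s : ℕ} (q : Fin s → ℤ) : C1 q 0 = 1 := rfl
lemma C1_succ {s : ℕ} (q : Fin s → ℤ) (i : Fin s) : C1 q i.succ = q i := rfl
lemma H1_zero {s : ℕ} (a : Fin s → ℤ) : H1 a 0 = 0 := rfl
lemma H1_succ {s : ℕ} (a : Fin s → ℤ) (i : Fin s) : H1 a i.succ = a i := rfl

/-- the theorem for systems with the form `n` -/
theorem core1 (hLim : S_lim) (hM1 : S_main1) (hTr : S_tr) (hSB : S_SBF) (hR : S_R) (hP : S_P) (b : ℕ) (hb : 2 ≤ b) (s : ℕ) (hs : 1 ≤ s)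
    (Q0 B n P₀ m : ℕ) (hQ0 : 1 ≤ Q0) (hP₀ : 1 ≤ P₀) (hm : 1 ≤ m) (ε ρ θ : ℝ) (hε : 0 < ε) (hρ : 0 < ρ) (hθ : 0 < θ) (hθ1 : θ ≤ 1) :
    ∃ D X₀ : ℕ, ∀ X : ℕ, X₀ ≤ X →
    ∀ (κ : Type) (T : Finset κ) (F : κ → Cfg s), (∀ g ∈ T, (F g).H.card ≤ n) → (∀ g ∈ T, ∀ i, (F g).q i ≠ 0 ∧ |(F g).q i| ≤ Q0) →
    (∀ g ∈ T, ∀ i j, (F g).e i j ≠ 0 ∧ |(F g).e i j| < b) →
    (∀ g ∈ T, ∀ h ∈ (F g).H, ∀ i, |h i| ≤ (B : ℤ) * X) →
    ∃ S : Fin s → Finset ℕ, (∀ i, ∀ ν ∈ S i, P₀ ≤ ν) ∧ (∀ i, b * ∑ ν ∈ S i, (b : ℝ) ^ ν ≤ θ * X) ∧ (∀ i, (S i).card ≤ D) ∧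
      ∃ E ⊆ T, (E.card : ℝ) ≤ ρ * T.card ∧ ∀ g ∈ T, g ∉ E → ∀ h ∈ (F g).H, ∀ a : Fin s → ℤ, (∀ i, a i = h i + ∑ ν ∈ S i, (F g).e i ν * (b : ℤ) ^ ν) →
        AdmF (C1 (F g).q) (H1 a) → ∃ G : ℝ, 0 < G ∧ Filter.Tendsto (singF (C1 (F g).q) (H1 a)) Filter.atTop (nhds G) ∧
          ∀ N : ℕ, N ≤ X → X ≤ m * N → PosF (C1 (F g).q) (H1 a) N →
          |(cntF (C1 (F g).q) (H1 a) N : ℝ) - G * (N / Real.log N ^ (s + 1))| ≤ ε * (G * (N / Real.log N ^ (s + 1))) := by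
  obtain ⟨η, hη, M', n0, hM', hfin⟩ := finish hLim hTr (s + 1) Q0 (B + 1) m (by omega) hm ε hε
  obtain ⟨E1, D, X₀, hE1, hA⟩ := stageA hSB hR hP b hb s hs Q0 B n M' P₀ (2 * m) hQ0 hP₀ (by omega) η ρ θ hη hρ hθ hθ1
  obtain ⟨n1, hmain⟩ := hM1 s (E1 + 1) 1 hs
  obtain ⟨n2, hn2⟩ : ∃ n2 : ℕ, Real.exp (1 / η + 1) ≤ n2 := ⟨_, Nat.le_ceil _⟩
  refine ⟨D, X₀ + n0 + 2 * m * (n1 + n2 + 1), fun X hX κ T F hH hq he hHb => ?_⟩
  obtain ⟨z, hz2, hz3, hz4, hAX⟩ := hA X (by omega)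
  obtain ⟨S, hS1, hS2, hS3, E, hET, hEc, hE⟩ := hAX true κ T F hH hq he hHb
  refine ⟨S, hS1, hS2, hS3, E, hET, hEc, fun g hg hgE h hh' a ha hadm => ?_⟩
  obtain ⟨hd, hnd, hne, hgrid⟩ := hE g hg hgE h hh' a ha
  have hX0 : (0 : ℝ) < X := by
    have : 0 < 2 * m * (n1 + n2 + 1) := by positivity
    exact_mod_cast (by omega : 0 < X)
  have hlX : 1 ≤ Real.log X := by
    have h1 : Real.exp (1 / η + 1) ≤ X := by
      refine hn2.trans ?_
      have : n2 ≤ 2 * m * (n1 + n2 + 1) := by nlinarith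
      exact_mod_cast (by omega : n2 ≤ X)
    have h2 : 1 / η + 1 ≤ Real.log X := by rwa [Real.le_log_iff_exp_le hX0]
    have : 0 < 1 / η := by positivity
    linarith
  have hlog2 : Real.log X ^ 2 ≤ z := (pow_le_pow_right₀ hlX hE1).trans hz3
  refine hfin X (by omega) (C1 (F g).q) (H1 a) ?_ ?_ ?_ hadm z hlog2
    (fun n => ArithmeticFunction.vonMangoldt n * ∏ i, lamzI z ((F g).q i * (n : ℤ) + a i)) ?_ ?_ ?_
  · intro i
    refine Fin.cases ?_ (fun i => ?_) i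
    · rw [C1_zero]
      refine ⟨one_ne_zero, ?_⟩
      rw [abs_one]
      exact_mod_cast hQ0
    · rw [C1_succ]
      exact hq g hg i
  · intro i
    refine Fin.cases ?_ (fun i => ?_) i
    · rw [H1_zero, abs_zero]
      positivity
    · rw [H1_succ]
      have h1 := hHb g hg h hh' i
      have h2 : |a i - h i| ≤ (X : ℤ) := by
        have := (hd i).trans (mul_le_mul_of_nonneg_right hθ1 hX0.le)
        rw [one_mul] at this
        exact_mod_cast this
      have h3 := abs_add_le (a i - h i) (h i)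
      rw [sub_add_cancel] at h3
      push_cast
      linarith
  · intro i j
    refine Fin.cases ?_ (fun i => ?_) i
    · refine Fin.cases ?_ (fun j => ?_) j
      · intro h; exact absurd rfl h
      · intro _
        rw [C1_zero, H1_zero, H1_succ, C1_succ, one_mul, mul_zero]
        exact hne j
    · refine Fin.cases ?_ (fun j => ?_) j
      · intro _
        rw [C1_zero, H1_zero, H1_succ, C1_succ, one_mul, mul_zero]
        exact (hne i).symm
      · intro hij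
        rw [C1_succ, C1_succ, H1_succ, H1_succ]
        exact hnd i j (fun h => hij (by rw [h]))
  · rintro n hn ⟨i, hi⟩
    revert hi
    refine Fin.cases ?_ (fun i => ?_) i
    · rw [C1_zero, H1_zero]
      intro hi
      omega
    · rw [C1_succ, H1_succ]
      intro hi
      rw [prod_eq_zero (mem_univ i), mul_zero]
      unfold lamzI
      rw [if_neg (by omega)]
  · intro N' h1 h2 hpos
    have hN'n : n1 + n2 + 1 ≤ N' := by
      by_contra hcon
      push Not at hcon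
      have : 2 * m * N' < 2 * m * (n1 + n2 + 1) := Nat.mul_lt_mul_of_pos_left hcon (by positivity)
      omega
    have hN'0 : (0 : ℝ) < N' := by exact_mod_cast (by omega : 0 < N')
    have h3 := hmain N' (by omega) z (by omega) (hz4 N' h1 h2) (F g).q a (fun i => by
      have := hpos i.succ
      rwa [C1_succ, H1_succ] at this) hadm
    refine h3.trans ?_
    rw [pow_one]
    have h4 : 1 / η + 1 ≤ Real.log N' := by
      rw [Real.le_log_iff_exp_le hN'0]
      refine hn2.trans ?_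
      exact_mod_cast (by omega : n2 ≤ N')
    have h5 : 0 < 1 / η := by positivity
    rw [div_le_iff₀ (by linarith)]
    have h6 : (N' : ℝ) ≤ X := by exact_mod_cast h1
    have h7 : 1 ≤ η * Real.log N' := by
      have : η * (1 / η) ≤ η * Real.log N' := mul_le_mul_of_nonneg_left (by linarith) hη.le
      rwa [mul_one_div_cancel hη.ne'] at this
    nlinarith
  · intro g' hg'
    have h1 := hgrid g' hg'
    rw [← sum_sub_distrib]
    refine le_trans (le_of_eq ?_) h1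
    congr 1
    apply sum_congr rfl
    intro n hn
    have hn1 := (mem_Icc.1 hn).1
    unfold g0
    simp only [if_true]
    rw [Fin.prod_univ_succ, mul_sub]
    congr 1
    rw [C1_zero, H1_zero]
    congr 1
    unfold lamI
    rw [if_pos (by omega), one_mul, add_zero, Int.toNat_natCast]

end Pool.Agent.Y820.LF
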