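import Pool.Agent.Y820.LF.CF1

set_option autoImplicit false

/-! The general theorems with free reserved positions, and the choice of the reserved positions. -/

namespace Pool.Agent.Y820.LF
open Finset
open Pool.Agent.Y820.LT (S_R S_P)

/-- the reserved positions -/
def Rsv (Q : ℕ) : Finset ℕ := (Icc 1 (2 * Q)).image (fun l => Q.totient * l)

lemma rsv_pos (Q : ℕ) (hQ : 0 < Q) (ν : ℕ) (h : ν ∈ Rsv Q) : 1 ≤ ν := by
  unfold Rsv at h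
  obtain ⟨l, hl, rfl⟩ := mem_image.1 h
  exact Nat.mul_pos (Nat.totient_pos.2 hQ) (mem_Icc.1 hl).1

lemma rsv_lt (Q : ℕ) (ν : ℕ) (h : ν ∈ Rsv Q) : ν < Q.totient * (2 * Q) + 1 := by
  unfold Rsv at h
  obtain ⟨l, hl, rfl⟩ := mem_image.1 h
  exact Nat.lt_succ_of_le (Nat.mul_le_mul_left _ (mem_Icc.1 hl).2)

lemma rsv_mod (b Q : ℕ) (hbQ : Nat.Coprime b Q) (ν : ℕ) (h : ν ∈ Rsv Q) : (Q : ℤ) ∣ (b : ℤ) ^ ν - 1 := by
  unfold Rsv at h
  obtain ⟨l, hl, rfl⟩ := mem_image.1 h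
  have h1 : b ^ (Q.totient * l) ≡ 1 [MOD Q] := by
    rw [pow_mul]
    have := (Nat.ModEq.pow_totient hbQ).pow l
    rwa [one_pow] at this
  have h2 := (Int.natCast_modEq_iff.2 h1).symm.dvd
  push_cast at h2
  exact h2

lemma rsv_card (Q : ℕ) (hQ : 0 < Q) : (Rsv Q).card = 2 * Q := by
  unfold Rsv
  rw [card_image_of_injOn, Nat.card_Icc, Nat.add_sub_cancel]
  intro x _ y _ hxy
  exact Nat.eq_of_mul_eq_mul_left (Nat.totient_pos.2 hQ) hxy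

/-- the choice of the reserved positions -/
lemma flip_choice (b Q : ℕ) (hQ : 0 < Q) (hbQ : Nat.Coprime b Q) (e : ℕ → ℤ) (he : ∀ ν, e ν = 1 ∨ e ν = -1) (v : ℤ) :
    ∃ U ⊆ Rsv Q, (Q : ℤ) ∣ ∑ ν ∈ U, e ν * (b : ℤ) ^ ν + v := by
  classical
  have hQ' : (0 : ℤ) < (Q : ℤ) := by exact_mod_cast hQ
  -- one of the signs occurs often
  obtain ⟨σ, hσ, hcard⟩ : ∃ σ : ℤ, (σ = 1 ∨ σ = -1) ∧ Q ≤ ((Rsv Q).filter (fun ν => e ν = σ)).card := by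
    by_contra hcon
    push Not at hcon
    have h1 := hcon 1 (Or.inl rfl)
    have h2 := hcon (-1) (Or.inr rfl)
    have h3 : Rsv Q = (Rsv Q).filter (fun ν => e ν = 1) ∪ (Rsv Q).filter (fun ν => e ν = -1) := by
      ext ν
      rw [mem_union, mem_filter, mem_filter]
      constructor
      · intro h
        rcases he ν with h4 | h4
        · exact Or.inl ⟨h, h4⟩
        · exact Or.inr ⟨h, h4⟩
      · rintro (h | h) <;> exact h.1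
    have h4 := rsv_card Q hQ
    have h5 := card_union_le ((Rsv Q).filter (fun ν => e ν = 1)) ((Rsv Q).filter (fun ν => e ν = -1))
    rw [← h3] at h5
    omega
  obtain ⟨u, hu⟩ : ∃ u : ℕ, (u : ℤ) = (-(σ * v)) % (Q : ℤ) := by
    have := Int.emod_nonneg (-(σ * v)) hQ'.ne'
    exact ⟨_, Int.toNat_of_nonneg this⟩
  have huQ : u ≤ Q := by
    have := Int.emod_lt_of_pos (-(σ * v)) hQ'
    rw [← hu] at this
    exact_mod_cast this.le
  obtain ⟨U, hU, hUc⟩ := exists_subset_card_eq (huQ.trans hcard)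
  refine ⟨U, hU.trans (filter_subset _ _), ?_⟩
  have h1 : (Q : ℤ) ∣ ∑ ν ∈ U, e ν * (b : ℤ) ^ ν - σ * u := by
    have h2 : ∑ ν ∈ U, e ν * (b : ℤ) ^ ν - σ * u = ∑ ν ∈ U, σ * ((b : ℤ) ^ ν - 1) := by
      have h3 : ∑ ν ∈ U, e ν * (b : ℤ) ^ ν = ∑ ν ∈ U, σ * (b : ℤ) ^ ν :=
        sum_congr rfl (fun ν hν => by rw [(mem_filter.1 (hU hν)).2])
      rw [h3]
      simp only [mul_sub, mul_one]
      rw [sum_sub_distrib, sum_const, hUc, nsmul_eq_mul]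
      ring
    rw [h2]
    apply dvd_sum
    intro ν hν
    exact Dvd.dvd.mul_left (rsv_mod b Q hbQ ν (mem_filter.1 (hU hν)).1) _
  have h2 : (Q : ℤ) ∣ σ * u + v := by
    have h3 := Int.emod_add_mul_ediv (-(σ * v)) (Q : ℤ)
    rw [← hu] at h3
    have h4 : σ * σ = 1 := by rcases hσ with rfl | rfl <;> norm_num
    refine ⟨-(σ * (-(σ * v) / (Q : ℤ))), ?_⟩
    have h5 : (u : ℤ) = -(σ * v) - (Q : ℤ) * (-(σ * v) / (Q : ℤ)) := by linarith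
    rw [h5]
    linear_combination (-v) * h4
  have : ∑ ν ∈ U, e ν * (b : ℤ) ^ ν + v = (∑ ν ∈ U, e ν * (b : ℤ) ^ ν - σ * u) + (σ * u + v) := by ring
  rw [this]
  exact dvd_add h1 h2

/-- the family of the corrected constants -/
noncomputable def famU {s : ℕ} (b Q : ℕ) (e : Fin s → ℕ → ℤ) (h : Fin s → ℤ) : Finset (Fin s → ℤ) := by
  classical
  exact (Fintype.piFinset (fun _ : Fin s => (Rsv Q).powerset)).image (fun U i => h i + ∑ ν ∈ U i, e i ν * (b : ℤ) ^ ν)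

lemma famU_card {s : ℕ} (b Q : ℕ) (e : Fin s → ℕ → ℤ) (h : Fin s → ℤ) : (famU b Q e h).card ≤ (2 ^ (Rsv Q).card) ^ s := by
  classical
  unfold famU
  refine card_image_le.trans ?_
  rw [Fintype.card_piFinset, prod_const, card_powerset, card_univ, Fintype.card_fin]

lemma famU_mem {s : ℕ} (b Q : ℕ) (e : Fin s → ℕ → ℤ) (h : Fin s → ℤ) (U : Fin s → Finset ℕ) (hU : ∀ i, U i ⊆ Rsv Q) :
    (fun i => h i + ∑ ν ∈ U i, e i ν * (b : ℤ) ^ ν) ∈ famU b Q e h := by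
  classical
  unfold famU
  rw [mem_image]
  exact ⟨U, Fintype.mem_piFinset.2 (fun i => mem_powerset.2 (hU i)), rfl⟩

lemma sum_abs_le (b : ℕ) (e : ℕ → ℤ) (he : ∀ ν, e ν = 1 ∨ e ν = -1) (U V : Finset ℕ) (hUV : U ⊆ V) :
    |∑ ν ∈ U, e ν * (b : ℤ) ^ ν| ≤ ∑ ν ∈ V, (b : ℤ) ^ ν := by
  refine (abs_sum_le_sum_abs _ _).trans ?_
  refine le_trans (le_of_eq (sum_congr rfl (fun ν _ => ?_))) (sum_le_sum_of_subset_of_nonneg hUV (fun ν _ _ => by positivity))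
  rw [abs_mul]
  rcases he ν with h | h <;> rw [h] <;> simp

/-- the general theorem with free reserved positions, systems with the form `n` -/
theorem gen1 (hLim : S_lim) (hM1 : S_main1) (hTr : S_tr) (hSB : S_SBF) (hR : S_R) (hP : S_P) (b : ℕ) (hb : 2 ≤ b) (s : ℕ) (hs : 1 ≤ s)
    (Q0 B Q m : ℕ) (hQ0 : 1 ≤ Q0) (hQ : 0 < Q) (hm : 1 ≤ m) (ε ρ θ : ℝ) (hε : 0 < ε) (hρ : 0 < ρ) (hθ : 0 < θ) (hθ1 : θ ≤ 1) :
    ∃ D X₀ : ℕ, ∀ X : ℕ, X₀ ≤ X →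
    ∀ (κ : Type) (T : Finset κ) (q h : κ → Fin s → ℤ) (e : κ → Fin s → ℕ → ℤ), (∀ g ∈ T, ∀ i, q g i ≠ 0 ∧ |q g i| ≤ Q0) →
    (∀ g ∈ T, ∀ i j, e g i j = 1 ∨ e g i j = -1) → (∀ g ∈ T, ∀ i, |h g i| ≤ (B : ℤ) * X) →
    ∃ S : Fin s → Finset ℕ, (∀ i, ∀ ν ∈ S i, Q.totient * (2 * Q) + 1 ≤ ν) ∧ (∀ i, b * ∑ ν ∈ Rsv Q ∪ S i, (b : ℝ) ^ ν ≤ θ * X) ∧
      (∀ i, (Rsv Q ∪ S i).card ≤ D) ∧
      ∃ E ⊆ T, (E.card : ℝ) ≤ ρ * T.card ∧ ∀ g ∈ T, g ∉ E → ∀ U : Fin s → Finset ℕ, (∀ i, U i ⊆ Rsv Q) → ∀ a : Fin s → ℤ,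
        (∀ i, a i = h g i + ∑ ν ∈ U i ∪ S i, e g i ν * (b : ℤ) ^ ν) →
        AdmF (C1 (q g)) (H1 a) → ∃ G : ℝ, 0 < G ∧ Filter.Tendsto (singF (C1 (q g)) (H1 a)) Filter.atTop (nhds G) ∧
          ∀ N : ℕ, N ≤ X → X ≤ m * N → PosF (C1 (q g)) (H1 a) N →
          |(cntF (C1 (q g)) (H1 a) N : ℝ) - G * (N / Real.log N ^ (s + 1))| ≤ ε * (G * (N / Real.log N ^ (s + 1))) := by
  classical
  obtain ⟨D, X₀, hcore⟩ := core1 hLim hM1 hTr hSB hR hP b hb s hs Q0 (B + 1) ((2 ^ (Rsv Q).card) ^ s) (Q.totient * (2 * Q) + 1) m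
    hQ0 (by omega) hm ε ρ (θ / 2) hε hρ (by positivity) (by linarith)
  obtain ⟨c, hc⟩ : ∃ c : ℕ, c = ∑ ν ∈ Rsv Q, b ^ ν := ⟨_, rfl⟩
  obtain ⟨x1, hx1⟩ := exists_nat_ge (2 * (b * c : ℝ) / θ)
  refine ⟨(Rsv Q).card + D, X₀ + c + x1, fun X hX κ T q h e hq he hh => ?_⟩
  obtain ⟨S, hS1, hS2, hS3, E, hET, hEc, hE⟩ := hcore X (by omega) κ T (fun g => ⟨q g, e g, famU b Q (e g) (h g)⟩)
    (fun g _ => famU_card b Q (e g) (h g)) hq (fun g hg i j => by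
      rcases he g hg i j with h1 | h1 <;> simp only [h1] <;> constructor
      · norm_num
      · rw [abs_one]; exact_mod_cast (by omega : 1 < b)
      · norm_num
      · rw [abs_neg, abs_one]; exact_mod_cast (by omega : 1 < b))
    (fun g hg h' hh' i => by
      simp only at hh'
      unfold famU at hh'
      obtain ⟨U, hU, rfl⟩ := mem_image.1 hh'
      have hUi : U i ⊆ Rsv Q := mem_powerset.1 (Fintype.mem_piFinset.1 hU i)
      have h1 := hh g hg i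
      have h2 := sum_abs_le b (e g i) (he g hg i) (U i) (Rsv Q) hUi
      have h3 : (∑ ν ∈ Rsv Q, (b : ℤ) ^ ν) = (c : ℤ) := by rw [hc]; push_cast; rfl
      have h4 : (c : ℤ) ≤ X := by exact_mod_cast (by omega : c ≤ X)
      refine (abs_add_le _ _).trans ?_
      push_cast
      linarith)
  have hdisj : ∀ U : Finset ℕ, U ⊆ Rsv Q → ∀ i, Disjoint U (S i) := by
    intro U hU i
    rw [disjoint_left]
    intro ν h1 h2
    have h3 := rsv_lt Q ν (hU h1)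
    have h4 := hS1 i ν h2
    omega
  refine ⟨S, hS1, ?_, ?_, E, hET, hEc, ?_⟩
  · intro i
    rw [sum_union (hdisj _ (Subset.refl _) i), mul_add]
    have h1 := hS2 i
    have h2 : (b : ℝ) * ∑ ν ∈ Rsv Q, (b : ℝ) ^ ν ≤ θ / 2 * X := by
      have h3 : (∑ ν ∈ Rsv Q, (b : ℝ) ^ ν) = (c : ℝ) := by rw [hc]; push_cast; rfl
      rw [h3]
      have h4 : (x1 : ℝ) ≤ X := by exact_mod_cast (by omega : x1 ≤ X)
      have h5 : 2 * (b * c : ℝ) / θ ≤ X := hx1.trans h4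
      rw [div_le_iff₀ hθ] at h5
      linarith
    linarith
  · intro i
    refine (card_union_le _ _).trans ?_
    have := hS3 i
    omega
  · intro g hg hgE U hU a ha hadm
    refine hE g hg hgE _ (famU_mem b Q (e g) (h g) U hU) a ?_ hadm
    intro i
    rw [ha i, sum_union (hdisj _ (hU i) i)]
    simp only
    ring

/-- the general theorem with free reserved positions, systems without a fixed form -/
theorem gen0 (hLim : S_lim) (hM0 : S_main0) (hTr : S_tr) (hSB : S_SBF) (hR : S_R) (hP : S_P) (b : ℕ) (hb : 2 ≤ b) (s : ℕ) (hs : 1 ≤ s)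
    (Q0 B Q m : ℕ) (hQ0 : 1 ≤ Q0) (hQ : 0 < Q) (hm : 1 ≤ m) (ε ρ θ : ℝ) (hε : 0 < ε) (hρ : 0 < ρ) (hθ : 0 < θ) (hθ1 : θ ≤ 1) :
    ∃ D X₀ : ℕ, ∀ X : ℕ, X₀ ≤ X →
    ∀ (κ : Type) (T : Finset κ) (q h : κ → Fin s → ℤ) (e : κ → Fin s → ℕ → ℤ), (∀ g ∈ T, ∀ i, q g i ≠ 0 ∧ |q g i| ≤ Q0) →
    (∀ g ∈ T, ∀ i j, e g i j = 1 ∨ e g i j = -1) → (∀ g ∈ T, ∀ i, |h g i| ≤ (B : ℤ) * X) →
    ∃ S : Fin s → Finset ℕ, (∀ i, ∀ ν ∈ S i, Q.totient * (2 * Q) + 1 ≤ ν) ∧ (∀ i, b * ∑ ν ∈ Rsv Q ∪ S i, (b : ℝ) ^ ν ≤ θ * X) ∧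
      (∀ i, (Rsv Q ∪ S i).card ≤ D) ∧
      ∃ E ⊆ T, (E.card : ℝ) ≤ ρ * T.card ∧ ∀ g ∈ T, g ∉ E → ∀ U : Fin s → Finset ℕ, (∀ i, U i ⊆ Rsv Q) → ∀ a : Fin s → ℤ,
        (∀ i, a i = h g i + ∑ ν ∈ U i ∪ S i, e g i ν * (b : ℤ) ^ ν) →
        AdmF (q g) a → ∃ G : ℝ, 0 < G ∧ Filter.Tendsto (singF (q g) a) Filter.atTop (nhds G) ∧
          ∀ N : ℕ, N ≤ X → X ≤ m * N → PosF (q g) a N →
          |(cntF (q g) a N : ℝ) - G * (N / Real.log N ^ s)| ≤ ε * (G * (N / Real.log N ^ s)) := by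
  classical
  obtain ⟨D, X₀, hcore⟩ := core0 hLim hM0 hTr hSB hR hP b hb s hs Q0 (B + 1) ((2 ^ (Rsv Q).card) ^ s) (Q.totient * (2 * Q) + 1) m
    hQ0 (by omega) hm ε ρ (θ / 2) hε hρ (by positivity) (by linarith)
  obtain ⟨c, hc⟩ : ∃ c : ℕ, c = ∑ ν ∈ Rsv Q, b ^ ν := ⟨_, rfl⟩
  obtain ⟨x1, hx1⟩ := exists_nat_ge (2 * (b * c : ℝ) / θ)
  refine ⟨(Rsv Q).card + D, X₀ + c + x1, fun X hX κ T q h e hq he hh => ?_⟩
  obtain ⟨S, hS1, hS2, hS3, E, hET, hEc, hE⟩ := hcore X (by omega) κ T (fun g => ⟨q g, e g, famU b Q (e g) (h g)⟩)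
    (fun g _ => famU_card b Q (e g) (h g)) hq (fun g hg i j => by
      rcases he g hg i j with h1 | h1 <;> simp only [h1] <;> constructor
      · norm_num
      · rw [abs_one]; exact_mod_cast (by omega : 1 < b)
      · norm_num
      · rw [abs_neg, abs_one]; exact_mod_cast (by omega : 1 < b))
    (fun g hg h' hh' i => by
      simp only at hh'
      unfold famU at hh'
      obtain ⟨U, hU, rfl⟩ := mem_image.1 hh'
      have hUi : U i ⊆ Rsv Q := mem_powerset.1 (Fintype.mem_piFinset.1 hU i)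
      have h1 := hh g hg i
      have h2 := sum_abs_le b (e g i) (he g hg i) (U i) (Rsv Q) hUi
      have h3 : (∑ ν ∈ Rsv Q, (b : ℤ) ^ ν) = (c : ℤ) := by rw [hc]; push_cast; rfl
      have h4 : (c : ℤ) ≤ X := by exact_mod_cast (by omega : c ≤ X)
      refine (abs_add_le _ _).trans ?_
      push_cast
      linarith)
  have hdisj : ∀ U : Finset ℕ, U ⊆ Rsv Q → ∀ i, Disjoint U (S i) := by
    intro U hU i
    rw [disjoint_left]
    intro ν h1 h2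
    have h3 := rsv_lt Q ν (hU h1)
    have h4 := hS1 i ν h2
    omega
  refine ⟨S, hS1, ?_, ?_, E, hET, hEc, ?_⟩
  · intro i
    rw [sum_union (hdisj _ (Subset.refl _) i), mul_add]
    have h1 := hS2 i
    have h2 : (b : ℝ) * ∑ ν ∈ Rsv Q, (b : ℝ) ^ ν ≤ θ / 2 * X := by
      have h3 : (∑ ν ∈ Rsv Q, (b : ℝ) ^ ν) = (c : ℝ) := by rw [hc]; push_cast; rfl
      rw [h3]
      have h4 : (x1 : ℝ) ≤ X := by exact_mod_cast (by omega : x1 ≤ X)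
      have h5 : 2 * (b * c : ℝ) / θ ≤ X := hx1.trans h4
      rw [div_le_iff₀ hθ] at h5
      linarith
    linarith
  · intro i
    refine (card_union_le _ _).trans ?_
    have := hS3 i
    omega
  · intro g hg hgE U hU a ha hadm
    refine hE g hg hgE _ (famU_mem b Q (e g) (h g) U hU) a ?_ hadm
    intro i
    rw [ha i, sum_union (hdisj _ (hU i) i)]
    simp only
    ring

end Pool.Agent.Y820.LF
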