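import Pool.Agent.Y820.LF.AP

set_option autoImplicit false

/-! Changes of digits. -/

namespace Pool.Agent.Y820.LF
open Finset
open Pool.Agent.Y820.LT (S_R S_P)

lemma flip_up (b : ℕ) (hb : 2 ≤ b) (u μ : ℕ) (hd : u / b ^ μ % b + 1 < b) (ν : ℕ) (hν : ν ≠ μ) :
    (u + b ^ μ) / b ^ ν % b = u / b ^ ν % b := by
  have hpos : ∀ k : ℕ, 0 < b ^ k := fun k => Nat.pow_pos (by omega)
  rcases lt_or_gt_of_ne hν with h | h
  · obtain ⟨t, rfl⟩ : ∃ t, μ = ν + (t + 1) := ⟨μ - ν - 1, by omega⟩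
    rw [pow_add, Nat.add_mul_div_left _ _ (hpos ν), pow_succ', Nat.add_mul_mod_self_left]
  · obtain ⟨t, rfl⟩ : ∃ t, ν = (μ + 1) + t := ⟨ν - μ - 1, by omega⟩
    rw [pow_add, ← Nat.div_div_eq_div_mul, ← Nat.div_div_eq_div_mul, pow_succ, ← Nat.div_div_eq_div_mul, ← Nat.div_div_eq_div_mul,
      Nat.add_div_right _ (hpos μ), Nat.succ_div, if_neg, add_zero]
    intro hdv
    have h1 : (u / b ^ μ % b + 1) % b = 0 := by
      rw [Nat.mod_add_mod]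
      exact Nat.mod_eq_zero_of_dvd hdv
    rw [Nat.mod_eq_of_lt hd] at h1
    omega

lemma flip_down (b : ℕ) (hb : 2 ≤ b) (w μ : ℕ) (hd : 1 ≤ w / b ^ μ % b) : ∃ u : ℕ, w = u + b ^ μ ∧
    ∀ ν, ν ≠ μ → u / b ^ ν % b = w / b ^ ν % b := by
  have hpos : 0 < b ^ μ := Nat.pow_pos (by omega)
  have h1 : b ^ μ ≤ w := by
    by_contra hcon
    rw [Nat.div_eq_of_lt (not_le.1 hcon), Nat.zero_mod] at hd
    omega
  obtain ⟨u, rfl⟩ : ∃ u, w = u + b ^ μ := ⟨w - b ^ μ, by omega⟩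
  refine ⟨u, rfl, fun ν hν => (flip_up b hb u μ ?_ ν hν).symm⟩
  rw [Nat.add_div_right _ hpos] at hd
  have h2 : u / b ^ μ % b < b := Nat.mod_lt _ (by omega)
  by_contra hcon
  have h3 : u / b ^ μ % b + 1 = b := by omega
  have h4 : (u / b ^ μ + 1) % b = 0 := by
    rw [← Nat.mod_add_mod, h3, Nat.mod_self]
  rw [h4] at hd
  omega

/-- the direction of the change of the digit -/
def sg (b n ν : ℕ) : ℤ := if n / b ^ ν % b + 1 < b then 1 else -1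

lemma sg_pm (b n ν : ℕ) : sg b n ν = 1 ∨ sg b n ν = -1 := by
  unfold sg
  split_ifs
  · exact Or.inl rfl
  · exact Or.inr rfl

lemma flips (b : ℕ) (hb : 2 ≤ b) (n : ℕ) (V : Finset ℕ) : ∃ a : ℕ, (a : ℤ) = n + ∑ ν ∈ V, sg b n ν * (b : ℤ) ^ ν ∧
    ∀ ν, ν ∉ V → a / b ^ ν % b = n / b ^ ν % b := by
  classical
  induction V using Finset.induction_on with
  | empty => exact ⟨n, by simp, fun _ _ => rfl⟩
  | insert μ V hμ ih =>
    obtain ⟨a', ha', hdig⟩ := ih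
    have h1 := hdig μ hμ
    by_cases hc : n / b ^ μ % b + 1 < b
    · refine ⟨a' + b ^ μ, ?_, fun ν hν => ?_⟩
      · rw [sum_insert hμ]
        push_cast
        rw [ha']
        have : sg b n μ = 1 := by unfold sg; rw [if_pos hc]
        rw [this]
        ring
      · rw [mem_insert, not_or] at hν
        rw [flip_up b hb a' μ (by rw [h1]; exact hc) ν hν.1]
        exact hdig ν hν.2
    · have h2 : n / b ^ μ % b < b := Nat.mod_lt _ (by omega)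
      obtain ⟨u, hu1, hu2⟩ := flip_down b hb a' μ (by rw [h1]; omega)
      refine ⟨u, ?_, fun ν hν => ?_⟩
      · rw [sum_insert hμ]
        have h3 : (a' : ℤ) = u + (b : ℤ) ^ μ := by rw [hu1]; push_cast; rfl
        have : sg b n μ = -1 := by unfold sg; rw [if_neg hc]
        rw [this]
        linarith
      · rw [mem_insert, not_or] at hν
        rw [hu2 ν hν.1]
        exact hdig ν hν.2

/-- changes of digits, systems with the form `n` -/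
theorem dig1 (hLim : S_lim) (hM1 : S_main1) (hTr : S_tr) (hSB : S_SBF) (hR : S_R) (hP : S_P) (b : ℕ) (hb : 2 ≤ b) (s : ℕ) (hs : 1 ≤ s)
    (Q0 B m : ℕ) (hQ0 : 1 ≤ Q0) (hm : 1 ≤ m) (ε ρ θ : ℝ) (hε : 0 < ε) (hρ : 0 < ρ) (hθ : 0 < θ) (hθ1 : θ ≤ 1) :
    ∃ D X₀ : ℕ, ∀ X : ℕ, X₀ ≤ X → ∀ (κ : Type) (T : Finset κ) (q : κ → Fin s → ℤ) (h : κ → Fin s → ℕ),
    (∀ g ∈ T, ∀ i, q g i ≠ 0 ∧ |q g i| ≤ Q0) → (∀ g ∈ T, ∀ i, h g i ≤ B * X) →
    ∃ V : Fin s → Finset ℕ, (∀ i, (V i).card ≤ D) ∧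
      ∃ E ⊆ T, (E.card : ℝ) ≤ ρ * T.card ∧ ∀ g ∈ T, g ∉ E → AdmF (C1 (q g)) (H1 (fun i => (h g i : ℤ))) →
        ∃ a : Fin s → ℕ, (∀ i, ∀ ν, ν ∉ V i → a i / b ^ ν % b = h g i / b ^ ν % b) ∧ (∀ i, |(a i : ℝ) - h g i| ≤ θ * X) ∧
        AdmF (C1 (q g)) (H1 (fun i => (a i : ℤ))) ∧ ∃ G : ℝ, 0 < G ∧
          Filter.Tendsto (singF (C1 (q g)) (H1 (fun i => (a i : ℤ)))) Filter.atTop (nhds G) ∧
          ∀ N : ℕ, N ≤ X → X ≤ m * N → PosF (C1 (q g)) (H1 (fun i => (a i : ℤ))) N →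
          |(cntF (C1 (q g)) (H1 (fun i => (a i : ℤ))) N : ℝ) - G * (N / Real.log N ^ (s + 1))| ≤ ε * (G * (N / Real.log N ^ (s + 1))) := by
  obtain ⟨D, X₀, hgen⟩ := gen1 hLim hM1 hTr hSB hR hP b hb s hs Q0 B (QQ b s Q0) m hQ0 (QQ_pos b s Q0) hm ε ρ θ hε hρ hθ hθ1
  refine ⟨D, X₀, fun X hX κ T q h hq hh => ?_⟩
  obtain ⟨S, hS1, hS2, hS3, E, hET, hEc, hE⟩ := hgen X hX κ T q (fun g i => (h g i : ℤ)) (fun g i ν => sg b (h g i) ν) hq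
    (fun g _ i j => sg_pm b (h g i) j) (fun g hg i => by
      rw [abs_of_nonneg (by positivity)]
      exact_mod_cast hh g hg i)
  refine ⟨fun i => Rsv (QQ b s Q0) ∪ S i, hS3, E, hET, hEc, fun g hg hgE hadm => ?_⟩
  obtain ⟨U, hU1, hU2, hU3⟩ := choose_U b s Q0 (fun i ν => sg b (h g i) ν) (fun i ν => sg_pm b (h g i) ν) S hS1
  have hsub : ∀ i, U i ∪ S i ⊆ Rsv (QQ b s Q0) ∪ S i := fun i => union_subset_union_left (hU1 i)
  have hfl := fun i => flips b hb (h g i) (U i ∪ S i)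
  choose a ha1 ha2 using hfl
  have hd : ∀ i, (a i : ℤ) - (h g i : ℤ) = ∑ ν ∈ U i ∪ S i, sg b (h g i) ν * (b : ℤ) ^ ν := by
    intro i
    rw [ha1 i]
    ring
  have hadm' : AdmF (C1 (q g)) (H1 (fun i => (a i : ℤ))) := by
    refine adm_cor1 b Q0 (q g) (fun i => (h g i : ℤ)) (fun i => (a i : ℤ)) (hq g hg) (fun i => ?_) (fun i => ?_) hadm
    · rw [hd i]
      exact hU2 i
    · rw [hd i]
      exact hU3 i
  refine ⟨a, fun i ν hν => ha2 i ν (fun hc => hν (hsub i hc)), fun i => ?_, hadm', ?_⟩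
  · have h1 := sum_abs_le b (fun ν => sg b (h g i) ν) (fun ν => sg_pm b (h g i) ν) (U i ∪ S i) (Rsv (QQ b s Q0) ∪ S i) (hsub i)
    rw [← hd i] at h1
    have h2 : |(a i : ℝ) - h g i| ≤ ∑ ν ∈ Rsv (QQ b s Q0) ∪ S i, (b : ℝ) ^ ν := by exact_mod_cast h1
    have h3 := hS2 i
    have h4 : (0 : ℝ) ≤ ∑ ν ∈ Rsv (QQ b s Q0) ∪ S i, (b : ℝ) ^ ν := sum_nonneg (fun ν _ => by positivity)
    have h5 : (1 : ℝ) ≤ b := by exact_mod_cast (by omega : 1 ≤ b)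
    have h6 : 1 * ∑ ν ∈ Rsv (QQ b s Q0) ∪ S i, (b : ℝ) ^ ν ≤ b * ∑ ν ∈ Rsv (QQ b s Q0) ∪ S i, (b : ℝ) ^ ν :=
      mul_le_mul_of_nonneg_right h5 h4
    linarith
  · exact hE g hg hgE U hU1 (fun i => (a i : ℤ)) (fun i => ha1 i) hadm'

end Pool.Agent.Y820.LF
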