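import Pool.Agent.Y820.LF.TF
import Pool.Agent.Y820.LT.G3

set_option autoImplicit false

/-! The existence of a good choice, for all but a small proportion of a family of systems of linear forms. -/

namespace Pool.Agent.Y820.LF
open Finset
open Pool.Agent.H373R2.T7 (lamI lamzI lamz Vz Vz_pos Vz_inv_small lamI_nonneg lamzI_nonneg)
open Pool.Agent.W93.HD (gg one_le_gg)
open Pool.Agent.W93.DG (hh logX hh_small)
open Pool.Agent.TH894.SM (dl Om Pos)
open Pool.Agent.Y820.LT (S_R S_P w wc w_nonneg wc_nonneg wc_le w_zero w_le Ch shf PP gam gam_le Blk psi_even prod_le_sum_pow shf_upd shf_upd_ne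
  Gc PC PC_eq Gc_supp upd_sum gram B3 B3_nonneg B3_sum B3_use expo expo_card blk_inj blk_card exists_small2 icc_cast telescope)

/-- the sets of positions exist; the first and the last positions are not used -/
theorem blocks (b : ℕ) (hb : 2 ≤ b) (R A t' P₀ P₁ : ℕ) (hR : 1 ≤ R) (hA : 1 ≤ A) (hP : 1 ≤ P₀) : ∃ R' : ℕ, 1 ≤ R' ∧
    ∀ n : ℕ, ∃ k₀ : ℕ, ∀ K : ℕ, k₀ ≤ K →
    ∃ (J : Fin 3 → Finset ℕ) (J' : Fin t' → Finset ℕ), Pos b R K (hh b A K) J ∧ Blk K R' J' ∧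
      (∀ q, J q ⊆ Ico P₀ (K - 1 - P₁)) ∧ (∀ m, J' m ⊆ Ico P₀ (K - 1 - P₁)) ∧ (∀ q m, Disjoint (J q) (J' m)) ∧
      (∀ q, n ≤ (J q).card) := by
  obtain ⟨R', hR'⟩ : ∃ R', R' = 32 * R * (t' + 1) := ⟨_, rfl⟩
  have hR'1 : 1 ≤ R' := by
    rw [hR']
    exact Nat.one_le_iff_ne_zero.2 (by positivity)
  refine ⟨R', hR'1, fun n => ?_⟩
  obtain ⟨k1, hk1⟩ := hh_small b A 4 hb
  obtain ⟨k2, hk2⟩ := Pool.Agent.Y820.LT.hh_large b A hb hA (8 * R * P₀ + 8 * R * P₁ + n + P₀)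
  refine ⟨k1 + k2 + 8 * (24 * R * t') + 8 * n + 32, fun K hK => ?_⟩
  have h4 := hk1 K (by omega)
  have hl := hk2 K (by omega)
  obtain ⟨h, hh'⟩ : ∃ h, h = hh b A K := ⟨_, rfl⟩
  rw [← hh'] at h4 hl ⊢
  obtain ⟨w, hw⟩ : ∃ w, w = K / R' + 1 := ⟨_, rfl⟩
  have hwK : K ≤ R' * w := by
    rw [hw, mul_add, mul_one]
    have := Nat.div_add_mod K R'
    have := Nat.mod_lt K hR'1
    omega
  -- the total length of the blocks
  have htot : 8 * R * (t' * (w + 2)) + 2 + 2 * h + n ≤ K := by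
    have e1 : 8 * R * (t' * (w + 2)) = 8 * R * t' * (K / R') + 24 * R * t' := by rw [hw]; ring
    have e2 : 4 * (8 * R * t' * (K / R')) ≤ K := by
      calc 4 * (8 * R * t' * (K / R')) = 32 * R * t' * (K / R') := by ring
        _ ≤ R' * (K / R') := by
            apply Nat.mul_le_mul_right
            rw [hR']
            exact Nat.mul_le_mul_left _ (by omega)
        _ ≤ K := Nat.mul_div_le K R'
    omega
  have hRt : t' * (w + 2) ≤ 8 * R * (t' * (w + 2)) := by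
    calc t' * (w + 2) = 1 * (t' * (w + 2)) := (one_mul _).symm
      _ ≤ _ := Nat.mul_le_mul_right _ (by omega)
  have hP8 : P₀ ≤ 8 * R * P₀ := by
    calc P₀ = 1 * P₀ := (one_mul _).symm
      _ ≤ _ := Nat.mul_le_mul_right _ (by omega)
  have hP9 : P₁ ≤ 8 * R * P₁ := by
    calc P₁ = 1 * P₁ := (one_mul _).symm
      _ ≤ _ := Nat.mul_le_mul_right _ (by omega)
  have hblk : ∀ m : Fin t', m.val * (w + 2) + w ≤ t' * (w + 2) := by
    intro m
    have := m.2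
    calc m.val * (w + 2) + w ≤ m.val * (w + 2) + (w + 2) := by omega
      _ = (m.val + 1) * (w + 2) := by ring
      _ ≤ t' * (w + 2) := Nat.mul_le_mul_right _ (by omega)
  refine ⟨fun q => if q = 0 then Ico P₀ (1 + h) else if q = 1 then Ico (1 + h + t' * (w + 2)) (K - 1 - h) else Ico (K - 1 - h) (K - 1 - P₁),
    fun m => Ico (1 + h + m.val * (w + 2)) (1 + h + m.val * (w + 2) + w), ?_, ?_, ?_, ?_, ?_, ?_⟩
  · refine ⟨?_, ?_, ?_, ?_, ?_, ?_⟩
    · intro x hx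
      simp only [if_true] at hx
      rw [mem_Ico] at hx ⊢
      omega
    · intro x hx
      simp only [one_ne_zero, if_false, if_true] at hx
      rw [mem_Ico] at hx ⊢
      omega
    · intro x hx
      have e1 : (2 : Fin 3) ≠ 0 := by decide
      have e2 : (2 : Fin 3) ≠ 1 := by decide
      simp only [e1, e2, if_false] at hx
      rw [mem_Ico] at hx ⊢
      omega
    · simp only [if_true]
      have : (Ico 1 (1 + h) \ Ico P₀ (1 + h)).card ≤ P₀ := by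
        refine (card_le_card (t := range P₀) ?_).trans (by rw [card_range])
        intro x hx
        rw [mem_sdiff, mem_Ico, mem_Ico] at hx
        rw [mem_range]
        omega
      calc 8 * R * _ ≤ 8 * R * P₀ := Nat.mul_le_mul_left _ this
        _ ≤ h := by omega
    · simp only [one_ne_zero, if_false, if_true]
      have : (Ico (1 + h) (K - 1 - h) \ Ico (1 + h + t' * (w + 2)) (K - 1 - h)).card ≤ t' * (w + 2) := by
        refine (card_le_card (t := Ico (1 + h) (1 + h + t' * (w + 2))) ?_).trans (by rw [Nat.card_Ico]; omega)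
        intro x hx
        rw [mem_sdiff, mem_Ico, mem_Ico] at hx
        rw [mem_Ico]
        omega
      calc 8 * R * _ ≤ 8 * R * (t' * (w + 2)) := Nat.mul_le_mul_left _ this
        _ ≤ K - 2 - 2 * h := by omega
    · have e1 : (2 : Fin 3) ≠ 0 := by decide
      have e2 : (2 : Fin 3) ≠ 1 := by decide
      simp only [e1, e2, if_false]
      have : (Ico (K - 1 - h) (K - 1) \ Ico (K - 1 - h) (K - 1 - P₁)).card ≤ P₁ := by
        refine (card_le_card (t := Ico (K - 1 - P₁) (K - 1)) ?_).trans (by rw [Nat.card_Ico]; omega)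
        intro x hx
        rw [mem_sdiff, mem_Ico, mem_Ico] at hx
        rw [mem_Ico]
        omega
      calc 8 * R * _ ≤ 8 * R * P₁ := Nat.mul_le_mul_left _ this
        _ ≤ h := by omega
  · refine ⟨?_, ?_, ?_⟩
    · intro m x hx
      have := hblk m
      rw [mem_Ico] at hx
      rw [mem_range]
      omega
    · intro m
      simp only [Nat.card_Ico, add_tsub_cancel_left]
      exact hwK
    · intro m m' hmm j hj j' hj'
      rw [mem_Ico] at hj hj'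
      have h5 : (m.val + 1) * (w + 2) ≤ m'.val * (w + 2) := Nat.mul_le_mul_right _ (by exact hmm)
      have h6 : (m.val + 1) * (w + 2) = m.val * (w + 2) + w + 2 := by ring
      omega
  · intro q x hx
    simp only at hx
    split_ifs at hx <;> rw [mem_Ico] at hx ⊢ <;> omega
  · intro m x hx
    have := hblk m
    rw [mem_Ico] at hx ⊢
    omega
  · intro q m
    rw [disjoint_left]
    intro x hx hx'
    have := hblk m
    simp only at hx
    split_ifs at hx <;> rw [mem_Ico] at hx hx' <;> omega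
  · intro q
    simp only
    split_ifs <;> rw [Nat.card_Ico] <;> omega

/-- the weight of the first factor -/
noncomputable def g0 (τ0 : Bool) (n : ℕ) : ℝ := if τ0 then ArithmeticFunction.vonMangoldt n else 1

lemma g0_nonneg (τ0 : Bool) (n : ℕ) : 0 ≤ g0 τ0 n := by
  unfold g0
  split_ifs
  · exact ArithmeticFunction.vonMangoldt_nonneg
  · norm_num

/-- the telescoping sum -/
lemma tele {s t t' : ℕ} (τ0 : Bool) (b z Y N : ℕ) (e : Fin s → ℕ → ℤ) (q h : Fin s → ℤ) (x : Fin s → Ch t t')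
    (hY : ∀ n : ℕ, n ∈ Icc 1 N → ∀ i, q i * (n : ℤ) + shf b e h x i ≤ Y) :
    ∑ n ∈ Icc 1 N, g0 τ0 n *
        (∏ i, lamI (q i * (n : ℤ) + shf b e h x i) - ∏ i, lamzI z (q i * (n : ℤ) + shf b e h x i)) = ∑ j, DD τ0 b z Y N e q h j x := by
  classical
  have h1 : ∀ n ∈ Icc 1 N, g0 τ0 n *
        (∏ i, lamI (q i * (n : ℤ) + shf b e h x i) - ∏ i, lamzI z (q i * (n : ℤ) + shf b e h x i)) =
      ∑ j, Fj τ0 b z Y N e q h j x (n : ℤ) * Gc z Y (q j * (n : ℤ) + shf b e h x j) := by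
    intro n hn
    rw [telescope, mul_sum]
    apply sum_congr rfl
    intro j _
    unfold Fj Gc f0
    have hn' := mem_Icc.1 hn
    rw [if_pos (⟨by omega, by omega⟩ : (1 : ℤ) ≤ n ∧ (n : ℤ) ≤ N), if_pos (hY n hn j)]
    have h2 : (if τ0 = true then w z true (n : ℤ) else 1) = g0 τ0 n := by
      unfold g0
      congr 1
      unfold w lamI
      rw [if_pos rfl, if_pos (by omega : (1 : ℤ) ≤ n), Int.toNat_natCast]
    have h3 : ∏ i ∈ univ.erase j, (if j < i then lamI (q i * (n : ℤ) + shf b e h x i) else lamzI z (q i * (n : ℤ) + shf b e h x i)) =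
        ∏ i ∈ univ.erase j, wc z Y (decide (j < i)) (q i * (n : ℤ) + shf b e h x i) := by
      apply prod_congr rfl
      intro i _
      unfold wc w
      rw [if_pos (hY n hn i)]
      simp only [decide_eq_true_eq]
    rw [h2, h3]
    ring
  rw [sum_congr rfl h1, icc_cast (fun n => ∑ j, Fj τ0 b z Y N e q h j x n * Gc z Y (q j * n + shf b e h x j)) N, sum_comm]
  rfl

section
variable {s t t' : ℕ}

/-- a rare property -/
lemma coing (Ω : Finset (Fin 3 × Fin t → ℕ)) (Cs : Finset (Fin t' → ℕ)) (Pr : (Fin s → Ch t t') → Prop) [DecidablePred Pr] (i : Fin s) (n : ℕ) (hn : n ≤ Cs.card)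
    (hz : ∀ x ∈ PP s Ω Cs, ∀ ω ∈ Ω, ∑ c ∈ Cs, (if Pr (Function.update x i (ω, c)) then (1 : ℝ) else 0) ≤ 1) :
    (n : ℝ) * ∑ x ∈ PP s Ω Cs, (if Pr x then (1 : ℝ) else 0) ≤ (PP s Ω Cs).card := by
  classical
  have h1 := upd_sum (fun _ : Fin s => Ω ×ˢ Cs) i (fun x => if Pr x then (1 : ℝ) else 0)
  have h2 : ∀ x ∈ PP s Ω Cs, ∑ y ∈ Ω ×ˢ Cs, (if Pr (Function.update x i y) then (1 : ℝ) else 0) ≤ Ω.card := by
    intro x hx
    rw [sum_product]
    refine (sum_le_sum (hz x hx)).trans (le_of_eq ?_)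
    rw [sum_const, nsmul_eq_mul, mul_one]
  have h3 := sum_le_sum h2
  unfold PP at h3 ⊢
  rw [h1, sum_const, nsmul_eq_mul, card_product, Nat.cast_mul] at h3
  rcases Ω.eq_empty_or_nonempty with h4 | h4
  · have h5 : Fintype.piFinset (fun _ : Fin s => Ω ×ˢ Cs) = ∅ := by
      rw [Fintype.piFinset_eq_empty]
      exact ⟨i, by simp [h4]⟩
    rw [h5]
    simp
  have h5 : (0 : ℝ) < Ω.card := by exact_mod_cast card_pos.2 h4
  have h6 : (Cs.card : ℝ) * ∑ x ∈ Fintype.piFinset (fun _ : Fin s => Ω ×ˢ Cs), (if Pr x then (1 : ℝ) else 0) ≤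
      (Fintype.piFinset (fun _ : Fin s => Ω ×ˢ Cs)).card := by
    refine le_of_mul_le_mul_left (le_trans (le_of_eq ?_) (h3.trans (le_of_eq ?_))) h5
    · ring
    · ring
  refine le_trans ?_ h6
  apply mul_le_mul_of_nonneg_right
  · exact_mod_cast hn
  · exact sum_nonneg fun x _ => by split_ifs <;> norm_num

variable (τ0 : Bool) (b z Y : ℕ) (e : Fin s → ℕ → ℤ) (q : Fin s → ℤ) (H : Finset (Fin s → ℤ)) (NN : Finset ℕ) (δ : ℝ)

/-- the large terms -/
noncomputable def B1 (x : Fin s → Ch t t') : ℝ := ∑ h ∈ H, ∑ N ∈ NN, ∑ j, DD τ0 b z Y N e q h j x ^ 2 / (δ ^ 2 * Y ^ 2)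

open Classical in
/-- the coincidences -/
noncomputable def B2 (x : Fin s → Ch t t') : ℝ := ∑ h ∈ H, (∑ p ∈ (univ : Finset (Fin s × Fin s)).filter (fun p => p.1 ≠ p.2),
    (if q p.1 * shf b e h x p.2 = q p.2 * shf b e h x p.1 then (1 : ℝ) else 0) + ∑ i, (if shf b e h x i = 0 then (1 : ℝ) else 0))

lemma B1_nonneg (x : Fin s → Ch t t') : 0 ≤ B1 τ0 b z Y e q H NN δ x := by
  unfold B1
  exact sum_nonneg fun h _ => sum_nonneg fun N _ => sum_nonneg fun j _ => by positivity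

lemma B2_nonneg (x : Fin s → Ch t t') : 0 ≤ B2 b e q H x := by
  unfold B2
  exact sum_nonneg fun h _ => add_nonneg (sum_nonneg fun j _ => by split_ifs <;> norm_num) (sum_nonneg fun j _ => by split_ifs <;> norm_num)

lemma B1_sum (ρ : ℝ) (hρ : 0 < ρ) (P : Finset (Fin s → Ch t t')) (n n' : ℕ) (hH : H.card ≤ n) (hNN : NN.card ≤ n') (hδ : 0 < δ) (hY : 0 < Y) (δ₀ : ℝ)
    (hδ₀ : δ₀ = ρ * δ ^ 2 / (8 * (n * n' * s + 1)))
    (hD : ∀ h ∈ H, ∀ N ∈ NN, ∀ j : Fin s, ∑ x ∈ P, DD τ0 b z Y N e q h j x ^ 2 ≤ δ₀ * (Y : ℝ) ^ 2 * P.card) :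
    ∑ x ∈ P, B1 τ0 b z Y e q H NN δ x ≤ ρ / 8 * P.card := by
  have hY0 : (0 : ℝ) < Y := by exact_mod_cast hY
  have hP0 : (0 : ℝ) ≤ P.card := Nat.cast_nonneg _
  have hδ₀0 : 0 ≤ δ₀ := by rw [hδ₀]; positivity
  unfold B1
  rw [sum_comm]
  have h1 : ∀ h ∈ H, ∑ x ∈ P, ∑ N ∈ NN, ∑ j, DD τ0 b z Y N e q h j x ^ 2 / (δ ^ 2 * Y ^ 2) ≤ n' * (s * (δ₀ / δ ^ 2 * P.card)) := by
    intro h hh'
    rw [sum_comm]
    have h2 : ∀ N ∈ NN, ∑ x ∈ P, ∑ j, DD τ0 b z Y N e q h j x ^ 2 / (δ ^ 2 * Y ^ 2) ≤ s * (δ₀ / δ ^ 2 * P.card) := by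
      intro N hN
      rw [sum_comm]
      refine (sum_le_sum (g := fun _ => δ₀ / δ ^ 2 * P.card) fun j _ => ?_).trans (le_of_eq ?_)
      · rw [← sum_div, div_le_iff₀ (by positivity)]
        refine (hD h hh' N hN j).trans (le_of_eq ?_)
        field_simp
      · rw [sum_const, nsmul_eq_mul, card_univ, Fintype.card_fin]
    refine (sum_le_sum h2).trans ?_
    rw [sum_const, nsmul_eq_mul]
    apply mul_le_mul_of_nonneg_right _ (by positivity)
    exact_mod_cast hNN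
  refine (sum_le_sum h1).trans ?_
  rw [sum_const, nsmul_eq_mul]
  have h2 : (H.card : ℝ) ≤ n := by exact_mod_cast hH
  calc (H.card : ℝ) * (n' * (s * (δ₀ / δ ^ 2 * P.card))) ≤ n * (n' * (s * (δ₀ / δ ^ 2 * P.card))) :=
        mul_le_mul_of_nonneg_right h2 (by positivity)
    _ = (n * n' * s * (δ₀ / δ ^ 2)) * P.card := by ring
    _ ≤ ρ / 8 * P.card := by
        apply mul_le_mul_of_nonneg_right _ hP0
        have h3 : δ₀ / δ ^ 2 = ρ / (8 * (n * n' * s + 1)) := by rw [hδ₀]; field_simp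
        have h4 : (0 : ℝ) ≤ n * n' * s := by positivity
        rw [h3, mul_div_assoc', div_le_div_iff₀ (by positivity) (by norm_num)]
        nlinarith [mul_nonneg h4 hρ.le]

lemma B2_sum (hq : ∀ i, q i ≠ 0) (ρ : ℝ) (Ω : Finset (Fin 3 × Fin t → ℕ)) (Cs : Finset (Fin t' → ℕ)) (n m₀ : ℕ) (hH : H.card ≤ n) (hm₀ : 1 ≤ m₀)
    (hm : 8 * (n * (s ^ 2 + s) : ℝ) ≤ ρ * m₀) (hC : m₀ ≤ Cs.card)
    (hz : ∀ i : Fin s, ∀ u : ℤ, u ≠ 0 → ∀ v : ℤ, ∑ c ∈ Cs, (if u * gam b (e i) c + v = 0 then (1 : ℝ) else 0) ≤ 1) :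
    ∑ x ∈ PP s Ω Cs, B2 b e q H x ≤ ρ / 8 * (PP s Ω Cs).card := by
  classical
  have hP0 : (0 : ℝ) ≤ (PP s Ω Cs).card := Nat.cast_nonneg _
  have hm₀0 : (0 : ℝ) < m₀ := by exact_mod_cast hm₀
  unfold B2
  rw [sum_comm]
  have h1 : ∀ h ∈ H, ∑ x ∈ PP s Ω Cs, (∑ p ∈ (univ : Finset (Fin s × Fin s)).filter (fun p => p.1 ≠ p.2),
      (if q p.1 * shf b e h x p.2 = q p.2 * shf b e h x p.1 then (1 : ℝ) else 0) + ∑ i, (if shf b e h x i = 0 then (1 : ℝ) else 0)) ≤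
      (s ^ 2 + s) * ((PP s Ω Cs).card / m₀) := by
    intro h _
    rw [sum_add_distrib, add_mul]
    apply add_le_add
    · rw [sum_comm]
      refine (sum_le_sum (g := fun _ => ((PP s Ω Cs).card : ℝ) / m₀) fun p hp => ?_).trans ?_
      · rw [le_div_iff₀ hm₀0, mul_comm]
        have hp' := (mem_filter.1 hp).2
        apply coing Ω Cs (fun x => q p.1 * shf b e h x p.2 = q p.2 * shf b e h x p.1) p.1 m₀ hC
        intro x _ ω _
        refine le_trans (le_of_eq ?_) (hz p.1 (q p.2) (hq _) (q p.2 * (h p.1 + gam b (e p.1) ω) - q p.1 * shf b e h x p.2))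
        apply sum_congr rfl
        intro c _
        rw [shf_upd, shf_upd_ne _ _ _ _ _ _ hp'.symm]
        congr 1
        simp only
        apply propext
        constructor
        · intro h4; linarith
        · intro h4; linarith
      · rw [sum_const, nsmul_eq_mul]
        apply mul_le_mul_of_nonneg_right _ (by positivity)
        have h2 := card_filter_le (univ : Finset (Fin s × Fin s)) (fun p => p.1 ≠ p.2)
        rw [card_univ, Fintype.card_prod, Fintype.card_fin] at h2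
        rw [sq]
        exact_mod_cast h2
    · rw [sum_comm]
      refine (sum_le_sum (g := fun _ => ((PP s Ω Cs).card : ℝ) / m₀) fun i _ => ?_).trans (le_of_eq ?_)
      · rw [le_div_iff₀ hm₀0, mul_comm]
        apply coing Ω Cs (fun x => shf b e h x i = 0) i m₀ hC
        intro x _ ω _
        refine le_trans (le_of_eq ?_) (hz i 1 one_ne_zero (h i + gam b (e i) ω))
        apply sum_congr rfl
        intro c _
        rw [shf_upd]
        congr 1
        simp only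
        apply propext
        constructor
        · intro h4; linarith
        · intro h4; linarith
      · rw [sum_const, nsmul_eq_mul, card_univ, Fintype.card_fin]
  refine (sum_le_sum h1).trans ?_
  rw [sum_const, nsmul_eq_mul]
  have h2 : (H.card : ℝ) ≤ n := by exact_mod_cast hH
  calc (H.card : ℝ) * ((s ^ 2 + s) * ((PP s Ω Cs).card / m₀)) ≤ n * ((s ^ 2 + s) * ((PP s Ω Cs).card / m₀)) :=
        mul_le_mul_of_nonneg_right h2 (by positivity)
    _ = (n * (s ^ 2 + s) / m₀) * (PP s Ω Cs).card := by ring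
    _ ≤ ρ / 8 * (PP s Ω Cs).card := by
        apply mul_le_mul_of_nonneg_right _ hP0
        rw [div_le_div_iff₀ hm₀0 (by norm_num)]
        linarith

lemma B1_use (hδ : 0 < δ) (hY : 0 < Y) (x : Fin s → Ch t t') (hx : B1 τ0 b z Y e q H NN δ x ≤ 1) (h : Fin s → ℤ) (hh' : h ∈ H) (N : ℕ) (hN : N ∈ NN)
    (j : Fin s) : |DD τ0 b z Y N e q h j x| ≤ δ * Y := by
  have hY0 : (0 : ℝ) < Y := by exact_mod_cast hY
  have h1 : DD τ0 b z Y N e q h j x ^ 2 / (δ ^ 2 * Y ^ 2) ≤ B1 τ0 b z Y e q H NN δ x := by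
    unfold B1
    refine le_trans ?_ (single_le_sum (f := fun h => ∑ N ∈ NN, ∑ j, DD τ0 b z Y N e q h j x ^ 2 / (δ ^ 2 * Y ^ 2))
      (fun h _ => sum_nonneg fun N _ => sum_nonneg fun j _ => by positivity) hh')
    refine le_trans ?_ (single_le_sum (f := fun N => ∑ j, DD τ0 b z Y N e q h j x ^ 2 / (δ ^ 2 * Y ^ 2))
      (fun N _ => sum_nonneg fun j _ => by positivity) hN)
    exact single_le_sum (f := fun j => DD τ0 b z Y N e q h j x ^ 2 / (δ ^ 2 * Y ^ 2)) (fun j _ => by positivity) (mem_univ j)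
  have h2 := h1.trans hx
  rw [div_le_one (by positivity)] at h2
  apply abs_le_of_sq_le_sq _ (by positivity)
  rw [mul_pow]
  exact h2

lemma B2_use (x : Fin s → Ch t t') (hx : B2 b e q H x < 1) (h : Fin s → ℤ) (hh' : h ∈ H) :
    (∀ i j : Fin s, i ≠ j → q i * shf b e h x j ≠ q j * shf b e h x i) ∧ ∀ i, shf b e h x i ≠ 0 := by
  have h0 : (∑ p ∈ (univ : Finset (Fin s × Fin s)).filter (fun p => p.1 ≠ p.2),
    (if q p.1 * shf b e h x p.2 = q p.2 * shf b e h x p.1 then (1 : ℝ) else 0) + ∑ i, (if shf b e h x i = 0 then (1 : ℝ) else 0)) ≤ B2 b e q H x := by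
    unfold B2
    refine le_trans (le_of_eq ?_) (single_le_sum (fun h _ => ?_) hh')
    · rfl
    · exact add_nonneg (sum_nonneg fun j _ => by split_ifs <;> norm_num) (sum_nonneg fun j _ => by split_ifs <;> norm_num)
  have ha : 0 ≤ ∑ p ∈ (univ : Finset (Fin s × Fin s)).filter (fun p => p.1 ≠ p.2),
    (if q p.1 * shf b e h x p.2 = q p.2 * shf b e h x p.1 then (1 : ℝ) else 0) := sum_nonneg fun j _ => by split_ifs <;> norm_num
  have hb' : 0 ≤ ∑ i, (if shf b e h x i = 0 then (1 : ℝ) else 0) := sum_nonneg fun j _ => by split_ifs <;> norm_num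
  constructor
  · intro i j hij heq
    have h1 : (1 : ℝ) ≤ ∑ p ∈ (univ : Finset (Fin s × Fin s)).filter (fun p => p.1 ≠ p.2),
        (if q p.1 * shf b e h x p.2 = q p.2 * shf b e h x p.1 then (1 : ℝ) else 0) := by
      refine le_trans ?_ (single_le_sum (fun p _ => ?_) (mem_filter.2 ⟨mem_univ (i, j), hij⟩))
      · rw [if_pos heq]
      · split_ifs <;> norm_num
    linarith
  · intro i heq
    have h1 : (1 : ℝ) ≤ ∑ i, (if shf b e h x i = 0 then (1 : ℝ) else 0) := by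
      refine le_trans ?_ (single_le_sum (fun p _ => ?_) (mem_univ i))
      · rw [if_pos heq]
      · split_ifs <;> norm_num
    linarith

end

lemma expo_sum {s t t' : ℕ} (b : ℕ) (e : Fin s → ℕ → ℤ) (x : Fin s → Ch t t') (h : Fin s → ℤ) (i : Fin s) (J : Fin 3 → Finset ℕ) (J' : Fin t' → Finset ℕ)
    (h1 : ∀ c, (x i).1 c ∈ J c.1) (h2 : ∀ m, (x i).2 m ∈ J' m) (hdis : ∀ q m, Disjoint (J q) (J' m))
    (i1 : Function.Injective (x i).1) (i2 : Function.Injective (x i).2) :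
    h i + ∑ ν ∈ expo x i, e i ν * (b : ℤ) ^ ν = shf b e h x i := by
  unfold expo
  rw [sum_union, sum_image (fun c _ c' _ hcc => i1 hcc), sum_image (fun c _ c' _ hcc => i2 hcc)]
  · unfold shf gam dl
    ring
  · rw [disjoint_left]
    intro ν hν hν'
    rw [mem_image] at hν hν'
    obtain ⟨c, _, rfl⟩ := hν
    obtain ⟨m, _, hm⟩ := hν'
    have h3 := disjoint_left.1 (hdis c.1 m) (h1 c)
    apply h3
    rw [← hm]
    exact h2 m

/-- a system: the coefficients, the changes -/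
structure Cfg (s : ℕ) where
  /-- the coefficients -/
  q : Fin s → ℤ
  /-- the coefficients of the powers -/
  e : Fin s → ℕ → ℤ
  /-- the constants -/
  H : Finset (Fin s → ℤ)

theorem good_choice (hSB : S_SBF) (hR : S_R) (hP : S_P) (b : ℕ) (hb : 2 ≤ b) (s : ℕ) (hs : 1 ≤ s) : ∃ B : ℕ,
    ∀ (Ez Q0 n n' P₀ P₁ : ℕ) (δ ρ : ℝ), 1 ≤ Q0 → 1 ≤ P₀ → 0 < δ → 0 < ρ → ∃ D k₀ : ℕ, ∀ K : ℕ, k₀ ≤ K → ∀ z : ℕ, 2 ≤ z →
    Real.log ((b ^ K : ℕ) : ℝ) ^ B ≤ z → (z : ℝ) ≤ Real.log ((b ^ K : ℕ) : ℝ) ^ Ez → ∀ τ0 : Bool,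
    ∀ (κ : Type) (T : Finset κ) (F : κ → Cfg s), (∀ g ∈ T, (F g).H.card ≤ n) → (∀ g ∈ T, ∀ i, (F g).q i ≠ 0 ∧ |(F g).q i| ≤ Q0) →
    (∀ g ∈ T, ∀ i j, (F g).e i j ≠ 0 ∧ |(F g).e i j| < b) →
    (∀ g ∈ T, ∀ h ∈ (F g).H, ∀ i, |h i| ≤ ((b ^ K : ℕ) : ℤ)) →
    ∀ NN : Finset ℕ, NN.card ≤ n' → (∀ N ∈ NN, N ≤ b ^ K) →
    ∃ S : Fin s → Finset ℕ, (∀ i, S i ⊆ Ico P₀ (K - 1 - P₁)) ∧ (∀ i, (S i).card ≤ D) ∧
      ∃ E ⊆ T, (E.card : ℝ) ≤ ρ * T.card ∧ ∀ g ∈ T, g ∉ E → ∀ h ∈ (F g).H, ∀ a : Fin s → ℤ, (∀ i, a i = h i + ∑ ν ∈ S i, (F g).e i ν * (b : ℤ) ^ ν) →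
        (∀ i j, i ≠ j → (F g).q i * a j ≠ (F g).q j * a i) ∧ (∀ i, a i ≠ 0) ∧
        ∀ N ∈ NN, (∀ n : ℕ, n ∈ Icc 1 N → ∀ i, (F g).q i * (n : ℤ) + a i ≤ ((b ^ K : ℕ) : ℤ)) →
          |∑ n ∈ Icc 1 N, g0 τ0 n * (∏ i, lamI ((F g).q i * (n : ℤ) + a i) - ∏ i, lamzI z ((F g).q i * (n : ℤ) + a i))| ≤
            s * δ * ((b ^ K : ℕ) : ℝ) := by
  classical
  obtain ⟨R, A, B, hR1, hA3, havg⟩ := avgD hSB hR hP b hb
  refine ⟨B, fun Ez Q0 n n' P₀ P₁ δ ρ hQ0 hP₀ hδ hρ => ?_⟩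
  obtain ⟨R', hR'1, hblk⟩ := blocks b hb R A (4 * s + 1) P₀ P₁ hR1 (by omega) hP₀
  obtain ⟨δ₀, hδ₀⟩ : ∃ δ₀ : ℝ, δ₀ = ρ * δ ^ 2 / (8 * (n * n' * s + 1)) := ⟨_, rfl⟩
  have hδ₀0 : 0 < δ₀ := by rw [hδ₀]; positivity
  obtain ⟨t, ht⟩ := havg s (4 * s + 1) R' Ez Q0 le_rfl hQ0 δ₀ hδ₀0
  obtain ⟨k1, hk1⟩ := ht t le_rfl
  obtain ⟨m₀, hm₀1, hm₀2, hm₀3⟩ : ∃ m₀ : ℕ, 1 ≤ m₀ ∧ 8 * (n * (s ^ 2 + s) : ℝ) ≤ ρ * m₀ ∧ 36 * s * t ^ 2 ≤ m₀ := by
    obtain ⟨m1, hm1⟩ := exists_nat_ge (8 * (n * (s ^ 2 + s) : ℝ) / ρ)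
    refine ⟨m1 + 36 * s * t ^ 2 + 1, by omega, ?_, by omega⟩
    rw [div_le_iff₀ hρ] at hm1
    have h1 : (m1 : ℝ) ≤ ((m1 + 36 * s * t ^ 2 + 1 : ℕ) : ℝ) := by exact_mod_cast (by omega : m1 ≤ m1 + 36 * s * t ^ 2 + 1)
    have h2 := mul_le_mul_of_nonneg_left h1 hρ.le
    linarith
  obtain ⟨k2, hk2⟩ := hblk m₀
  refine ⟨3 * t + (4 * s + 1), k1 + k2 + R' * m₀ + 1, fun K hK z hz2 hzB hzE τ0 κ T F hH hq he hHb NN hNN hNb => ?_⟩
  obtain ⟨J, J', hPos, hBlk, hJs, hJ's, hdis, hJc⟩ := hk2 K (by omega)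
  have hY0 : 0 < b ^ K := Nat.pow_pos (by omega)
  have hD : ∀ g ∈ T, ∀ h ∈ (F g).H, ∀ N ∈ NN, ∀ j : Fin s, ∑ x ∈ PP s (Om J t) (Fintype.piFinset J'),
      DD τ0 b z (b ^ K) N (F g).e (F g).q h j x ^ 2 ≤
      δ₀ * ((b ^ K : ℕ) : ℝ) ^ 2 * (PP s (Om J t) (Fintype.piFinset J')).card := by
    intro g hg h hh' N hN j
    exact hk1 K (by omega) z hz2 hzB hzE τ0 (F g).q (hq g hg) (F g).e (he g hg) J hPos J' hBlk h (hHb g hg h hh') N (hNb N hN) j
  have hJ'c : ∀ m, m₀ ≤ (J' m).card := blk_card J' hBlk (by omega)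
  have hCc : m₀ ≤ (Fintype.piFinset J').card := by
    rw [Fintype.card_piFinset]
    have h1 : ∏ _m : Fin (4 * s + 1), m₀ ≤ ∏ m : Fin (4 * s + 1), (J' m).card := prod_le_prod' (fun m _ => hJ'c m)
    rw [prod_const, card_univ, Fintype.card_fin] at h1
    exact (Nat.le_self_pow (by omega) m₀).trans h1
  have hCn : (Fintype.piFinset J').Nonempty := card_pos.1 (by omega)
  have hΩn : (Om J t).Nonempty := by
    unfold Om
    rw [Fintype.piFinset_nonempty]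
    intro c
    have := hJc c.1
    exact card_pos.1 (by omega)
  have hPn : (PP s (Om J t) (Fintype.piFinset J')).Nonempty := by
    unfold PP
    rw [Fintype.piFinset_nonempty]
    intro _
    exact hΩn.product hCn
  obtain ⟨x, hx, u3, hx1⟩ := exists_small2 (PP s (Om J t) (Fintype.piFinset J')) hPn T
    (fun g x => B1 τ0 b z (b ^ K) (F g).e (F g).q (F g).H NN δ x + B2 b (F g).e (F g).q (F g).H x) B3 ρ hρ
    (fun g x => add_nonneg (B1_nonneg τ0 b z (b ^ K) (F g).e (F g).q (F g).H NN δ x) (B2_nonneg b (F g).e (F g).q (F g).H x)) (fun x => B3_nonneg x)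
    (fun g hg => by
      rw [sum_add_distrib]
      have q1 := B1_sum τ0 b z (b ^ K) (F g).e (F g).q (F g).H NN δ ρ hρ _ n n' (hH g hg) hNN hδ hY0 δ₀ hδ₀ (hD g hg)
      have q2 := B2_sum b (F g).e (F g).q (F g).H (fun i => (hq g hg i).1) ρ (Om J t) (Fintype.piFinset J') n m₀ (hH g hg) hm₀1 hm₀2 hCc
        (fun i u hu v => gam_zeroq b hb _ (he g hg i) J' hBlk.sep u hu v)
      linarith)
    (B3_sum J (Fintype.piFinset J') m₀ hm₀1 hm₀3 hJc)
  clear hD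
  unfold PP at hx
  rw [Fintype.mem_piFinset] at hx
  have hω : ∀ i, ∀ c, (x i).1 c ∈ J c.1 := by
    intro i c
    have := (mem_product.1 (hx i)).1
    unfold Om at this
    exact Fintype.mem_piFinset.1 this c
  have hc : ∀ i, ∀ m, (x i).2 m ∈ J' m := by
    intro i m
    exact Fintype.mem_piFinset.1 (mem_product.1 (hx i)).2 m
  have hSsum : ∀ (e : Fin s → ℕ → ℤ) (h : Fin s → ℤ), ∀ i, h i + ∑ ν ∈ expo x i, e i ν * (b : ℤ) ^ ν = shf b e h x i := by
    intro e h i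
    exact expo_sum b e x h i J J' (hω i) (hc i) hdis (B3_use x u3 i) (blk_inj J' hBlk _ (hc i))
  refine ⟨expo x, ?_, fun i => expo_card x i,
    T.filter (fun g => 1 ≤ B1 τ0 b z (b ^ K) (F g).e (F g).q (F g).H NN δ x + B2 b (F g).e (F g).q (F g).H x), filter_subset _ _, ?_, ?_⟩
  · intro i ν hν
    unfold expo at hν
    rw [mem_union, mem_image, mem_image] at hν
    rcases hν with ⟨c, _, rfl⟩ | ⟨m, _, rfl⟩
    · exact hJs _ (hω i c)
    · exact hJ's _ (hc i m)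
  · refine le_trans ?_ hx1
    rw [card_eq_sum_ones, Nat.cast_sum, sum_filter]
    apply sum_le_sum
    intro g _
    have q1 := B1_nonneg τ0 b z (b ^ K) (F g).e (F g).q (F g).H NN δ x
    have q2 := B2_nonneg b (F g).e (F g).q (F g).H x
    split_ifs with h1
    · push_cast
      exact h1
    · exact add_nonneg q1 q2
  · intro g hg hgE h hh' a ha
    have q1 := B1_nonneg τ0 b z (b ^ K) (F g).e (F g).q (F g).H NN δ x
    have q2 := B2_nonneg b (F g).e (F g).q (F g).H x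
    have q3 : B1 τ0 b z (b ^ K) (F g).e (F g).q (F g).H NN δ x + B2 b (F g).e (F g).q (F g).H x < 1 := by
      by_contra hcon
      push Not at hcon
      exact hgE (mem_filter.2 ⟨hg, hcon⟩)
    have u1 : B1 τ0 b z (b ^ K) (F g).e (F g).q (F g).H NN δ x ≤ 1 := by linarith
    have u2 : B2 b (F g).e (F g).q (F g).H x < 1 := by linarith
    have ha' : a = fun i => shf b (F g).e h x i := by
      funext i
      rw [ha i, hSsum]
    subst ha'
    obtain ⟨v1, v2⟩ := B2_use b (F g).e (F g).q (F g).H x u2 h hh'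
    refine ⟨v1, v2, fun N hN hle => ?_⟩
    rw [tele τ0 b z (b ^ K) N (F g).e (F g).q h x (fun n hn i => hle n hn i)]
    refine (abs_sum_le_sum_abs _ _).trans ?_
    refine (sum_le_sum fun j _ => B1_use τ0 b z (b ^ K) (F g).e (F g).q (F g).H NN δ hδ hY0 x u1 h hh' N hN j).trans (le_of_eq ?_)
    rw [sum_const, nsmul_eq_mul, card_univ, Fintype.card_fin]
    ring

end Pool.Agent.Y820.LF
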