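import Pool.Agent.Y820.LF.RF
import Pool.Agent.Y820.LT.M2

set_option autoImplicit false

/-! Averages over the discriminants of the linear forms. -/

namespace Pool.Agent.Y820.LF
open Finset
open Pool.Agent.W93.HD (gg)
open Pool.Agent.TH894.SM (dl Om Pos)
open Pool.Agent.Y820.LT

/-- the coefficients of the forms in the moment for the index `j` -/
def cof {s : ℕ} (q : Fin s → ℤ) (j : Fin s) (l : Fin s × Bool) : ℤ := if l.1 = j then 1 else q l.1

/-- the constants of the forms in the moment for the index `j`, multiplied by `q j` -/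
def Hs {s t t' : ℕ} (b : ℕ) (e : Fin s → ℕ → ℤ) (q : Fin s → ℤ) (h : Fin s → ℤ) (j : Fin s) (x : Fin s → Ch t t') (c c' : Fin t' → ℕ)
    (l : Fin s × Bool) : ℤ :=
  (if l.1 = j then 0 else q j * shf b e h x l.1) + cof q j l * (if l.2 then gam b (e j) c - gam b (e j) c' else 0)

/-- the discriminants, multiplied by `q j` -/
def Ds {s t t' : ℕ} (b : ℕ) (e : Fin s → ℕ → ℤ) (q : Fin s → ℤ) (h : Fin s → ℤ) (j : Fin s) (x : Fin s → Ch t t') (c c' : Fin t' → ℕ)
    (l l' : Fin s × Bool) : ℤ :=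
  cof q j l * Hs b e q h j x c c' l' - cof q j l' * Hs b e q h j x c c' l

lemma Ds_symm {s t t' : ℕ} (b : ℕ) (e : Fin s → ℕ → ℤ) (q : Fin s → ℤ) (h : Fin s → ℤ) (j : Fin s) (x : Fin s → Ch t t') (c c' : Fin t' → ℕ)
    (l l' : Fin s × Bool) : Ds b e q h j x c c' l' l = - Ds b e q h j x c c' l l' := by
  unfold Ds; ring

section
variable {s t t' : ℕ} (b : ℕ) (e : Fin s → ℕ → ℤ) (q : Fin s → ℤ) (h : Fin s → ℤ) (j : Fin s) (Ω : Finset (Fin 3 × Fin t → ℕ))
  (Cs : Finset (Fin t' → ℕ)) (ψ : ℤ → ℝ) (A : ℝ) (V W Q : ℤ)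

lemma cof_ne (hq : ∀ i, q i ≠ 0 ∧ |q i| ≤ Q) (l : Fin s × Bool) : cof q j l ≠ 0 := by
  unfold cof
  split_ifs
  · norm_num
  · exact (hq _).1

lemma cof_le (hq : ∀ i, q i ≠ 0 ∧ |q i| ≤ Q) (hQ : 1 ≤ Q) (l : Fin s × Bool) : |cof q j l| ≤ Q := by
  unfold cof
  split_ifs
  · simpa using hQ
  · exact (hq _).2

lemma avg1 (hq : ∀ i, q i ≠ 0 ∧ |q i| ≤ Q) (hQ : 1 ≤ Q)
    (hV : ∀ i : Fin s, ∀ u : ℤ, u ≠ 0 → |u| ≤ Q ^ 2 → ∀ v : ℤ, |v| ≤ V → ∑ y ∈ Cs, ψ (u * gam b (e i) y + v) ≤ A)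
    (hW1 : ∀ x ∈ PP s Ω Cs, ∀ i, |shf b e h x i| ≤ W) (hW2 : ∀ i, ∀ ω ∈ Ω, |h i + gam b (e i) ω| ≤ W)
    (hW3 : ∀ i, ∀ c ∈ Cs, |gam b (e i) c| ≤ W) (hWV : 6 * Q ^ 2 * W ≤ V) (hW0 : 0 ≤ W) (l l' : Fin s × Bool) (hl : l.1 ≠ l'.1) (hlj : l.1 ≠ j)
    (c c' : Fin t' → ℕ) (hc : c ∈ Cs) (hc' : c' ∈ Cs) :
    (Cs.card : ℝ) * ∑ x ∈ PP s Ω Cs, ψ (Ds b e q h j x c c' l l') ≤ A * (PP s Ω Cs).card := by
  classical
  have h1 := upd_sum (fun _ : Fin s => Ω ×ˢ Cs) l.1 (fun x => ψ (Ds b e q h j x c c' l l'))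
  have hcof : ∀ l, |cof q j l| ≤ Q := cof_le q j Q hq hQ
  have hG : |gam b (e j) c - gam b (e j) c'| ≤ 2 * W := by
    have := abs_sub (gam b (e j) c) (gam b (e j) c')
    have a1 := hW3 j c hc
    have a2 := hW3 j c' hc'
    linarith
  have hGl : ∀ l : Fin s × Bool, |cof q j l * (if l.2 then gam b (e j) c - gam b (e j) c' else 0)| ≤ Q * (2 * W) := by
    intro l
    rw [abs_mul]
    apply mul_le_mul (hcof l) _ (abs_nonneg _) (by omega)
    split_ifs
    · exact hG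
    · rw [abs_zero]; linarith
  have h2 : ∀ x ∈ PP s Ω Cs, ∑ y ∈ Ω ×ˢ Cs, ψ (Ds b e q h j (Function.update x l.1 y) c c' l l') ≤ Ω.card * A := by
    intro x hx
    rw [sum_product]
    have h3 : ∀ ω ∈ Ω, ∑ y ∈ Cs, ψ (Ds b e q h j (Function.update x l.1 (ω, y)) c c' l l') ≤ A := by
      intro ω hω
      have h4 : ∀ y : Fin t' → ℕ, Ds b e q h j (Function.update x l.1 (ω, y)) c c' l l' =
          (-(cof q j l' * q j)) * gam b (e l.1) y + (cof q j l * Hs b e q h j x c c' l' -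
            cof q j l' * (q j * (h l.1 + gam b (e l.1) ω) + cof q j l * (if l.2 then gam b (e j) c - gam b (e j) c' else 0))) := by
        intro y
        unfold Ds Hs
        rw [if_neg hlj, shf_upd, shf_upd_ne _ _ _ _ _ _ hl.symm]
        simp only
        ring
      simp only [h4]
      apply hV
      · exact neg_ne_zero.2 (mul_ne_zero (cof_ne q j Q hq l') (hq j).1)
      · rw [abs_neg, abs_mul, sq]
        exact mul_le_mul (hcof l') (hq j).2 (abs_nonneg _) (by omega)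
      have a1 : |q j * (h l.1 + gam b (e l.1) ω)| ≤ Q * W := by
        rw [abs_mul]
        exact mul_le_mul (hq j).2 (hW2 l.1 ω hω) (abs_nonneg _) (by omega)
      have a2 : |q j * (h l.1 + gam b (e l.1) ω) + cof q j l * (if l.2 then gam b (e j) c - gam b (e j) c' else 0)| ≤ Q * (3 * W) := by
        have := abs_add_le (q j * (h l.1 + gam b (e l.1) ω)) (cof q j l * (if l.2 then gam b (e j) c - gam b (e j) c' else 0))
        have := hGl l
        linarith
      have a3 : |Hs b e q h j x c c' l'| ≤ Q * (3 * W) := by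
        unfold Hs
        have a4 : |if l'.1 = j then (0 : ℤ) else q j * shf b e h x l'.1| ≤ Q * W := by
          split_ifs
          · rw [abs_zero]; positivity
          · rw [abs_mul]
            exact mul_le_mul (hq j).2 (hW1 x hx _) (abs_nonneg _) (by omega)
        have := abs_add_le (if l'.1 = j then (0 : ℤ) else q j * shf b e h x l'.1) (cof q j l' * (if l'.2 then gam b (e j) c - gam b (e j) c' else 0))
        have := hGl l'
        linarith
      have a5 : |cof q j l * Hs b e q h j x c c' l'| ≤ Q * (Q * (3 * W)) := by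
        rw [abs_mul]
        exact mul_le_mul (hcof l) a3 (abs_nonneg _) (by omega)
      have a6 : |cof q j l' * (q j * (h l.1 + gam b (e l.1) ω) + cof q j l * (if l.2 then gam b (e j) c - gam b (e j) c' else 0))| ≤
          Q * (Q * (3 * W)) := by
        rw [abs_mul]
        exact mul_le_mul (hcof l') a2 (abs_nonneg _) (by omega)
      refine (abs_sub _ _).trans ?_
      calc _ ≤ Q * (Q * (3 * W)) + Q * (Q * (3 * W)) := add_le_add a5 a6
        _ = 6 * Q ^ 2 * W := by ring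
        _ ≤ V := hWV
    refine (sum_le_sum h3).trans (le_of_eq ?_)
    rw [sum_const, nsmul_eq_mul]
  have h3 := sum_le_sum h2
  unfold PP at h3 ⊢
  rw [h1, sum_const, nsmul_eq_mul, card_product, Nat.cast_mul] at h3
  rcases Ω.eq_empty_or_nonempty with h4 | h4
  · have h5 : Fintype.piFinset (fun _ : Fin s => Ω ×ˢ Cs) = ∅ := by
      rw [Fintype.piFinset_eq_empty]
      exact ⟨l.1, by simp [h4]⟩
    rw [h5]
    simp
  · have h5 : (0 : ℝ) < Ω.card := by exact_mod_cast card_pos.2 h4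
    refine le_of_mul_le_mul_left (le_trans (le_of_eq ?_) (h3.trans (le_of_eq ?_))) h5
    · ring
    · ring

lemma avg (hq : ∀ i, q i ≠ 0 ∧ |q i| ≤ Q) (hQ : 1 ≤ Q) (hψ : ∀ d, ψ (-d) = ψ d)
    (hV : ∀ i : Fin s, ∀ u : ℤ, u ≠ 0 → |u| ≤ Q ^ 2 → ∀ v : ℤ, |v| ≤ V → ∑ y ∈ Cs, ψ (u * gam b (e i) y + v) ≤ A)
    (hW1 : ∀ x ∈ PP s Ω Cs, ∀ i, |shf b e h x i| ≤ W) (hW2 : ∀ i, ∀ ω ∈ Ω, |h i + gam b (e i) ω| ≤ W)
    (hW3 : ∀ i, ∀ c ∈ Cs, |gam b (e i) c| ≤ W) (hWV : 6 * Q ^ 2 * W ≤ V) (hW0 : 0 ≤ W) (l l' : Fin s × Bool) (hl : l ≠ l') :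
    ∑ x ∈ PP s Ω Cs, ∑ c ∈ Cs, ∑ c' ∈ Cs, ψ (Ds b e q h j x c c' l l') ≤
      A * ((PP s Ω Cs).card * Cs.card) := by
  classical
  rcases Cs.eq_empty_or_nonempty with hE | hE
  · rw [hE]; simp
  have hC0 : (0 : ℝ) < Cs.card := by exact_mod_cast card_pos.2 hE
  by_cases h1 : l.1 = l'.1
  · -- the same index
    have h2 : l.2 ≠ l'.2 := fun h2 => hl (Prod.ext h1 h2)
    have hcc : cof q j l = cof q j l' := by unfold cof; rw [h1]
    have h3 : ∀ x ∈ PP s Ω Cs, ∀ c ∈ Cs, ∑ c' ∈ Cs, ψ (Ds b e q h j x c c' l l') ≤ A := by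
      intro x _ c hc
      have h4 : ∀ c', ψ (Ds b e q h j x c c' l l') = ψ (cof q j l ^ 2 * gam b (e j) c' + (-(cof q j l ^ 2 * gam b (e j) c))) := by
        intro c'
        unfold Ds Hs
        rw [← hcc, h1]
        cases hl2 : l.2 <;> cases hl2' : l'.2
        · exact absurd (hl2.trans hl2'.symm) h2
        · rw [← hψ]
          congr 1
          simp only [Bool.false_eq_true, if_false, if_true]
          ring
        · congr 1
          simp only [Bool.false_eq_true, if_false, if_true]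
          ring
        · exact absurd (hl2.trans hl2'.symm) h2
      simp only [h4]
      have h5 := cof_le q j Q hq hQ l
      have h6 : |cof q j l ^ 2| ≤ Q ^ 2 := by
        rw [abs_pow]
        exact pow_le_pow_left₀ (abs_nonneg _) h5 2
      apply hV
      · exact pow_ne_zero _ (cof_ne q j Q hq l)
      · exact h6
      · rw [abs_neg, abs_mul]
        have h7 := mul_le_mul h6 (hW3 j c hc) (abs_nonneg _) (by positivity)
        have h8 : 0 ≤ Q ^ 2 * W := by positivity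
        linarith
    refine (sum_le_sum fun x hx => sum_le_sum fun c hc => h3 x hx c hc).trans (le_of_eq ?_)
    rw [sum_const, sum_const, nsmul_eq_mul, nsmul_eq_mul]
    ring
  · have key : ∀ l l' : Fin s × Bool, l.1 ≠ l'.1 → l.1 ≠ j →
        ∑ x ∈ PP s Ω Cs, ∑ c ∈ Cs, ∑ c' ∈ Cs, ψ (Ds b e q h j x c c' l l') ≤
          A * ((PP s Ω Cs).card * Cs.card) := by
      intro l l' h1 h2
      have h3 : ∑ x ∈ PP s Ω Cs, ∑ c ∈ Cs, ∑ c' ∈ Cs, ψ (Ds b e q h j x c c' l l') =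
          ∑ c ∈ Cs, ∑ c' ∈ Cs, ∑ x ∈ PP s Ω Cs, ψ (Ds b e q h j x c c' l l') := by
        rw [sum_comm]
        apply sum_congr rfl
        intro c _
        rw [sum_comm]
      rw [h3]
      have h4 : ∀ c ∈ Cs, ∀ c' ∈ Cs, ∑ x ∈ PP s Ω Cs, ψ (Ds b e q h j x c c' l l') ≤
          A * (PP s Ω Cs).card / Cs.card := by
        intro c hc c' hc'
        have h5 := avg1 b e q h j Ω Cs ψ A V W Q hq hQ hV hW1 hW2 hW3 hWV hW0 l l' h1 h2 c c' hc hc'
        rw [le_div_iff₀ hC0]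
        linarith
      refine (sum_le_sum fun c hc => sum_le_sum fun c' hc' => h4 c hc c' hc').trans (le_of_eq ?_)
      rw [sum_const, sum_const, nsmul_eq_mul, nsmul_eq_mul]
      field_simp
    by_cases h2 : l.1 = j
    · have h3 := key l' l (fun h3 => h1 h3.symm) (fun h3 => h1 (h2.trans h3.symm))
      refine le_trans (le_of_eq ?_) h3
      apply sum_congr rfl
      intro x _
      apply sum_congr rfl
      intro c _
      apply sum_congr rfl
      intro c' _
      rw [← hψ, Ds_symm b e q h j x c c' l l']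
    · exact key l l' h1 h2

end

end Pool.Agent.Y820.LF
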