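import Pool.Agent.Y820.LT.Stm
import Pool.Agent.H373R2.T7.SysCount

set_option autoImplicit false

/-!
# Project LF (helper820): prime values of linear forms after a bounded number of changes of the constants

Definitions and the exact statements of the tasks.
-/

namespace Pool.Agent.Y820.LF
open Finset
open Pool.Agent.H373R2.T7 (lamI lamzI lamz Vz pz)
open Pool.Agent.W93.HD (gg)
open Pool.Agent.Y820.LT (w)

/-- the number of the residues `r` modulo `p` for which `p` divides one of the values `C i * r + H i` -/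
def nuF {k : ℕ} (C H : Fin k → ℤ) (p : ℕ) : ℕ := ((range p).filter (fun r : ℕ => ∃ i, (p : ℤ) ∣ C i * (r : ℤ) + H i)).card

/-- the partial products of the singular series -/
noncomputable def singF {k : ℕ} (C H : Fin k → ℤ) (z : ℕ) : ℝ :=
  ∏ p ∈ (Icc 1 z).filter Nat.Prime, (1 - (nuF C H p : ℝ) / p) / (1 - 1 / (p : ℝ)) ^ k

/-- admissible systems -/
def AdmF {k : ℕ} (C H : Fin k → ℤ) : Prop := ∀ p : ℕ, p.Prime → nuF C H p < p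

/-- the number of the `n ≤ N` for which all the values are primes -/
def cntF {k : ℕ} (C H : Fin k → ℤ) (N : ℕ) : ℕ := ((Icc 1 N).filter (fun n : ℕ => ∀ i, (C i * (n : ℤ) + H i).toNat.Prime)).card

/-- all values are positive for `1 ≤ n ≤ N` -/
def PosF {k : ℕ} (C H : Fin k → ℤ) (N : ℕ) : Prop := ∀ i, 1 ≤ C i + H i ∧ 1 ≤ C i * (N : ℤ) + H i

/-- the two kinds of weights, or no weight -/
noncomputable def ww (z : ℕ) (τ : Option Bool) (n : ℤ) : ℝ := match τ with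
  | none => 1
  | some t => w z t n

/-- LF-L: the limit of the singular series, a lower bound and the tail -/
def S_lim : Prop := ∀ k Q0 : ℕ, 1 ≤ k → ∃ c : ℝ, 0 < c ∧ ∀ B : ℕ, ∀ δ : ℝ, 0 < δ → ∃ n0 : ℕ, ∀ N : ℕ, n0 ≤ N →
  ∀ C H : Fin k → ℤ, (∀ i, C i ≠ 0 ∧ |C i| ≤ Q0) → (∀ i, |H i| ≤ (B : ℤ) * N) → (∀ i j, i ≠ j → C i * H j ≠ C j * H i) →
  AdmF C H → ∃ S : ℝ, c ≤ S ∧ Filter.Tendsto (singF C H) Filter.atTop (nhds S) ∧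
    ∀ z : ℕ, Real.log N ^ 2 ≤ z → |singF C H z - S| ≤ δ * S

/-- LF-M0: the main term for the integers -/
def S_main0 : Prop := ∀ k E U : ℕ, 1 ≤ k → ∃ n0 : ℕ, ∀ N : ℕ, n0 ≤ N → ∀ z : ℕ, 1 ≤ z → (z : ℝ) ≤ Real.log N ^ E →
  ∀ C H : Fin k → ℤ, PosF C H N → AdmF C H →
  |∑ n ∈ Icc 1 N, ∏ i, lamzI z (C i * (n : ℤ) + H i) - singF C H z * N| ≤ N / Real.log N ^ U

/-- LF-M1: the main term for the primes -/
def S_main1 : Prop := ∀ k E U : ℕ, 1 ≤ k → ∃ n0 : ℕ, ∀ N : ℕ, n0 ≤ N → ∀ z : ℕ, 1 ≤ z → (z : ℝ) ≤ Real.log N ^ E →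
  ∀ C H : Fin k → ℤ, PosF C H N → AdmF (Fin.cons 1 C : Fin (k + 1) → ℤ) (Fin.cons 0 H : Fin (k + 1) → ℤ) →
  |∑ n ∈ Icc 1 N, ArithmeticFunction.vonMangoldt n * ∏ i, lamzI z (C i * (n : ℤ) + H i) -
    singF (Fin.cons 1 C : Fin (k + 1) → ℤ) (Fin.cons 0 H : Fin (k + 1) → ℤ) z * N| ≤ N / Real.log N ^ U

/-- LF-T: from the weighted sum to the number of the prime values -/
def S_tr : Prop := ∀ k Q0 B : ℕ, 1 ≤ k → ∀ c ε : ℝ, 0 < c → 0 < ε → ∃ d0 : ℝ, 0 < d0 ∧ ∃ n0 : ℕ, ∀ N : ℕ, n0 ≤ N →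
  ∀ C H : Fin k → ℤ, (∀ i, C i ≠ 0 ∧ |C i| ≤ Q0) → (∀ i, |H i| ≤ (B : ℤ) * N) → PosF C H N → ∀ S : ℝ, c ≤ S →
  |∑ n ∈ Icc 1 N, ∏ i, lamI (C i * (n : ℤ) + H i) - S * N| ≤ d0 * (S * N) →
  |(cntF C H N : ℝ) - S * (N / Real.log N ^ k)| ≤ ε * (S * (N / Real.log N ^ k))

/-- LF-S: the upper bound of the sieve for linear forms -/
def S_SBF : Prop := ∀ (ι : Type) [Fintype ι] [DecidableEq ι] (Q0 Ez : ℕ), ∃ (C : ℝ) (κ Y₀ : ℕ), 0 ≤ C ∧ ∀ Y : ℕ, Y₀ ≤ Y →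
    ∀ z : ℕ, 2 ≤ z → (z : ℝ) ≤ Real.log Y ^ Ez → ∀ (τ : ι → Option Bool) (c h : ι → ℤ), (∀ i, c i ≠ 0 ∧ |c i| ≤ Q0) →
    (∀ i, |h i| ≤ (Y : ℤ) ^ 2) → (∀ i j, i ≠ j → c i * h j ≠ c j * h i) →
    ∑ n ∈ Icc (1 : ℤ) Y, ∏ i, ww z (τ i) (c i * n + h i) ≤
      C * Y * ∏ i, ∏ j, (if i = j then 1 else gg (c i * h j - c j * h i).natAbs) ^ κ

end Pool.Agent.Y820.LF
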