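import Pool.Agent.Y820.LF.MF2
import Pool.Agent.Y820.LF.Stm
import Pool.Agent.Y820.LT.M3

set_option autoImplicit false

/-! The moments for linear forms. -/

namespace Pool.Agent.Y820.LF
open Finset
open Pool.Agent.H373R2.T7 (lamI lamzI lamz Vz Vz_pos Vz_inv_small lamI_nonneg lamzI_nonneg)
open Pool.Agent.W93.HD (gg one_le_gg)
open Pool.Agent.W93.DG (hh logX)
open Pool.Agent.TH894.SM (dl Om Pos)
open Pool.Agent.Y820.LT (S_R w wc w_nonneg wc_nonneg wc_le w_zero w_le Ch shf PP gam gam_le Blk psi_even prod_le_sum_pow shf_upd shf_upd_ne)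

/-- the first factor -/
noncomputable def f0 (τ0 : Bool) (z N : ℕ) (n : ℤ) : ℝ := if 1 ≤ n ∧ n ≤ N then (if τ0 then w z true n else 1) else 0

/-- the other factors -/
noncomputable def Fj {s t t' : ℕ} (τ0 : Bool) (b z Y N : ℕ) (e : Fin s → ℕ → ℤ) (q h : Fin s → ℤ) (j : Fin s) (x : Fin s → Ch t t') (n : ℤ) : ℝ :=
  f0 τ0 z N n * ∏ i ∈ univ.erase j, wc z Y (decide (j < i)) (q i * n + shf b e h x i)

lemma f0_nonneg (τ0 : Bool) (z N : ℕ) (n : ℤ) : 0 ≤ f0 τ0 z N n := by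
  unfold f0
  split_ifs
  · exact w_nonneg _ _ _
  · norm_num
  · exact le_rfl

lemma f0_le (τ0 : Bool) (z Y N : ℕ) (hY : 1 ≤ Y) (hV : (Vz z)⁻¹ ≤ Real.log Y) (hL : 1 ≤ Real.log Y) (hN : N ≤ Y) (n : ℤ) : f0 τ0 z N n ≤ Real.log Y := by
  unfold f0
  split_ifs with h1 h2
  · exact w_le z Y hY hV _ _ (by omega)
  · exact hL
  · linarith

lemma Fj_nonneg {s t t' : ℕ} (τ0 : Bool) (b z Y N : ℕ) (e : Fin s → ℕ → ℤ) (q h : Fin s → ℤ) (j : Fin s) (x : Fin s → Ch t t') (n : ℤ) :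
    0 ≤ Fj τ0 b z Y N e q h j x n :=
  mul_nonneg (f0_nonneg _ _ _ _) (prod_nonneg fun i _ => wc_nonneg _ _ _ _)

lemma Fj_le {s t t' : ℕ} (τ0 : Bool) (b z Y N : ℕ) (hY : 1 ≤ Y) (hV : (Vz z)⁻¹ ≤ Real.log Y) (hL1 : 1 ≤ Real.log Y) (hN : N ≤ Y)
    (e : Fin s → ℕ → ℤ) (q h : Fin s → ℤ)
    (j : Fin s) (x : Fin s → Ch t t') (n : ℤ) : Fj τ0 b z Y N e q h j x n ≤ Real.log Y ^ s := by
  have hL : 0 ≤ Real.log Y := (inv_pos.2 (Vz_pos z)).le.trans hV
  unfold Fj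
  have h1 := f0_le τ0 z Y N hY hV hL1 hN n
  have h2 : ∏ i ∈ univ.erase j, wc z Y (decide (j < i)) (q i * n + shf b e h x i) ≤ Real.log Y ^ (s - 1) := by
    have h3 : ∏ i ∈ univ.erase j, wc z Y (decide (j < i)) (q i * n + shf b e h x i) ≤ ∏ _i ∈ univ.erase j, Real.log Y := by
      apply prod_le_prod
      · intro i _; exact wc_nonneg _ _ _ _
      · intro i _
        unfold wc
        split_ifs with h4
        · exact w_le z Y hY hV _ _ h4
        · exact hL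
    rw [prod_const, card_erase_of_mem (mem_univ j), card_univ, Fintype.card_fin] at h3
    exact h3
  have hs : s = (s - 1) + 1 := by
    have := j.2
    omega
  calc _ ≤ Real.log Y * Real.log Y ^ (s - 1) :=
        mul_le_mul h1 h2 (prod_nonneg fun i _ => wc_nonneg _ _ _ _) hL
    _ = Real.log Y ^ s := by
        conv_rhs => rw [hs, pow_succ']

lemma Fj_supp {s t t' : ℕ} (τ0 : Bool) (b z Y N : ℕ) (e : Fin s → ℕ → ℤ) (q h : Fin s → ℤ) (j : Fin s) (x : Fin s → Ch t t') (n : ℤ)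
    (hn : Fj τ0 b z Y N e q h j x n ≠ 0) : 1 ≤ n ∧ n ≤ N := by
  unfold Fj f0 at hn
  by_contra hcon
  apply hn
  rw [if_neg hcon, zero_mul]

/-- the kinds of the forms -/
def τf {s : ℕ} (τ0 : Bool) (j : Fin s) (l : Fin s × Bool) : Option Bool :=
  if l.1 = j then (if τ0 then some true else none) else some (decide (j < l.1))

/-- the constants of the forms -/
def Hh {s t t' : ℕ} (b : ℕ) (e : Fin s → ℕ → ℤ) (q : Fin s → ℤ) (h : Fin s → ℤ) (j : Fin s) (x : Fin s → Ch t t') (d : ℤ)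
    (l : Fin s × Bool) : ℤ :=
  (if l.1 = j then 0 else shf b e h x l.1) + cof q j l * (if l.2 then d else 0)

lemma ww_nonneg (z : ℕ) (τ : Option Bool) (n : ℤ) : 0 ≤ ww z τ n := by
  unfold ww
  cases τ with
  | none => exact zero_le_one
  | some t => exact w_nonneg _ _ _

lemma Fj_form {s t t' : ℕ} (τ0 : Bool) (b z Y N : ℕ) (e : Fin s → ℕ → ℤ) (q h : Fin s → ℤ) (j : Fin s) (x : Fin s → Ch t t')
    (d n : ℤ) :
    Fj τ0 b z Y N e q h j x n * Fj τ0 b z Y N e q h j x (n + d) ≤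
      ∏ l : Fin s × Bool, ww z (τf τ0 j l) (cof q j l * n + Hh b e q h j x d l) := by
  classical
  have key : ∀ (v : Bool), Fj τ0 b z Y N e q h j x (n + (if v then d else 0)) ≤
      ∏ i : Fin s, ww z (τf τ0 j (i, v)) (cof q j (i, v) * n + Hh b e q h j x d (i, v)) := by
    intro v
    rw [← mul_prod_erase univ _ (mem_univ j)]
    unfold Fj
    apply mul_le_mul
    · unfold f0 τf cof Hh
      simp only [if_true]
      have e1 : 1 * n + (0 + cof q j (j, v) * (if v = true then d else 0)) = n + (if v = true then d else 0) := by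
        unfold cof
        simp only [if_true]
        ring
      rw [e1]
      obtain ⟨u, hu⟩ : ∃ u : ℤ, u = n + (if v = true then d else 0) := ⟨_, rfl⟩
      rw [← hu]
      cases τ0
      · simp only [Bool.false_eq_true, if_false]
        unfold ww
        split_ifs <;> norm_num
      · simp only [if_true]
        unfold ww
        simp only
        split_ifs with h1
        · exact le_rfl
        · exact w_nonneg _ _ _
    · apply prod_le_prod
      · intro i _; exact wc_nonneg _ _ _ _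
      · intro i hi
        have hne := ne_of_mem_erase hi
        have e1 : cof q j (i, v) * n + Hh b e q h j x d (i, v) = q i * (n + (if v then d else 0)) + shf b e h x i := by
          unfold Hh cof
          simp only
          rw [if_neg hne, if_neg hne]
          ring
        rw [e1]
        unfold τf ww
        simp only
        rw [if_neg hne]
        exact wc_le _ _ _ _
    · exact prod_nonneg fun i _ => wc_nonneg _ _ _ _
    · exact ww_nonneg _ _ _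
  rw [Fintype.prod_prod_type]
  simp only [Fintype.prod_bool]
  rw [prod_mul_distrib]
  have h1 := key true
  have h2 := key false
  simp only [if_true, Bool.false_eq_true, if_false, add_zero] at h1 h2
  rw [mul_comm]
  exact mul_le_mul h1 h2 (Fj_nonneg _ _ _ _ _ _ _ _ _ _ _) (prod_nonneg fun i _ => ww_nonneg _ _ _)

lemma Hs_eq {s t t' : ℕ} (b : ℕ) (e : Fin s → ℕ → ℤ) (q : Fin s → ℤ) (h : Fin s → ℤ) (j : Fin s) (x : Fin s → Ch t t') (d : ℤ)
    (c c' : Fin t' → ℕ) (hd : q j * d = gam b (e j) c - gam b (e j) c') (l : Fin s × Bool) :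
    Hs b e q h j x c c' l = q j * Hh b e q h j x d l := by
  unfold Hs Hh
  rw [← hd]
  split_ifs <;> ring

lemma Ds_eq {s t t' : ℕ} (b : ℕ) (e : Fin s → ℕ → ℤ) (q : Fin s → ℤ) (h : Fin s → ℤ) (j : Fin s) (x : Fin s → Ch t t') (d : ℤ)
    (c c' : Fin t' → ℕ) (hd : q j * d = gam b (e j) c - gam b (e j) c') (l l' : Fin s × Bool) :
    Ds b e q h j x c c' l l' = q j * (cof q j l * Hh b e q h j x d l' - cof q j l' * Hh b e q h j x d l) := by
  unfold Ds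
  rw [Hs_eq b e q h j x d c c' hd, Hs_eq b e q h j x d c c' hd]
  ring

/-- the entries of the Gram matrix -/
noncomputable def UU {s t t' : ℕ} (τ0 : Bool) (b z Y N : ℕ) (e : Fin s → ℕ → ℤ) (q h : Fin s → ℤ) (j : Fin s) (x : Fin s → Ch t t') (G : ℤ) : ℝ :=
  if q j ∣ G then ∑ n ∈ Icc (1 : ℤ) N, Fj τ0 b z Y N e q h j x n * Fj τ0 b z Y N e q h j x (n + G / q j) else 0

theorem mom (hSB : S_SBF) (hR : S_R) (b : ℕ) (hb : 2 ≤ b) (s t' R' Ez Q0 : ℕ) (ht' : 4 * s + 1 ≤ t') (hQ0 : 1 ≤ Q0) :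
    ∃ C : ℝ, 0 ≤ C ∧ ∀ t : ℕ, ∃ k₀ : ℕ, ∀ K : ℕ, k₀ ≤ K → ∀ z : ℕ, 2 ≤ z → (z : ℝ) ≤ Real.log ((b ^ K : ℕ) : ℝ) ^ Ez →
    ∀ (τ0 : Bool) (q : Fin s → ℤ), (∀ i, q i ≠ 0 ∧ |q i| ≤ Q0) →
    ∀ e : Fin s → ℕ → ℤ, (∀ i j, e i j ≠ 0 ∧ |e i j| < b) → ∀ Ω : Finset (Fin 3 × Fin t → ℕ), (∀ ω ∈ Ω, ∀ c, ω c < K) →
    ∀ J' : Fin t' → Finset ℕ, Blk K R' J' → ∀ h : Fin s → ℤ, (∀ i, |h i| ≤ ((b ^ K : ℕ) : ℤ)) → ∀ N : ℕ, N ≤ b ^ K → ∀ j : Fin s,
    ∑ x ∈ PP s Ω (Fintype.piFinset J'), ∑ c ∈ Fintype.piFinset J', ∑ c' ∈ Fintype.piFinset J',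
      UU τ0 b z (b ^ K) N e q h j x (gam b (e j) c - gam b (e j) c') ^ 2 ≤
      C * ((b ^ K : ℕ) : ℝ) ^ 2 * ((PP s Ω (Fintype.piFinset J')).card * ((Fintype.piFinset J').card : ℝ) ^ 2) := by
  classical
  obtain ⟨C1, κ, Y₀, hC1, hsb⟩ := hSB (Fin s × Bool) Q0 Ez
  obtain ⟨S, hS⟩ : ∃ S : Finset ((Fin s × Bool) × (Fin s × Bool)), S = univ.filter (fun p => p.1 ≠ p.2) := ⟨_, rfl⟩
  obtain ⟨C2, hC2, hrom⟩ := gam_romq hR b hb (Q0 ^ 2) (κ * 2 * S.card)
  obtain ⟨N1, hN1⟩ := Vz_inv_small Ez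
  obtain ⟨C, hC⟩ : ∃ C : ℝ, C = S.card * (C1 ^ 2 * (C2 * R') + ((b : ℝ) ^ (4 * s) * (R' : ℝ) ^ t')) := ⟨_, rfl⟩
  refine ⟨C, by rw [hC]; positivity, fun t => ?_⟩
  -- the sizes
  obtain ⟨W0, hW0⟩ : ∃ W0 : ℕ, W0 = 1 + 3 * t + t' := ⟨_, rfl⟩
  refine ⟨Y₀ + N1 + 6 * Q0 ^ 2 * W0 + Q0 ^ 2 * t' + 8, fun K hK z hz2 hz τ0 q hq e he Ω hΩ J' hJ' h hh' N hN j => ?_⟩
  obtain ⟨Y, hY⟩ : ∃ Y, Y = b ^ K := ⟨_, rfl⟩
  have hb1 : 1 < b := by omega
  have hKY : K < Y := by rw [hY]; exact Nat.lt_pow_self hb1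
  rw [← hY] at hz hh' hN ⊢
  have hY0 : (0 : ℝ) < Y := by exact_mod_cast (by omega : 0 < Y)
  obtain ⟨Cs, hCs⟩ : ∃ Cs, Cs = Fintype.piFinset J' := ⟨_, rfl⟩
  rw [← hCs]
  have hL := hN1 Y (by omega) z (by omega) hz
  obtain ⟨L, hLd⟩ : ∃ L, L = Real.log (Y : ℝ) := ⟨_, rfl⟩
  obtain ⟨hL1', hL2'⟩ := logX b K hb
  rw [← hY, ← hLd] at hL1' hL2'
  have hL0 : 0 ≤ L := by rw [hLd]; exact (inv_pos.2 (Vz_pos z)).le.trans hL
  have hLge : 1 ≤ L := by
    have : (8 : ℝ) ≤ K := by exact_mod_cast (by omega : 8 ≤ K)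
    linarith
  obtain ⟨W, hW⟩ : ∃ W : ℤ, W = W0 * (Y : ℤ) := ⟨_, rfl⟩
  have hYz : (Y : ℤ) = (b : ℤ) ^ K := by rw [hY]; push_cast; ring
  have hYnn : (0 : ℤ) ≤ Y := Int.natCast_nonneg _
  have hQz : (1 : ℤ) ≤ Q0 := by exact_mod_cast hQ0
  have hgω : ∀ i, ∀ ω ∈ Ω, |gam b (e i) ω| ≤ (3 * t : ℕ) * (Y : ℤ) := by
    intro i ω hω
    have := gam_le b (e i) (he i) K (by omega) ω (hΩ ω hω)
    rw [Fintype.card_prod, Fintype.card_fin, Fintype.card_fin, ← hYz] at this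
    exact this
  have hgc : ∀ i, ∀ c ∈ Cs, |gam b (e i) c| ≤ (t' : ℕ) * (Y : ℤ) := by
    intro i c hc
    rw [hCs, Fintype.mem_piFinset] at hc
    have := gam_le b (e i) (he i) K (by omega) c (fun m => mem_range.1 (hJ'.sub m (hc m)))
    rw [Fintype.card_fin, ← hYz] at this
    exact this
  have hW1 : ∀ x ∈ PP s Ω Cs, ∀ i, |shf b e h x i| ≤ W := by
    intro x hx i
    unfold PP at hx
    rw [Fintype.mem_piFinset] at hx
    have h1 := mem_product.1 (hx i)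
    have h2 := hgω i _ h1.1
    have h3 := hgc i _ h1.2
    have h4 := hh' i
    unfold shf
    have h5 := abs_add_le (h i + gam b (e i) (x i).1) (gam b (e i) (x i).2)
    have h6 := abs_add_le (h i) (gam b (e i) (x i).1)
    rw [hW, hW0]
    push_cast at h2 h3 ⊢
    linarith
  have hW2 : ∀ i, ∀ ω ∈ Ω, |h i + gam b (e i) ω| ≤ W := by
    intro i ω hω
    have h2 := hgω i _ hω
    have h4 := hh' i
    have h6 := abs_add_le (h i) (gam b (e i) ω)
    rw [hW, hW0]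
    push_cast at h2 ⊢
    nlinarith
  have hW3 : ∀ i, ∀ c ∈ Cs, |gam b (e i) c| ≤ W := by
    intro i c hc
    have h3 := hgc i _ hc
    rw [hW, hW0]
    push_cast at h3 ⊢
    nlinarith
  have hWnn : 0 ≤ W := by rw [hW]; positivity
  obtain ⟨V, hV⟩ : ∃ V : ℤ, V = (b : ℤ) ^ (2 * K - 1) := ⟨_, rfl⟩
  have hbK : 6 * Q0 ^ 2 * W0 ≤ b ^ (K - 1) := by
    have h1 : K - 1 < b ^ (K - 1) := Nat.lt_pow_self hb1
    omega
  have hWV : 6 * (Q0 : ℤ) ^ 2 * W ≤ V := by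
    have h2 : ((6 * Q0 ^ 2 * W0 : ℕ) : ℤ) ≤ (b : ℤ) ^ (K - 1) := by exact_mod_cast hbK
    rw [hW, hV, hYz]
    calc 6 * (Q0 : ℤ) ^ 2 * ((W0 : ℤ) * (b : ℤ) ^ K) = ((6 * Q0 ^ 2 * W0 : ℕ) : ℤ) * (b : ℤ) ^ K := by push_cast; ring
      _ ≤ (b : ℤ) ^ (K - 1) * (b : ℤ) ^ K := mul_le_mul_of_nonneg_right h2 (by positivity)
      _ = _ := by rw [← pow_add]; congr 1; omega
  -- the two functions
  obtain ⟨ψ1, hψ1⟩ : ∃ ψ1 : ℤ → ℝ, ψ1 = fun d => if d = 0 then 0 else gg d.natAbs ^ (κ * 2 * S.card) := ⟨_, rfl⟩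
  obtain ⟨ψ0, hψ0⟩ : ∃ ψ0 : ℤ → ℝ, ψ0 = fun d => if d = 0 then 1 else 0 := ⟨_, rfl⟩
  have hψ1e : ∀ d, ψ1 (-d) = ψ1 d := by
    intro d
    rw [hψ1]
    exact psi_even (fun n => gg n ^ (κ * 2 * S.card)) d
  have hψ0e : ∀ d, ψ0 (-d) = ψ0 d := by
    intro d
    rw [hψ0]
    simp only [neg_eq_zero]
  have hψ1nn : ∀ d, 0 ≤ ψ1 d := by
    intro d
    rw [hψ1]
    simp only
    split_ifs
    · exact le_rfl
    · exact pow_nonneg (zero_le_one.trans (one_le_gg _)) _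
  have hψ0nn : ∀ d, 0 ≤ ψ0 d := by
    intro d
    rw [hψ0]
    simp only
    split_ifs <;> norm_num
  have hs1 : 1 ≤ s := by have := j.2; omega
  have hV1 : ∀ i : Fin s, ∀ u : ℤ, u ≠ 0 → |u| ≤ (Q0 : ℤ) ^ 2 → ∀ v : ℤ, |v| ≤ V → ∑ y ∈ Cs, ψ1 (u * gam b (e i) y + v) ≤ C2 * R' * Cs.card := by
    intro i u hu0 hu v hv
    rw [hψ1, hCs]
    refine hrom t' (by omega) K (by omega) ?_ (e i) (he i) R' J' hJ' u hu0 (by push_cast; exact hu) v (by rw [← hV]; exact hv)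
    have : Q0 ^ 2 * t' ≤ b ^ (K - 1) := by
      have h1 : K - 1 < b ^ (K - 1) := Nat.lt_pow_self hb1
      omega
    exact_mod_cast this
  have hV0 : ∀ i : Fin s, ∀ u : ℤ, u ≠ 0 → |u| ≤ (Q0 : ℤ) ^ 2 → ∀ v : ℤ, |v| ≤ V → ∑ y ∈ Cs, ψ0 (u * gam b (e i) y + v) ≤ 1 := by
    intro i u hu0 _ v _
    rw [hψ0, hCs]
    exact gam_zeroq b hb (e i) (he i) J' hJ'.sep u hu0 v
  -- pointwise bound
  have hpt : ∀ x ∈ PP s Ω Cs, ∀ c ∈ Cs, ∀ c' ∈ Cs,
      UU τ0 b z Y N e q h j x (gam b (e j) c - gam b (e j) c') ^ 2 ≤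
      C1 ^ 2 * Y ^ 2 * ∑ p ∈ S, ψ1 (Ds b e q h j x c c' p.1 p.2) +
        Y ^ 2 * L ^ (4 * s) * ∑ p ∈ S, ψ0 (Ds b e q h j x c c' p.1 p.2) := by
    intro x hx c hc c' hc'
    have hs0 : 0 ≤ ∑ p ∈ S, ψ0 (Ds b e q h j x c c' p.1 p.2) := sum_nonneg fun p _ => hψ0nn _
    have hs1 : 0 ≤ ∑ p ∈ S, ψ1 (Ds b e q h j x c c' p.1 p.2) := sum_nonneg fun p _ => hψ1nn _
    have hrhs : 0 ≤ C1 ^ 2 * Y ^ 2 * ∑ p ∈ S, ψ1 (Ds b e q h j x c c' p.1 p.2) +
        Y ^ 2 * L ^ (4 * s) * ∑ p ∈ S, ψ0 (Ds b e q h j x c c' p.1 p.2) := by positivity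
    unfold UU
    by_cases hdv : q j ∣ gam b (e j) c - gam b (e j) c'
    swap
    · rw [if_neg hdv, zero_pow (by norm_num)]
      exact hrhs
    rw [if_pos hdv]
    obtain ⟨d, hd⟩ : ∃ d, d = (gam b (e j) c - gam b (e j) c') / q j := ⟨_, rfl⟩
    have hqd : q j * d = gam b (e j) c - gam b (e j) c' := by rw [hd]; exact Int.mul_ediv_cancel' hdv
    rw [← hd]
    have hTnn : 0 ≤ ∑ n ∈ Icc (1 : ℤ) N, Fj τ0 b z Y N e q h j x n * Fj τ0 b z Y N e q h j x (n + d) :=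
      sum_nonneg fun n _ => mul_nonneg (Fj_nonneg _ _ _ _ _ _ _ _ _ _ _) (Fj_nonneg _ _ _ _ _ _ _ _ _ _ _)
    by_cases hdis : ∀ l l' : Fin s × Bool, l ≠ l' → cof q j l * Hh b e q h j x d l' ≠ cof q j l' * Hh b e q h j x d l
    · have h1 : ∑ n ∈ Icc (1 : ℤ) N, Fj τ0 b z Y N e q h j x n * Fj τ0 b z Y N e q h j x (n + d) ≤
          C1 * Y * ∏ p ∈ S, gg (cof q j p.1 * Hh b e q h j x d p.2 - cof q j p.2 * Hh b e q h j x d p.1).natAbs ^ κ := by
        refine (sum_le_sum fun n _ => Fj_form τ0 b z Y N e q h j x d n).trans ?_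
        refine (sum_le_sum_of_subset_of_nonneg (Icc_subset_Icc_right (by exact_mod_cast hN : (N : ℤ) ≤ Y))
          (fun n _ _ => prod_nonneg fun l _ => ww_nonneg _ _ _)).trans ?_
        refine (hsb Y (by omega) z hz2 hz (τf τ0 j) (cof q j) (Hh b e q h j x d) ?_ ?_ hdis).trans (le_of_eq ?_)
        · intro l
          exact ⟨cof_ne q j Q0 hq l, cof_le q j Q0 hq hQz l⟩
        · intro l
          have a1 : |Hh b e q h j x d l| ≤ 3 * Q0 ^ 2 * W := by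
            unfold Hh
            have a4 : |if l.1 = j then (0 : ℤ) else shf b e h x l.1| ≤ W := by
              split_ifs
              · simpa using hWnn
              · exact hW1 x hx _
            have a5 : |d| ≤ 2 * W := by
              have e1 : |q j * d| ≤ 2 * W := by
                rw [hqd]
                have := abs_sub (gam b (e j) c) (gam b (e j) c')
                have b1 := hW3 j c hc
                have b2 := hW3 j c' hc'
                linarith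
              rw [abs_mul] at e1
              have e2 : 1 ≤ |q j| := Int.one_le_abs (hq j).1
              nlinarith [abs_nonneg d]
            have a6 : |cof q j l * (if l.2 then d else 0)| ≤ Q0 * (2 * W) := by
              rw [abs_mul]
              apply mul_le_mul (cof_le q j Q0 hq hQz l) _ (abs_nonneg _) (by omega)
              split_ifs
              · exact a5
              · rw [abs_zero]; positivity
            have a7 := abs_add_le (if l.1 = j then (0 : ℤ) else shf b e h x l.1) (cof q j l * (if l.2 then d else 0))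
            have a8 : (1 : ℤ) ≤ (Q0 : ℤ) ^ 2 := one_le_pow₀ hQz
            have a9 : (Q0 : ℤ) ≤ (Q0 : ℤ) ^ 2 := le_self_pow₀ hQz (by norm_num)
            nlinarith
          refine a1.trans ?_
          have a2 : (3 * Q0 ^ 2 * W0 : ℤ) ≤ Y := by exact_mod_cast (by nlinarith : 3 * Q0 ^ 2 * W0 ≤ Y)
          rw [hW, sq (Y : ℤ)]
          calc 3 * (Q0 : ℤ) ^ 2 * ((W0 : ℤ) * (Y : ℤ)) = (3 * (Q0 : ℤ) ^ 2 * (W0 : ℤ)) * (Y : ℤ) := by ring
            _ ≤ (Y : ℤ) * (Y : ℤ) := mul_le_mul_of_nonneg_right a2 hYnn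
        · congr 1
          symm
          rw [hS, prod_filter]
          refine (Fintype.prod_prod_type _).trans ?_
          apply prod_congr rfl
          intro l _
          apply prod_congr rfl
          intro l' _
          simp only
          by_cases hll : l = l'
          · rw [if_pos hll, if_neg (by simpa using hll), one_pow]
          · rw [if_neg hll, if_pos hll]
      have h2 : (∏ p ∈ S, gg (cof q j p.1 * Hh b e q h j x d p.2 - cof q j p.2 * Hh b e q h j x d p.1).natAbs ^ κ) ^ 2 ≤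
          ∑ p ∈ S, ψ1 (Ds b e q h j x c c' p.1 p.2) := by
        rw [← prod_pow]
        refine (prod_le_sum_pow S ⟨((j, false), (j, true)), by rw [hS, mem_filter]; simp⟩ _ (fun p _ => by
          have := one_le_gg (cof q j p.1 * Hh b e q h j x d p.2 - cof q j p.2 * Hh b e q h j x d p.1).natAbs
          positivity)).trans ?_
        apply sum_le_sum
        intro p hp
        rw [hS, mem_filter] at hp
        have hne : q j * (cof q j p.1 * Hh b e q h j x d p.2 - cof q j p.2 * Hh b e q h j x d p.1) ≠ 0 :=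
          mul_ne_zero (hq j).1 (sub_ne_zero.2 (hdis _ _ hp.2))
        rw [hψ1]
        simp only
        rw [Ds_eq b e q h j x d c c' hqd, if_neg hne, ← pow_mul, ← pow_mul, mul_assoc]
        exact pow_le_pow_left₀ (zero_le_one.trans (one_le_gg _)) (gg_mono_int _ _ hne (dvd_mul_left _ _)) _
      have h3 := pow_le_pow_left₀ hTnn h1 2
      refine h3.trans ?_
      rw [mul_pow, mul_pow]
      have h4 : C1 ^ 2 * (Y : ℝ) ^ 2 * (∏ p ∈ S, gg (cof q j p.1 * Hh b e q h j x d p.2 - cof q j p.2 * Hh b e q h j x d p.1).natAbs ^ κ) ^ 2 ≤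
          C1 ^ 2 * (Y : ℝ) ^ 2 * ∑ p ∈ S, ψ1 (Ds b e q h j x c c' p.1 p.2) :=
        mul_le_mul_of_nonneg_left h2 (by positivity)
      have h5 : 0 ≤ (Y : ℝ) ^ 2 * L ^ (4 * s) * ∑ p ∈ S, ψ0 (Ds b e q h j x c c' p.1 p.2) := by
        positivity
      linarith
    · push Not at hdis
      obtain ⟨l, l', hll, hH⟩ := hdis
      have h1 : (1 : ℝ) ≤ ∑ p ∈ S, ψ0 (Ds b e q h j x c c' p.1 p.2) := by
        refine le_trans (le_of_eq ?_) (single_le_sum (f := fun p => ψ0 (Ds b e q h j x c c' p.1 p.2))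
          (fun p _ => hψ0nn _) (show (l, l') ∈ S by rw [hS, mem_filter]; exact ⟨mem_univ _, hll⟩))
        rw [hψ0]
        simp only
        rw [if_pos]
        rw [Ds_eq b e q h j x d c c' hqd, sub_eq_zero.2 hH, mul_zero]
      have h2 : ∑ n ∈ Icc (1 : ℤ) N, Fj τ0 b z Y N e q h j x n * Fj τ0 b z Y N e q h j x (n + d) ≤ Y * (L ^ s * L ^ s) := by
        refine (sum_le_sum (g := fun _ => L ^ s * L ^ s) fun n _ => ?_).trans ?_
        · rw [hLd]
          exact mul_le_mul (Fj_le τ0 b z Y N (by omega) hL (by rw [← hLd]; exact hLge) hN e q h j x _)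
            (Fj_le τ0 b z Y N (by omega) hL (by rw [← hLd]; exact hLge) hN e q h j x _)
            (Fj_nonneg _ _ _ _ _ _ _ _ _ _ _) (by rw [← hLd]; positivity)
        · rw [sum_const, nsmul_eq_mul, Int.card_Icc]
          apply mul_le_mul_of_nonneg_right _ (by positivity)
          have h3 : ((N : ℤ) + 1 - 1).toNat = N := by omega
          rw [h3]
          exact_mod_cast hN
      have h3 := pow_le_pow_left₀ hTnn h2 2
      refine h3.trans ?_
      have h4 : ((Y : ℝ) * (L ^ s * L ^ s)) ^ 2 = (Y : ℝ) ^ 2 * L ^ (4 * s) * 1 := by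
        have : L ^ (4 * s) = (L ^ s * L ^ s) ^ 2 := by
          rw [← pow_add, ← pow_mul]; congr 1; ring
        rw [this]; ring
      rw [h4]
      have h5 : (Y : ℝ) ^ 2 * L ^ (4 * s) * 1 ≤ (Y : ℝ) ^ 2 * L ^ (4 * s) *
          ∑ p ∈ S, ψ0 (Ds b e q h j x c c' p.1 p.2) := mul_le_mul_of_nonneg_left h1 (by positivity)
      have h6 : 0 ≤ C1 ^ 2 * (Y : ℝ) ^ 2 * ∑ p ∈ S, ψ1 (Ds b e q h j x c c' p.1 p.2) := by positivity
      linarith
  refine (sum_le_sum fun x hx => sum_le_sum fun c hc => sum_le_sum fun c' hc' => hpt x hx c hc c' hc').trans ?_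
  have hsw : ∀ (a : ℝ) (ψ : ℤ → ℝ), ∑ x ∈ PP s Ω Cs, ∑ c ∈ Cs, ∑ c' ∈ Cs, a * ∑ p ∈ S, ψ (Ds b e q h j x c c' p.1 p.2) =
      a * ∑ p ∈ S, ∑ x ∈ PP s Ω Cs, ∑ c ∈ Cs, ∑ c' ∈ Cs, ψ (Ds b e q h j x c c' p.1 p.2) := by
    intro a ψ
    simp only [← mul_sum]
    congr 1
    rw [sum_comm]
    conv_rhs => rw [sum_comm]
    conv_lhs => rw [sum_comm]
    apply sum_congr rfl
    intro x _
    conv_rhs => rw [sum_comm]
    apply sum_congr rfl
    intro c _
    rw [sum_comm]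
  simp only [sum_add_distrib]
  rw [hsw, hsw]
  have hA : ∑ p ∈ S, ∑ x ∈ PP s Ω Cs, ∑ c ∈ Cs, ∑ c' ∈ Cs, ψ1 (Ds b e q h j x c c' p.1 p.2) ≤
      S.card * (C2 * R' * Cs.card * ((PP s Ω Cs).card * Cs.card)) := by
    rw [← nsmul_eq_mul, ← sum_const]
    apply sum_le_sum
    intro p hp
    rw [hS, mem_filter] at hp
    exact avg b e q h j Ω Cs ψ1 _ V W Q0 hq hQz hψ1e hV1 hW1 hW2 hW3 hWV hWnn p.1 p.2 hp.2
  have hB : ∑ p ∈ S, ∑ x ∈ PP s Ω Cs, ∑ c ∈ Cs, ∑ c' ∈ Cs, ψ0 (Ds b e q h j x c c' p.1 p.2) ≤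
      S.card * (1 * ((PP s Ω Cs).card * Cs.card)) := by
    rw [← nsmul_eq_mul, ← sum_const]
    apply sum_le_sum
    intro p hp
    rw [hS, mem_filter] at hp
    exact avg b e q h j Ω Cs ψ0 _ V W Q0 hq hQz hψ0e hV0 hW1 hW2 hW3 hWV hWnn p.1 p.2 hp.2
  -- the number of choices
  have hcard : L ^ (4 * s) ≤ (b : ℝ) ^ (4 * s) * (R' : ℝ) ^ t' * Cs.card := by
    have hK1 : (1 : ℝ) ≤ K := by exact_mod_cast (by omega : 1 ≤ K)
    have h1 : (K : ℝ) ^ t' ≤ (R' : ℝ) ^ t' * Cs.card := by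
      rw [hCs, Fintype.card_piFinset]
      push_cast
      have h2 : (R' : ℝ) ^ t' * ∏ m : Fin t', ((J' m).card : ℝ) = ∏ m : Fin t', ((R' : ℝ) * (J' m).card) := by
        rw [prod_mul_distrib, prod_const, card_univ, Fintype.card_fin]
      rw [h2]
      calc (K : ℝ) ^ t' = ∏ _m : Fin t', (K : ℝ) := by rw [prod_const, card_univ, Fintype.card_fin]
        _ ≤ _ := by
            apply prod_le_prod
            · intro m _; positivity
            · intro m _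
              exact_mod_cast hJ'.card m
    calc L ^ (4 * s) ≤ (b * K) ^ (4 * s) := pow_le_pow_left₀ hL0 hL2' _
      _ = (b : ℝ) ^ (4 * s) * (K : ℝ) ^ (4 * s) := by rw [mul_pow]
      _ ≤ (b : ℝ) ^ (4 * s) * (K : ℝ) ^ t' := by
          apply mul_le_mul_of_nonneg_left _ (by positivity)
          exact pow_le_pow_right₀ hK1 (by omega)
      _ ≤ (b : ℝ) ^ (4 * s) * ((R' : ℝ) ^ t' * Cs.card) := mul_le_mul_of_nonneg_left h1 (by positivity)
      _ = _ := by ring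
  have hA' := mul_le_mul_of_nonneg_left hA (show (0 : ℝ) ≤ C1 ^ 2 * Y ^ 2 by positivity)
  have hB' := mul_le_mul_of_nonneg_left hB (show (0 : ℝ) ≤ (Y : ℝ) ^ 2 * L ^ (4 * s) by positivity)
  refine (add_le_add hA' hB').trans ?_
  have hB'' : (Y : ℝ) ^ 2 * L ^ (4 * s) * (S.card * (1 * ((PP s Ω Cs).card * Cs.card))) ≤
      (Y : ℝ) ^ 2 * ((b : ℝ) ^ (4 * s) * (R' : ℝ) ^ t' * Cs.card) * (S.card * (1 * ((PP s Ω Cs).card * Cs.card))) := by
    apply mul_le_mul_of_nonneg_right _ (by positivity)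
    exact mul_le_mul_of_nonneg_left hcard (by positivity)
  refine (add_le_add le_rfl hB'').trans (le_of_eq ?_)
  rw [hC]
  ring

end Pool.Agent.Y820.LF
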