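import Pool.Agent.Y820.LT.M1

set_option autoImplicit false

/-! Romanoff's sum with arbitrary bounded coefficients. -/

namespace Pool.Agent.Y820.LF
open Finset
open Pool.Agent.W93.HD (gg one_le_gg)
open Pool.Agent.TH894.SM (dl Om Pos)
open Pool.Agent.Y820.LT

lemma gg_mono_dvd (x y : ℕ) (hy : y ≠ 0) (h : x ∣ y) : gg x ≤ gg y := by
  unfold gg
  apply prod_le_prod_of_subset_of_one_le
  · exact Nat.primeFactors_mono h hy
  · intro p _; positivity
  · intro p _ _
    have : (0 : ℝ) ≤ 1 / p := by positivity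
    linarith

lemma gg_mono_int (x y : ℤ) (hy : y ≠ 0) (h : x ∣ y) : gg x.natAbs ≤ gg y.natAbs :=
  gg_mono_dvd _ _ (Int.natAbs_ne_zero.2 hy) (Int.natAbs_dvd_natAbs.2 h)

/-- Romanoff's sum with coefficients of size at most `M` -/
theorem rom_gen (hR : S_R) (b : ℕ) (hb : 2 ≤ b) (M κ : ℕ) : ∃ C : ℝ, 0 ≤ C ∧ ∀ K : ℕ, 2 ≤ K → ∀ e : ℕ → ℤ, (∀ j, e j ≠ 0 ∧ |e j| ≤ M) →
    ∀ J ⊆ range K, ∀ s : ℤ, |s| ≤ (b : ℤ) ^ (2 * K) →
    ∑ j ∈ J, (if e j * (b : ℤ) ^ j + s = 0 then 0 else gg (e j * (b : ℤ) ^ j + s).natAbs ^ κ) ≤ C * K := by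
  classical
  obtain ⟨r, hr⟩ : ∃ r, r = M + 2 := ⟨_, rfl⟩
  have hbr : 2 ≤ b ^ r := by
    calc 2 ≤ b := hb
      _ ≤ b ^ r := Nat.le_self_pow (by omega) _
  have hMr : M < b ^ r := by
    have : r < b ^ r := Nat.lt_pow_self (by omega)
    omega
  obtain ⟨C, hC, h⟩ := hR (b ^ r) hbr κ
  refine ⟨r * (C * 2), by positivity, fun K hK e he J hJ s hs => ?_⟩
  have hb0 : (0 : ℤ) < b := by exact_mod_cast (by omega : 0 < b)
  have hb1 : (1 : ℤ) ≤ b := by omega
  obtain ⟨ψ, hψ⟩ : ∃ ψ : ℤ → ℝ, ψ = fun d => if d = 0 then 0 else gg d.natAbs ^ κ := ⟨_, rfl⟩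
  have hψ0 : ∀ d, 0 ≤ ψ d := by
    intro d
    rw [hψ]
    simp only
    split_ifs
    · exact le_rfl
    · exact pow_nonneg (zero_le_one.trans (one_le_gg _)) _
  have hψm : ∀ d q : ℤ, q ≠ 0 → ψ d ≤ ψ (q * d) := by
    intro d q hq
    rw [hψ]
    simp only
    by_cases hd : d = 0
    · rw [if_pos hd, if_pos (by rw [hd, mul_zero])]
    · rw [if_neg hd, if_neg (mul_ne_zero hq hd)]
      exact pow_le_pow_left₀ (zero_le_one.trans (one_le_gg _)) (gg_mono_int _ _ (mul_ne_zero hq hd) (dvd_mul_left _ _)) _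
  have hgoal : ∑ j ∈ J, (if e j * (b : ℤ) ^ j + s = 0 then (0 : ℝ) else gg (e j * (b : ℤ) ^ j + s).natAbs ^ κ) =
      ∑ j ∈ J, ψ (e j * (b : ℤ) ^ j + s) := by rw [hψ]
  rw [hgoal]
  -- the classes of the exponents
  have hcls : ∑ j ∈ J, ψ (e j * (b : ℤ) ^ j + s) = ∑ ρ ∈ range r, ∑ j ∈ J.filter (fun j => j % r = ρ), ψ (e j * (b : ℤ) ^ j + s) := by
    rw [sum_fiberwise_of_maps_to]
    intro j _
    rw [mem_range]
    exact Nat.mod_lt _ (by omega)
  rw [hcls]
  have hone : ∀ ρ ∈ range r, ∑ j ∈ J.filter (fun j => j % r = ρ), ψ (e j * (b : ℤ) ^ j + s) ≤ C * 2 * K := by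
    intro ρ hρ
    rw [mem_range] at hρ
    obtain ⟨e', he'⟩ : ∃ e' : ℕ → ℤ, e' = fun i => e (r * (i - 1) + ρ) := ⟨_, rfl⟩
    obtain ⟨s', hs'⟩ : ∃ s' : ℤ, s' = (b : ℤ) ^ (r - ρ) * s := ⟨_, rfl⟩
    obtain ⟨J1, hJ1⟩ : ∃ J1 : Finset ℕ, J1 = (J.filter (fun j => j % r = ρ)).image (fun j => j / r + 1) := ⟨_, rfl⟩
    have h1 := h (K + 1) (by omega) e' (fun i => by
      rw [he']
      refine ⟨(he _).1, lt_of_le_of_lt (he _).2 ?_⟩
      exact_mod_cast hMr) J1 (by
        intro i hi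
        rw [hJ1, mem_image] at hi
        obtain ⟨j, hj, rfl⟩ := hi
        rw [mem_filter] at hj
        have h2 := mem_range.1 (hJ hj.1)
        have h3 : j / r ≤ j := Nat.div_le_self _ _
        rw [mem_range]
        omega) s' (by
        rw [hs', abs_mul, abs_of_nonneg (by positivity : (0 : ℤ) ≤ (b : ℤ) ^ (r - ρ))]
        push_cast
        rw [← pow_mul]
        calc (b : ℤ) ^ (r - ρ) * |s| ≤ (b : ℤ) ^ r * (b : ℤ) ^ (2 * K) := by
              apply mul_le_mul (pow_le_pow_right₀ hb1 (by omega)) hs (abs_nonneg _) (by positivity)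
          _ = (b : ℤ) ^ (r + 2 * K) := by rw [pow_add]
          _ ≤ _ := by
              apply pow_le_pow_right₀ hb1
              have : 1 ≤ r := by omega
              nlinarith)
    have h2 : ∑ j ∈ J.filter (fun j => j % r = ρ), ψ (e j * (b : ℤ) ^ j + s) ≤ ∑ i ∈ J1, ψ (e' i * ((b ^ r : ℕ) : ℤ) ^ i + s') := by
      rw [hJ1, sum_image]
      · apply sum_le_sum
        intro j hj
        rw [mem_filter] at hj
        have h3 : e' (j / r + 1) = e j := by
          rw [he']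
          simp only [Nat.add_sub_cancel]
          congr 1
          rw [← hj.2]
          exact Nat.div_add_mod j r
        have h4 : e' (j / r + 1) * ((b ^ r : ℕ) : ℤ) ^ (j / r + 1) + s' = (b : ℤ) ^ (r - ρ) * (e j * (b : ℤ) ^ j + s) := by
          rw [h3, hs']
          have h5 : ((b ^ r : ℕ) : ℤ) ^ (j / r + 1) = (b : ℤ) ^ (r - ρ) * (b : ℤ) ^ j := by
            push_cast
            rw [← pow_mul, ← pow_add]
            congr 1
            have h6 := Nat.div_add_mod j r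
            rw [hj.2] at h6
            have h7 : r * (j / r + 1) = r * (j / r) + r := by ring
            omega
          rw [h5]; ring
        rw [h4]
        exact hψm _ _ (by positivity)
      · intro j hj j' hj' hjj
        rw [mem_coe, mem_filter] at hj hj'
        simp only [Nat.add_right_cancel_iff] at hjj
        have h3 := Nat.div_add_mod j r
        have h4 := Nat.div_add_mod j' r
        rw [hj.2] at h3
        rw [hj'.2, ← hjj] at h4
        omega
    refine h2.trans ?_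
    have h3 : ∑ i ∈ J1, ψ (e' i * ((b ^ r : ℕ) : ℤ) ^ i + s') ≤ C * ((K + 1 : ℕ) : ℝ) := by
      rw [hψ]
      exact h1
    refine h3.trans ?_
    rw [mul_assoc]
    apply mul_le_mul_of_nonneg_left _ hC
    push_cast
    have : (2 : ℝ) ≤ K := by exact_mod_cast hK
    linarith
  refine (sum_le_sum hone).trans (le_of_eq ?_)
  rw [sum_const, card_range, nsmul_eq_mul]
  ring

/-- Romanoff's sum over the sums of the second kind, with a factor `q` -/
lemma gam_romq (hR : S_R) (b : ℕ) (hb : 2 ≤ b) (M κ : ℕ) : ∃ C : ℝ, 0 ≤ C ∧ ∀ (t' : ℕ), 1 ≤ t' → ∀ K : ℕ, 2 ≤ K →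
    (M * t' : ℤ) ≤ b ^ (K - 1) → ∀ e : ℕ → ℤ, (∀ j, e j ≠ 0 ∧ |e j| < b) → ∀ (R' : ℕ) (J' : Fin t' → Finset ℕ), Blk K R' J' →
    ∀ q : ℤ, q ≠ 0 → |q| ≤ M →
    ∀ v : ℤ, |v| ≤ (b : ℤ) ^ (2 * K - 1) →
    ∑ c ∈ Fintype.piFinset J', (if q * gam b e c + v = 0 then 0 else gg (q * gam b e c + v).natAbs ^ κ) ≤
      C * R' * (Fintype.piFinset J').card := by
  classical
  obtain ⟨C, hC, h⟩ := rom_gen hR b hb (M * b) κ
  refine ⟨C, hC, fun t' ht' K hK htK e he R' J' hJ q hq hqM v hv => ?_⟩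
  have hb0 : (2 : ℤ) ≤ b := by exact_mod_cast hb
  obtain ⟨i0, hi0⟩ : ∃ i : Fin t', i = ⟨0, ht'⟩ := ⟨_, rfl⟩
  have h1 := upd_sum J' i0 (fun c => if q * gam b e c + v = 0 then (0 : ℝ) else gg (q * gam b e c + v).natAbs ^ κ)
  have hsplit : ∀ (c : Fin t' → ℕ) (y : ℕ), gam b e (Function.update c i0 y) = e y * (b : ℤ) ^ y + ∑ m ∈ univ.erase i0, dl b e (c m) := by
    intro c y
    unfold gam
    rw [← add_sum_erase univ _ (mem_univ i0)]
    congr 1
    · simp [dl]
    · apply sum_congr rfl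
      intro m hm
      rw [Function.update_of_ne (ne_of_mem_erase hm)]
  have h2 : ∀ c ∈ Fintype.piFinset J', ∑ y ∈ J' i0, (if q * gam b e (Function.update c i0 y) + v = 0 then 0 else
      gg (q * gam b e (Function.update c i0 y) + v).natAbs ^ κ) ≤ C * R' * (J' i0).card := by
    intro c hc
    rw [Fintype.mem_piFinset] at hc
    have h3 : |q * ∑ m ∈ univ.erase i0, dl b e (c m) + v| ≤ (b : ℤ) ^ (2 * K) := by
      refine (abs_add_le _ _).trans ?_
      have h4 : |∑ m ∈ univ.erase i0, dl b e (c m)| ≤ t' * (b : ℤ) ^ K := by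
        refine (abs_sum_le_sum_abs _ _).trans ?_
        refine (sum_le_sum fun m _ => dl_le b e he K _ (by omega) (mem_range.1 (hJ.sub m (hc m)))).trans ?_
        rw [sum_const, nsmul_eq_mul]
        apply mul_le_mul_of_nonneg_right _ (by positivity)
        have := card_le_card (erase_subset i0 (univ : Finset (Fin t')))
        rw [card_univ, Fintype.card_fin] at this
        exact_mod_cast this
      have h5 : (M : ℤ) * (t' * (b : ℤ) ^ K) ≤ (b : ℤ) ^ (2 * K - 1) := by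
        calc (M : ℤ) * (t' * (b : ℤ) ^ K) = (M * t' : ℤ) * (b : ℤ) ^ K := by ring
          _ ≤ (b : ℤ) ^ (K - 1) * (b : ℤ) ^ K := mul_le_mul_of_nonneg_right htK (by positivity)
          _ = _ := by rw [← pow_add]; congr 1; omega
      have h7 : |q * ∑ m ∈ univ.erase i0, dl b e (c m)| ≤ (M : ℤ) * (t' * (b : ℤ) ^ K) := by
        rw [abs_mul]
        exact mul_le_mul hqM h4 (abs_nonneg _) (by positivity)
      have h6 : 2 * (b : ℤ) ^ (2 * K - 1) ≤ (b : ℤ) ^ (2 * K) := by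
        have : (b : ℤ) ^ (2 * K) = b * (b : ℤ) ^ (2 * K - 1) := by rw [← pow_succ']; congr 1; omega
        rw [this]
        exact mul_le_mul_of_nonneg_right hb0 (by positivity)
      linarith
    have h4 := h K hK (fun j => q * e j) (fun j => ⟨mul_ne_zero hq (he j).1, by
      rw [abs_mul]
      push_cast
      exact mul_le_mul hqM (he j).2.le (abs_nonneg _) (by positivity)⟩) (J' i0) (hJ.sub i0) _ h3
    have h5 : ∀ y, q * gam b e (Function.update c i0 y) + v = q * e y * (b : ℤ) ^ y + (q * ∑ m ∈ univ.erase i0, dl b e (c m) + v) := by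
      intro y
      rw [hsplit]; ring
    simp only [h5]
    refine h4.trans ?_
    rw [mul_assoc]
    apply mul_le_mul_of_nonneg_left _ hC
    exact_mod_cast hJ.card i0
  have h3 := sum_le_sum h2
  rw [h1, sum_const, nsmul_eq_mul] at h3
  rcases (J' i0).eq_empty_or_nonempty with h4 | h4
  · have h5 : Fintype.piFinset J' = ∅ := by
      rw [Fintype.piFinset_eq_empty]
      exact ⟨i0, h4⟩
    rw [h5]
    simp
  · have h5 : (0 : ℝ) < (J' i0).card := by exact_mod_cast card_pos.2 h4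
    refine le_of_mul_le_mul_left (h3.trans (le_of_eq ?_)) h5
    ring

/-- a value is taken at most once -/
lemma gam_zeroq (b : ℕ) (hb : 2 ≤ b) (e : ℕ → ℤ) (he : ∀ j, e j ≠ 0 ∧ |e j| < b) {t' : ℕ} (J' : Fin t' → Finset ℕ)
    (hsep : ∀ m m', m < m' → ∀ j ∈ J' m, ∀ j' ∈ J' m', j + 2 ≤ j') (q : ℤ) (hq : q ≠ 0) (v : ℤ) :
    ∑ c ∈ Fintype.piFinset J', (if q * gam b e c + v = 0 then (1 : ℝ) else 0) ≤ 1 := by
  classical
  rw [← sum_filter, sum_const, nsmul_eq_mul, mul_one]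
  have : ((Fintype.piFinset J').filter (fun c => q * gam b e c + v = 0)).card ≤ 1 := by
    rw [card_le_one]
    intro c hc c' hc'
    rw [mem_filter] at hc hc'
    have h1 : q * gam b e c = q * gam b e c' := by linarith [hc.2, hc'.2]
    exact gam_inj b hb e he J' hsep c hc.1 c' hc'.1 (mul_left_cancel₀ hq h1)
  exact_mod_cast this

end Pool.Agent.Y820.LF
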