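import Pool.Agent.Y820.LF.MF3
import Pool.Agent.Y820.LT.T

set_option autoImplicit false

/-! The averaged bound for the terms of the telescoping sum, for linear forms. -/

namespace Pool.Agent.Y820.LF
open Finset
open Pool.Agent.H373R2.T7 (lamI lamzI lamz Vz Vz_pos Vz_inv_small lamI_nonneg lamzI_nonneg)
open Pool.Agent.W93.HD (gg one_le_gg)
open Pool.Agent.W93.DG (hh logX hh_small)
open Pool.Agent.TH894.SM (dl Om Pos)
open Pool.Agent.Y820.LT (S_R S_P w wc w_nonneg wc_nonneg wc_le w_zero w_le Ch shf PP gam gam_le Blk psi_even prod_le_sum_pow shf_upd shf_upd_ne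
  Gc PC PC_eq Gc_supp upd_sum gram)

lemma dil_sum (g k : ℤ → ℝ) (N : ℕ) (hg : ∀ n, g n ≠ 0 → 1 ≤ n ∧ n ≤ N) (c v I : ℤ) (hc : c ≠ 0) (hI : |v| + |c| * N ≤ I) :
    ∑ m ∈ Icc (-I) I, (if c ∣ m - v then g ((m - v) / c) else 0) * k m = ∑ n ∈ Icc (1 : ℤ) N, g n * k (c * n + v) := by
  symm
  refine sum_bij_ne_zero (fun n _ _ => c * n + v) ?_ ?_ ?_ ?_
  · intro n hn _
    rw [mem_Icc] at hn ⊢
    rw [← abs_le]
    have h1 : |c * n| ≤ |c| * N := by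
      rw [abs_mul]
      apply mul_le_mul_of_nonneg_left _ (abs_nonneg _)
      rw [abs_of_pos (by omega : 0 < n)]
      exact hn.2
    have := abs_add_le (c * n) v
    linarith
  · intro n _ _ n' _ _ hnn
    exact mul_left_cancel₀ hc (by linarith)
  · intro m _ hm
    by_cases hd : c ∣ m - v
    · rw [if_pos hd] at hm
      obtain ⟨h1, h2⟩ := hg _ (left_ne_zero_of_mul hm)
      have h3 : c * ((m - v) / c) + v = m := by
        rw [Int.mul_ediv_cancel' hd]; ring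
      refine ⟨(m - v) / c, mem_Icc.2 ⟨h1, h2⟩, ?_, h3⟩
      rw [h3]
      exact hm
    · rw [if_neg hd, zero_mul] at hm
      exact absurd rfl hm
  · intro n _ _
    have h1 : c * n + v - v = c * n := by ring
    rw [h1, if_pos (dvd_mul_right _ _), Int.mul_ediv_cancel_left _ hc]

/-- the terms of the telescoping sum -/
noncomputable def DD {s t t' : ℕ} (τ0 : Bool) (b z Y N : ℕ) (e : Fin s → ℕ → ℤ) (q h : Fin s → ℤ) (j : Fin s) (x : Fin s → Ch t t') : ℝ :=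
  ∑ n ∈ Icc (1 : ℤ) N, Fj τ0 b z Y N e q h j x n * Gc z Y (q j * n + shf b e h x j)

lemma Fj_upd {s t t' : ℕ} (τ0 : Bool) (b z Y N : ℕ) (e : Fin s → ℕ → ℤ) (q h : Fin s → ℤ) (j : Fin s) (x : Fin s → Ch t t') (y : Ch t t') (n : ℤ) :
    Fj τ0 b z Y N e q h j (Function.update x j y) n = Fj τ0 b z Y N e q h j x n := by
  unfold Fj
  congr 1
  apply prod_congr rfl
  intro i hi
  rw [shf_upd_ne _ _ _ _ _ _ (ne_of_mem_erase hi)]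

/-- the dilated factors -/
noncomputable def Ad {s t t' : ℕ} (τ0 : Bool) (b z Y N : ℕ) (e : Fin s → ℕ → ℤ) (q h : Fin s → ℤ) (j : Fin s) (x : Fin s → Ch t t') (c : Fin t' → ℕ)
    (m : ℤ) : ℝ :=
  if q j ∣ m - gam b (e j) c then Fj τ0 b z Y N e q h j x ((m - gam b (e j) c) / q j) else 0

lemma DD_upd {s t t' : ℕ} (τ0 : Bool) (b z Y N : ℕ) (e : Fin s → ℕ → ℤ) (q h : Fin s → ℤ) (j : Fin s) (hqj : q j ≠ 0) (x : Fin s → Ch t t')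
    (ω : Fin 3 × Fin t → ℕ) (c : Fin t' → ℕ) (I : ℤ) (hI : |gam b (e j) c| + |q j| * N ≤ I) :
    DD τ0 b z Y N e q h j (Function.update x j (ω, c)) =
      ∑ m ∈ Icc (-I) I, Ad τ0 b z Y N e q h j x c m * Gc z Y (m + (h j + gam b (e j) ω)) := by
  unfold DD Ad
  rw [dil_sum (Fj τ0 b z Y N e q h j x) (fun m => Gc z Y (m + (h j + gam b (e j) ω))) N (Fj_supp τ0 b z Y N e q h j x) (q j)
    (gam b (e j) c) I hqj hI]
  apply sum_congr rfl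
  intro n _
  rw [Fj_upd, shf_upd]
  congr 2
  ring

lemma UU_eq {s t t' : ℕ} (τ0 : Bool) (b z Y N : ℕ) (e : Fin s → ℕ → ℤ) (q h : Fin s → ℤ) (j : Fin s) (hqj : q j ≠ 0) (x : Fin s → Ch t t')
    (c c' : Fin t' → ℕ) (I : ℤ) (hI : |gam b (e j) c| + |q j| * N ≤ I) :
    ∑ m ∈ Icc (-I) I, Ad τ0 b z Y N e q h j x c m * Ad τ0 b z Y N e q h j x c' m =
      UU τ0 b z Y N e q h j x (gam b (e j) c - gam b (e j) c') := by
  have h1 := dil_sum (Fj τ0 b z Y N e q h j x) (fun m => Ad τ0 b z Y N e q h j x c' m) N (Fj_supp τ0 b z Y N e q h j x) (q j)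
    (gam b (e j) c) I hqj hI
  have h2 : ∑ m ∈ Icc (-I) I, Ad τ0 b z Y N e q h j x c m * Ad τ0 b z Y N e q h j x c' m =
      ∑ m ∈ Icc (-I) I, (if q j ∣ m - gam b (e j) c then Fj τ0 b z Y N e q h j x ((m - gam b (e j) c) / q j) else 0) *
        Ad τ0 b z Y N e q h j x c' m := rfl
  rw [h2, h1]
  unfold UU Ad
  have h3 : ∀ n : ℤ, q j * n + gam b (e j) c - gam b (e j) c' = q j * n + (gam b (e j) c - gam b (e j) c') := by
    intro n; ring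
  by_cases hd : q j ∣ gam b (e j) c - gam b (e j) c'
  · rw [if_pos hd]
    apply sum_congr rfl
    intro n _
    rw [h3, if_pos ((dvd_add_right (dvd_mul_right _ _)).2 hd), Int.add_ediv_of_dvd_left (dvd_mul_right _ _), Int.mul_ediv_cancel_left _ hqj]
  · rw [if_neg hd]
    apply sum_eq_zero
    intro n _
    rw [h3, if_neg (fun h => hd ((dvd_add_right (dvd_mul_right _ _)).1 h)), mul_zero]

theorem avgD (hSB : S_SBF) (hR : S_R) (hP : S_P) (b : ℕ) (hb : 2 ≤ b) : ∃ R A B : ℕ, 1 ≤ R ∧ 3 ≤ A ∧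
    ∀ s t' R' Ez Q0 : ℕ, 4 * s + 1 ≤ t' → 1 ≤ Q0 → ∀ δ : ℝ, 0 < δ → ∃ t₀ : ℕ, ∀ t : ℕ, t₀ ≤ t →
    ∃ k₀ : ℕ, ∀ K : ℕ, k₀ ≤ K → ∀ z : ℕ, 2 ≤ z →
    Real.log ((b ^ K : ℕ) : ℝ) ^ B ≤ z → (z : ℝ) ≤ Real.log ((b ^ K : ℕ) : ℝ) ^ Ez →
    ∀ (τ0 : Bool) (q : Fin s → ℤ), (∀ i, q i ≠ 0 ∧ |q i| ≤ Q0) →
    ∀ e : Fin s → ℕ → ℤ, (∀ i j, e i j ≠ 0 ∧ |e i j| < b) → ∀ J : Fin 3 → Finset ℕ, Pos b R K (hh b A K) J →
    ∀ J' : Fin t' → Finset ℕ, Blk K R' J' → ∀ h : Fin s → ℤ, (∀ i, |h i| ≤ ((b ^ K : ℕ) : ℤ)) → ∀ N : ℕ, N ≤ b ^ K → ∀ j : Fin s,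
    ∑ x ∈ PP s (Om J t) (Fintype.piFinset J'), DD τ0 b z (b ^ K) N e q h j x ^ 2 ≤
      δ * ((b ^ K : ℕ) : ℝ) ^ 2 * (PP s (Om J t) (Fintype.piFinset J')).card := by
  classical
  obtain ⟨R, A, B, hR1, hA, hPc⟩ := hP b hb
  refine ⟨R, A, B, hR1, hA, fun s t' R' Ez Q0 ht' hQ0 δ hδ => ?_⟩
  obtain ⟨C, hC, hmom⟩ := mom hSB hR b hb s t' R' Ez Q0 ht' hQ0
  obtain ⟨δ', hδ'⟩ : ∃ δ' : ℝ, δ' = δ ^ 2 / (C + 1) := ⟨_, rfl⟩
  have hδ'0 : 0 < δ' := by rw [hδ']; positivity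
  obtain ⟨t₀, ht₀⟩ := hPc δ' hδ'0
  refine ⟨t₀, fun t ht => ?_⟩
  obtain ⟨k1, hk1⟩ := hmom t
  obtain ⟨k2, hk2⟩ := ht₀ t ht Ez
  obtain ⟨k3, hk3⟩ := hh_small b A 4 hb
  refine ⟨k1 + k2 + k3 + 8, fun K hK z hz2 hzB hzE τ0 q hq e he J hJ J' hJ' h hh' N hN j => ?_⟩
  have hm := hk1 K (by omega) z hz2 hzE τ0 q hq e he (Om J t) ?_ J' hJ' h hh' N hN j
  swap
  · intro ω hω c
    have h4 := hk3 K (by omega)
    unfold Om at hω
    rw [Fintype.mem_piFinset] at hω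
    have h5 := hω c
    obtain ⟨u, cc⟩ := c
    simp only at h5
    fin_cases u
    · have := mem_Ico.1 (hJ.s0 h5)
      simp only at this ⊢
      omega
    · have := mem_Ico.1 (hJ.s1 h5)
      simp only at this ⊢
      omega
    · have := mem_Ico.1 (hJ.s2 h5)
      simp only at this ⊢
      omega
  have hp := hk2 K (by omega) z hzB hzE (e j) (he j) J hJ
  obtain ⟨Y, hY⟩ : ∃ Y, Y = b ^ K := ⟨_, rfl⟩
  rw [← hY] at hm hp hh' hN ⊢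
  obtain ⟨Ω, hΩ⟩ : ∃ Ω, Ω = Om J t := ⟨_, rfl⟩
  obtain ⟨Cs, hCs⟩ : ∃ Cs, Cs = Fintype.piFinset J' := ⟨_, rfl⟩
  rw [← hΩ] at hm hp ⊢
  rw [← hCs] at hm ⊢
  -- the average over the coordinate
  have hup := upd_sum (fun _ : Fin s => Ω ×ˢ Cs) j (fun x => DD τ0 b z Y N e q h j x ^ 2)
  obtain ⟨I, hI⟩ : ∃ I : ℤ, (∀ ω ∈ Ω, |h j + gam b (e j) ω| + Y ≤ I) ∧ (∀ c ∈ Cs, |gam b (e j) c| + |q j| * N ≤ I) := by
    refine ⟨∑ ω ∈ Ω, (|h j + gam b (e j) ω| + Y) + ∑ c ∈ Cs, (|gam b (e j) c| + |q j| * N), ?_, ?_⟩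
    · intro ω hω
      have h1 := single_le_sum (f := fun ω => |h j + gam b (e j) ω| + (Y : ℤ)) (fun ω _ => by positivity) hω
      have h2 : 0 ≤ ∑ c ∈ Cs, (|gam b (e j) c| + |q j| * (N : ℤ)) := sum_nonneg fun c _ => by positivity
      linarith
    · intro c hc
      have h1 := single_le_sum (f := fun c => |gam b (e j) c| + |q j| * (N : ℤ)) (fun c _ => by positivity) hc
      have h2 : 0 ≤ ∑ ω ∈ Ω, (|h j + gam b (e j) ω| + (Y : ℤ)) := sum_nonneg fun ω _ => by positivity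
      linarith
  obtain ⟨hI1, hI2⟩ := hI
  -- the inequality of Cauchy and Schwarz for fixed other coordinates
  obtain ⟨Mx, hMx⟩ : ∃ Mx : (Fin s → Ch t t') → ℝ, Mx = fun x => ∑ c ∈ Cs, ∑ c' ∈ Cs,
      UU τ0 b z Y N e q h j x (gam b (e j) c - gam b (e j) c') ^ 2 := ⟨_, rfl⟩
  obtain ⟨P, hPd⟩ : ∃ P : ℝ, P = ∑ ω ∈ Ω, ∑ ω' ∈ Ω, PC z Y (∑ c, dl b (e j) (ω' c) - ∑ c, dl b (e j) (ω c)) ^ 2 := ⟨_, rfl⟩
  rw [← hPd] at hp
  have hP0 : 0 ≤ P := by rw [hPd]; exact sum_nonneg fun ω _ => sum_nonneg fun ω' _ => sq_nonneg _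
  have hfix : ∀ x ∈ PP s Ω Cs, (∑ y ∈ Ω ×ˢ Cs, DD τ0 b z Y N e q h j (Function.update x j y) ^ 2) ^ 2 ≤ Mx x * P := by
    intro x hx
    rw [sum_product]
    have h1 : ∑ ω ∈ Ω, ∑ c ∈ Cs, DD τ0 b z Y N e q h j (Function.update x j (ω, c)) ^ 2 =
        ∑ ω ∈ Ω, ∑ c ∈ Cs, (∑ m ∈ Icc (-I) I, Ad τ0 b z Y N e q h j x c m * Gc z Y (m + (h j + gam b (e j) ω))) ^ 2 := by
      apply sum_congr rfl
      intro ω _
      apply sum_congr rfl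
      intro c hc
      rw [DD_upd τ0 b z Y N e q h j (hq j).1 x ω c I (hI2 c hc)]
    rw [h1]
    refine (gram (Icc (-I) I) Ω Cs (fun c m => Ad τ0 b z Y N e q h j x c m)
      (fun ω m => Gc z Y (m + (h j + gam b (e j) ω)))).trans (le_of_eq ?_)
    congr 1
    · rw [hMx]
      apply sum_congr rfl
      intro c hc
      apply sum_congr rfl
      intro c' _
      rw [UU_eq τ0 b z Y N e q h j (hq j).1 x c c' I (hI2 c hc)]
    · rw [hPd]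
      apply sum_congr rfl
      intro ω hω
      apply sum_congr rfl
      intro ω' _
      rw [PC_eq b z Y (e j) (h j) ω ω' I (hI1 ω hω)]
  -- the sum over the other coordinates
  have hMsum : ∑ x ∈ PP s Ω Cs, Mx x ≤ C * (Y : ℝ) ^ 2 * ((PP s Ω Cs).card * (Cs.card : ℝ) ^ 2) := by
    rw [hMx]; exact hm
  obtain ⟨TT, hTT⟩ : ∃ TT : (Fin s → Ch t t') → ℝ, TT = fun x => ∑ y ∈ Ω ×ˢ Cs, DD τ0 b z Y N e q h j (Function.update x j y) ^ 2 := ⟨_, rfl⟩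
  have hcs : (∑ x ∈ PP s Ω Cs, TT x) ^ 2 ≤ (PP s Ω Cs).card * ∑ x ∈ PP s Ω Cs, TT x ^ 2 := sq_sum_le_card_mul_sum_sq
  have hsum2 : ∑ x ∈ PP s Ω Cs, TT x ^ 2 ≤ C * (Y : ℝ) ^ 2 * ((PP s Ω Cs).card * (Cs.card : ℝ) ^ 2) * (δ' * (Y : ℝ) ^ 2 * (Ω.card : ℝ) ^ 2) := by
    calc ∑ x ∈ PP s Ω Cs, TT x ^ 2 ≤ ∑ x ∈ PP s Ω Cs, Mx x * P := sum_le_sum fun x hx => by rw [hTT]; exact hfix x hx
      _ = (∑ x ∈ PP s Ω Cs, Mx x) * P := by rw [sum_mul]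
      _ ≤ _ := mul_le_mul hMsum hp hP0 (by positivity)
  have hTeq : ∑ x ∈ PP s Ω Cs, TT x = (Ω.card * Cs.card : ℝ) * ∑ x ∈ PP s Ω Cs, DD τ0 b z Y N e q h j x ^ 2 := by
    rw [hTT]
    unfold PP
    rw [hup, card_product, Nat.cast_mul]
  rcases (PP s Ω Cs).eq_empty_or_nonempty with hE | hE
  · rw [hE]; simp
  have hΩ0 : (0 : ℝ) < Ω.card := by
    rw [Nat.cast_pos, card_pos]
    obtain ⟨x, hx⟩ := hE
    unfold PP at hx
    rw [Fintype.mem_piFinset] at hx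
    exact ⟨_, (mem_product.1 (hx j)).1⟩
  have hC0 : (0 : ℝ) < Cs.card := by
    rw [Nat.cast_pos, card_pos]
    obtain ⟨x, hx⟩ := hE
    unfold PP at hx
    rw [Fintype.mem_piFinset] at hx
    exact ⟨_, (mem_product.1 (hx j)).2⟩
  obtain ⟨D, hD⟩ : ∃ D, D = ∑ x ∈ PP s Ω Cs, DD τ0 b z Y N e q h j x ^ 2 := ⟨_, rfl⟩
  rw [← hD] at hTeq ⊢
  have hD0 : 0 ≤ D := by rw [hD]; exact sum_nonneg fun x _ => sq_nonneg _
  rw [hTeq] at hcs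
  have hfin : D ^ 2 ≤ (δ * (Y : ℝ) ^ 2 * (PP s Ω Cs).card) ^ 2 := by
    have h1 := hcs.trans (mul_le_mul_of_nonneg_left hsum2 (Nat.cast_nonneg _))
    have h2 : C * δ' ≤ δ ^ 2 := by
      rw [hδ', ← mul_div_assoc, div_le_iff₀ (by positivity)]
      nlinarith [sq_nonneg δ]
    have h3 : ((Ω.card : ℝ) * Cs.card) ^ 2 * D ^ 2 ≤ ((Ω.card : ℝ) * Cs.card) ^ 2 * (δ * (Y : ℝ) ^ 2 * (PP s Ω Cs).card) ^ 2 := by
      calc ((Ω.card : ℝ) * Cs.card) ^ 2 * D ^ 2 = ((Ω.card : ℝ) * Cs.card * D) ^ 2 := by ring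
        _ ≤ _ := h1
        _ = (C * δ') * (((Ω.card : ℝ) * Cs.card) ^ 2 * ((Y : ℝ) ^ 2 * (PP s Ω Cs).card) ^ 2) := by ring
        _ ≤ δ ^ 2 * (((Ω.card : ℝ) * Cs.card) ^ 2 * ((Y : ℝ) ^ 2 * (PP s Ω Cs).card) ^ 2) :=
            mul_le_mul_of_nonneg_right h2 (by positivity)
        _ = _ := by ring
    exact le_of_mul_le_mul_left h3 (by positivity)
  exact (abs_le_of_sq_le_sq' hfin (by positivity)).2

end Pool.Agent.Y820.LF
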